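import Mathlib

set_option autoImplicit false

namespace Pool.Agent.MPcf54d7

/-- `Area R n g`: the element `g` is a product of `n` conjugates of elements of `R`. -/
inductive Area {G : Type*} [Group G] (R : Set G) : ℕ → G → Prop
  | zero : Area R 0 1
  | succ {n : ℕ} (u v r : G) : r ∈ R → Area R n (u * v) → Area R (n + 1) (u * r * v)

section
variable {G : Type*} [Group G] {R : Set G}

lemma Area.mul {m n : ℕ} {g h : G} (hg : Area R m g) (hh : Area R n h) :
    Area R (m + n) (g * h) := by
  induction hg generalizing h with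
  | zero => simpa using hh
  | succ u v r hr _ ih =>
    have h1 := Area.succ u (v * h) r hr (n := _ + n) (by
      have := ih hh
      rwa [mul_assoc] at this)
    have e : u * r * (v * h) = u * r * v * h := by group
    rw [e] at h1
    convert h1 using 1
    omega

lemma Area.conj {n : ℕ} {g : G} (hg : Area R n g) (x : G) : Area R n (x * g * x⁻¹) := by
  induction hg with
  | zero => simpa using Area.zero
  | succ u v r hr _ ih =>
    have h1 := Area.succ (x * u) (v * x⁻¹) r hr (n := _) (by
      have e : x * u * (v * x⁻¹) = x * (u * v) * x⁻¹ := by group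
      rw [e]; exact ih)
    have e : x * u * r * (v * x⁻¹) = x * (u * r * v) * x⁻¹ := by group
    rwa [e] at h1

lemma Area.inv (hR : ∀ r ∈ R, r⁻¹ ∈ R) {n : ℕ} {g : G} (hg : Area R n g) : Area R n g⁻¹ := by
  induction hg with
  | zero => simpa using Area.zero
  | succ u v r hr _ ih =>
    have h1 := Area.succ v⁻¹ u⁻¹ r⁻¹ (hR r hr) (n := _) (by
      have e : v⁻¹ * u⁻¹ = (u * v)⁻¹ := by group
      rw [e]; exact ih)
    have e : v⁻¹ * r⁻¹ * u⁻¹ = (u * r * v)⁻¹ := by group
    rwa [e] at h1

/-- the subgroup of elements of finite area -/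
def areaSubgroup (R : Set G) (hR : ∀ r ∈ R, r⁻¹ ∈ R) : Subgroup G where
  carrier := {g | ∃ n, Area R n g}
  mul_mem' := by
    rintro a b ⟨m, hm⟩ ⟨n, hn⟩
    exact ⟨m + n, hm.mul hn⟩
  one_mem' := ⟨0, Area.zero⟩
  inv_mem' := by
    rintro a ⟨m, hm⟩
    exact ⟨m, hm.inv hR⟩

lemma exists_area (hR : ∀ r ∈ R, r⁻¹ ∈ R) {g : G} (hg : g ∈ Subgroup.normalClosure R) :
    ∃ n, Area R n g := by
  have hn : (areaSubgroup R hR).Normal := ⟨by
    rintro a ⟨n, hn⟩ x
    exact ⟨n, hn.conj x⟩⟩
  have hle : Subgroup.normalClosure R ≤ areaSubgroup R hR := by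
    apply Subgroup.normalClosure_le_normal
    intro r hr
    refine ⟨1, ?_⟩
    have := Area.succ (R := R) 1 1 r hr (n := 0) (by simpa using Area.zero)
    simpa using this
  exact hle hg

/-- `CPn f n g`: `g` is a product of conjugates of `f 0, …, f (n-1)`, each used once. -/
inductive CPn (f : ℕ → G) : ℕ → G → Prop
  | zero : CPn f 0 1
  | succ {n : ℕ} (u v : G) : CPn f n (u * v) → CPn f (n + 1) (u * f n * v)

lemma CPn.congr {f f' : ℕ → G} {n : ℕ} {g : G} (h : CPn f n g) (hff : ∀ j, j < n → f j = f' j) :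
    CPn f' n g := by
  induction h with
  | zero => exact CPn.zero
  | @succ m u v _ ih =>
    have h1 := CPn.succ (f := f') u v (ih (fun j hj => hff j (by omega)))
    rwa [← hff m (by omega)] at h1

open Classical in
lemma CPn.area {f : ℕ → G} {n : ℕ} {g : G} (h : CPn f n g)
    (hf : ∀ j, j < n → f j ∈ R ∨ f j = 1) :
    ∃ m, m + ((Finset.range n).filter (fun j => f j = 1)).card ≤ n ∧ Area R m g := by
  induction h with
  | zero => exact ⟨0, by simp, Area.zero⟩
  | @succ k u v _ ih =>
    obtain ⟨m, hm, ha⟩ := ih (fun j hj => hf j (by omega))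
    rw [Finset.range_add_one, Finset.filter_insert]
    by_cases h1 : f k = 1
    · refine ⟨m, ?_, ?_⟩
      · rw [if_pos h1, Finset.card_insert_of_notMem (by simp)]
        omega
      · rw [h1, mul_one]; exact ha
    · rcases hf k (by omega) with h2 | h2
      · refine ⟨m + 1, ?_, Area.succ u v _ h2 ha⟩
        rw [if_neg h1]
        omega
      · exact absurd h2 h1

end

end Pool.Agent.MPcf54d7
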