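import Pool.Agent.Lib.MP_cf54d7_al.Dgm

set_option autoImplicit false

namespace Pool.Agent.MPcf54d7

open FreeGroup

variable {α : Type*}

/-- data of the diagram after attaching the face `f` -/
def attachDat (D : Dat α) (N : ℕ) (f : List (α × Bool)) (O₁ O₂ : List ℕ) (M K m : ℕ) : Dat α where
  fw := Function.update D.fw N f
  O := O₁ ++ ((List.range f.length).map (fun t => M + t) ++ O₂)
  lo := fun i => if M ≤ i then li (f.getD (f.length - 1 - (i - M)) (D.lo 0)) else D.lo i
  al := fun z => match z with
    | .inl i => if M ≤ i ∧ i < M + f.length then .inr (N, f.length - 1 - (i - M)) else D.al (.inl i)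
    | .inr (j, k) => if j = N then .inl (M + (f.length - 1 - k)) else D.al (.inr (j, k))
  nu := fun z => match z with
    | .inl i => if M ≤ i then
        (if f.length - (i - M) = 0 ∨ f.length - (i - M) = f.length then m else K + (f.length - (i - M)))
        else D.nu (.inl i)
    | .inr (j, k) => if j = N then (if k = 0 ∨ k = f.length then m else K + k) else D.nu (.inr (j, k))
  s := D.s

lemma getD_invRev (f : List (α × Bool)) (t : ℕ) (ht : t < f.length) (d : α × Bool) :
    (invRev f).getD t d = li (f.getD (f.length - 1 - t) d) := by
  unfold invRev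
  rw [List.getD_eq_getElem _ _ (by simpa using ht), List.getD_eq_getElem _ _ (by omega)]
  simp [li]

theorem Good.attach {RW : Set (List (α × Bool))} {u v : List (α × Bool)} {N : ℕ} {D : Dat α}
    (h : Good RW (u ++ v) N D) (f : List (α × Bool)) (hf : f ∈ RW) (hne : f ≠ []) :
    ∃ D', Good RW (u ++ (invRev f ++ v)) (N + 1) D' := by
  obtain ⟨O₁, O₂, hO, hu, hv⟩ := List.map_eq_append_iff.1 h.hlo
  obtain ⟨m, hp1, hp2⟩ := (path_append O₁ O₂ D.s D.s).1 (hO ▸ h.path)
  obtain ⟨A, hA, hcnt⟩ := h.cnt
  obtain ⟨M, hM⟩ := exists_fresh D.O
  obtain ⟨K, hK⟩ := exists_freshA A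
  have hln : 0 < f.length := List.length_pos_iff.2 hne
  refine ⟨attachDat D N f O₁ O₂ M K m, ?_⟩
  set D' := attachDat D N f O₁ O₂ M K m with hD'
  have hM1 : ∀ i ∈ O₁, i < M := fun i hi => hM i (by rw [hO]; simp [hi])
  have hM2 : ∀ i ∈ O₂, i < M := fun i hi => hM i (by rw [hO]; simp [hi])
  -- validity
  have vl : ∀ i, D'.valid (N + 1) (.inl i) ↔ (D.valid N (.inl i) ∨ (M ≤ i ∧ i < M + f.length)) := by
    intro i
    simp only [hD', attachDat, Dat.valid, List.mem_append, range_map_append, hO]
    tauto
  have vr : ∀ j k, D'.valid (N + 1) (.inr (j, k)) ↔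
      (D.valid N (.inr (j, k)) ∨ (j = N ∧ k < f.length)) := by
    intro j k
    simp only [hD', attachDat, Dat.valid]
    by_cases hj : j = N
    · subst hj
      simp
    · rw [Function.update_of_ne hj]
      constructor
      · rintro ⟨h1, h2⟩
        left; exact ⟨by omega, h2⟩
      · rintro (⟨h1, h2⟩ | ⟨h1, _⟩)
        · exact ⟨by omega, h2⟩
        · exact absurd h1 hj
  have oldl : ∀ i, D.valid N (.inl i) → i < M := fun i hi => hM i hi
  have oldr : ∀ j k, D.valid N (.inr (j, k)) → j ≠ N := by
    intro j k hjk
    have := hjk.1
    omega
  -- functions on old darts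
  have al_old : ∀ x, D.valid N x → D'.al x = D.al x := by
    rintro (i | ⟨j, k⟩) hx
    · have := oldl i hx
      simp only [hD', attachDat]
      rw [if_neg (by omega)]
    · have := oldr j k hx
      simp only [hD', attachDat]
      rw [if_neg this]
  have nu_old : ∀ x, D.valid N x → D'.nu x = D.nu x := by
    rintro (i | ⟨j, k⟩) hx
    · have := oldl i hx
      simp only [hD', attachDat]
      rw [if_neg (by omega)]
    · have := oldr j k hx
      simp only [hD', attachDat]
      rw [if_neg this]
  have lab_old : ∀ x, D.valid N x → D'.lab x = D.lab x := by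
    rintro (i | ⟨j, k⟩) hx
    · have := oldl i hx
      simp only [hD', attachDat, Dat.lab]
      rw [if_neg (by omega)]
    · have h1 := oldr j k hx
      have h2 := hx.2
      simp only [hD', attachDat, Dat.lab]
      rw [Function.update_of_ne h1]
      rw [List.getD_eq_getElem _ _ h2, List.getD_eq_getElem _ _ h2]
  have val_old : ∀ x, D.valid N x → D'.valid (N + 1) x := by
    rintro (i | ⟨j, k⟩) hx
    · exact (vl i).2 (Or.inl hx)
    · exact (vr j k).2 (Or.inl hx)
  -- functions on new darts
  have al_newl : ∀ i, M ≤ i → i < M + f.length →
      D'.al (.inl i) = .inr (N, f.length - 1 - (i - M)) := by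
    intro i h1 h2
    simp only [hD', attachDat]
    rw [if_pos ⟨h1, h2⟩]
  have al_newr : ∀ k, D'.al (.inr (N, k)) = .inl (M + (f.length - 1 - k)) := by
    intro k
    simp only [hD', attachDat]
    simp
  have cases_valid : ∀ x, D'.valid (N + 1) x → D.valid N x ∨
      (∃ i, x = .inl i ∧ M ≤ i ∧ i < M + f.length) ∨ (∃ k, x = .inr (N, k) ∧ k < f.length) := by
    rintro (i | ⟨j, k⟩) hx
    · rcases (vl i).1 hx with h1 | h1
      · left; exact h1
      · right; left; exact ⟨i, rfl, h1.1, h1.2⟩
    · rcases (vr j k).1 hx with h1 | ⟨h1, h2⟩
      · left; exact h1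
      · right; right; subst h1; exact ⟨k, rfl, h2⟩
  have fwN : D'.fw N = f := by simp [hD', attachDat]
  have fwj : ∀ j, j < N → D'.fw j = D.fw j := by
    intro j hj
    simp only [hD', attachDat]
    rw [Function.update_of_ne (by omega)]
  constructor
  · intro j hj
    by_cases hjN : j = N
    · subst hjN; rw [fwN]; exact hf
    · rw [fwj j (by omega)]; exact h.hfw j (by omega)
  · intro j hj
    by_cases hjN : j = N
    · subst hjN; rw [fwN]; exact hln
    · rw [fwj j (by omega)]; exact h.hlen j (by omega)
  · -- nodup
    have hn := h.hO
    rw [hO] at hn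
    rw [List.nodup_append] at hn
    obtain ⟨n1, n2, n3⟩ := hn
    show (O₁ ++ ((List.range f.length).map (fun t => M + t) ++ O₂)).Nodup
    rw [List.nodup_append, List.nodup_append]
    refine ⟨n1, ⟨?_, n2, ?_⟩, ?_⟩
    · exact (List.nodup_range).map (fun a b hab => by simpa using hab)
    · intro a ha b hb hab
      subst hab
      have := hM2 a hb
      have := (range_map_append a).1 ha
      omega
    · intro a ha b hb hab
      subst hab
      rcases List.mem_append.1 hb with hb | hb
      · have := hM1 a ha
        have := (range_map_append a).1 hb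
        omega
      · exact n3 a ha a hb rfl
  · -- labels of the boundary
    show (O₁ ++ ((List.range f.length).map (fun t => M + t) ++ O₂)).map D'.lo = _
    rw [List.map_append, List.map_append]
    congr 1
    · rw [← hu]
      apply List.map_congr_left
      intro i hi
      have := hM1 i hi
      simp only [hD', attachDat]
      rw [if_neg (by omega)]
    · congr 1
      · apply List.ext_getElem
        · simp
        · intro t h1 h2
          have ht : t < f.length := by simpa using h1
          rw [← List.getD_eq_getElem (invRev f) (D.lo 0) h2, getD_invRev f t ht]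
          simp only [List.getElem_map, List.getElem_range, hD', attachDat]
          rw [if_pos (by omega)]
          congr 3
          omega
      · rw [← hv]
        apply List.map_congr_left
        intro i hi
        have := hM2 i hi
        simp only [hD', attachDat]
        rw [if_neg (by omega)]
  · -- al_valid
    intro x hx
    rcases cases_valid x hx with h1 | ⟨i, rfl, h1, h2⟩ | ⟨k, rfl, h1⟩
    · rw [al_old x h1]
      exact val_old _ (h.al_valid x h1)
    · rw [al_newl i h1 h2]
      exact (vr _ _).2 (Or.inr ⟨rfl, by omega⟩)
    · rw [al_newr k]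
      exact (vl _).2 (Or.inr ⟨by omega, by omega⟩)
  · -- al_al
    intro x hx
    rcases cases_valid x hx with h1 | ⟨i, rfl, h1, h2⟩ | ⟨k, rfl, h1⟩
    · rw [al_old x h1, al_old _ (h.al_valid x h1)]
      exact h.al_al x h1
    · rw [al_newl i h1 h2, al_newr]
      congr 1
      omega
    · rw [al_newr k, al_newl _ (by omega) (by omega)]
      congr 2
      omega
  · -- al_ne
    intro x hx
    rcases cases_valid x hx with h1 | ⟨i, rfl, h1, h2⟩ | ⟨k, rfl, h1⟩
    · rw [al_old x h1]; exact h.al_ne x h1
    · rw [al_newl i h1 h2]; simp
    · rw [al_newr k]; simp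
  · -- al_lab
    intro x hx
    rcases cases_valid x hx with h1 | ⟨i, rfl, h1, h2⟩ | ⟨k, rfl, h1⟩
    · rw [al_old x h1, lab_old x h1, lab_old _ (h.al_valid x h1)]
      exact h.al_lab x h1
    · rw [al_newl i h1 h2]
      simp only [Dat.lab, fwN]
      simp only [hD', attachDat]
      rw [if_pos h1, li_li]
      rw [List.getD_eq_getElem _ _ (by omega), List.getD_eq_getElem _ _ (by omega)]
    · rw [al_newr k]
      simp only [Dat.lab, fwN]
      simp only [hD', attachDat]
      rw [if_pos (by omega)]
      have e : f.length - 1 - (M + (f.length - 1 - k) - M) = k := by omega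
      rw [e, List.getD_eq_getElem _ _ h1, List.getD_eq_getElem _ _ h1]
  · -- path
    show Path D'.nu D'.al (O₁ ++ ((List.range f.length).map (fun t => M + t) ++ O₂)) D.s D.s
    rw [path_append]
    refine ⟨m, ?_, ?_⟩
    · apply path_map id O₁ D.s m _ _ hp1
      · intro i hi
        exact nu_old _ (show i ∈ D.O by rw [hO]; simp [hi])
      · intro i hi
        have hv1 : D.valid N (.inl i) := (show i ∈ D.O by rw [hO]; simp [hi])
        rw [al_old _ hv1, nu_old _ (h.al_valid _ hv1)]
        rfl
    · rw [path_append]
      refine ⟨m, ?_, ?_⟩
      · have key : ∀ k, k ≤ f.length → Path D'.nu D'.al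
            ((List.range' (f.length - k) k).map (fun t => M + t))
            (if k = 0 ∨ k = f.length then m else K + k) m := by
          intro k
          induction k with
          | zero => intro _; simp [Path]
          | succ k ih =>
            intro hk
            rw [List.range'_succ, List.map_cons]
            refine ⟨?_, ?_⟩
            · simp only [hD', attachDat]
              rw [if_pos (by omega)]
              have e : f.length - (M + (f.length - (k + 1)) - M) = k + 1 := by omega
              rw [e]
            · have e : f.length - (k + 1) + 1 = f.length - k := by omega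
              rw [e]
              have e2 : D'.nu (D'.al (.inl (M + (f.length - (k + 1))))) =
                  (if k = 0 ∨ k = f.length then m else K + k) := by
                rw [al_newl _ (by omega) (by omega)]
                simp only [hD', attachDat]
                have e : f.length - 1 - (M + (f.length - (k + 1)) - M) = k := by omega
                rw [e]
                simp
              rw [e2]
              exact ih (by omega)
        have := key f.length le_rfl
        simp only [Nat.sub_self, or_true, if_true] at this
        rwa [List.range_eq_range']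
      · apply path_map id O₂ m D.s _ _ hp2
        · intro i hi
          exact nu_old _ (show i ∈ D.O by rw [hO]; simp [hi])
        · intro i hi
          have hv1 : D.valid N (.inl i) := (show i ∈ D.O by rw [hO]; simp [hi])
          rw [al_old _ hv1, nu_old _ (h.al_valid _ hv1)]
          rfl
  · -- disc
    intro j k hj hk
    by_cases hjN : j = N
    · subst hjN
      rw [fwN] at hk ⊢
      rw [al_newr k]
      have e : f.length - (M + (f.length - 1 - k) - M) = k + 1 := by omega
      have e3 : D'.nu (.inl (M + (f.length - 1 - k))) =
          (if k + 1 = 0 ∨ k + 1 = f.length then m else K + (k + 1)) := by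
        simp only [hD', attachDat]
        rw [if_pos (by omega), e]
      rw [e3]
      simp only [hD', attachDat]
      rcases Nat.lt_or_ge (k + 1) f.length with h1 | h1
      · rw [Nat.mod_eq_of_lt h1]
        simp
      · have e2 : k + 1 = f.length := by omega
        rw [e2]
        simp
    · rw [fwj j (by omega)] at hk ⊢
      have hv1 : D.valid N (.inr (j, k)) := ⟨by omega, hk⟩
      have hv2 : D.valid N (.inr (j, (k + 1) % (D.fw j).length)) :=
        ⟨by omega, Nat.mod_lt _ (by omega)⟩
      rw [al_old _ hv1, nu_old _ hv2, nu_old _ (h.al_valid _ hv1)]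
      exact h.disc j k (by omega) hk
  · -- count
    refine ⟨A ∪ (Finset.Ico 1 f.length).image (fun k => K + k), ?_, ?_⟩
    · intro v hv
      rcases Finset.mem_union.1 hv with hv | hv
      · rcases hA v hv with h1 | ⟨x, hx, hxv⟩
        · left; exact h1
        · right; exact ⟨x, val_old x hx, by rw [nu_old x hx, hxv]⟩
      · right
        obtain ⟨k, hk, rfl⟩ := Finset.mem_image.1 hv
        rw [Finset.mem_Ico] at hk
        refine ⟨.inr (N, k), (vr _ _).2 (Or.inr ⟨rfl, hk.2⟩), ?_⟩
        simp only [hD', attachDat]
        rw [if_pos trivial, if_neg (by omega)]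
    · have hdisj : Disjoint A ((Finset.Ico 1 f.length).image (fun k => K + k)) := by
        rw [Finset.disjoint_left]
        intro a ha hb
        obtain ⟨k, _, rfl⟩ := Finset.mem_image.1 hb
        have := hK _ ha
        omega
      rw [Finset.card_union_of_disjoint hdisj, Finset.card_image_of_injective _
        (fun a b hab => by simpa using hab), Nat.card_Ico]
      rw [Finset.sum_range_succ, fwN]
      have e : ∑ j ∈ Finset.range N, (D'.fw j).length = ∑ j ∈ Finset.range N, (D.fw j).length := by
        apply Finset.sum_congr rfl
        intro j hj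
        rw [fwj j (Finset.mem_range.1 hj)]
      rw [e]
      have e2 : D'.O.length = D.O.length + f.length := by
        show (O₁ ++ ((List.range f.length).map (fun t => M + t) ++ O₂)).length = _
        rw [hO]
        simp only [List.length_append, List.length_map, List.length_range]
        omega
      rw [e2]
      omega
  · -- universality
    intro σ hσ
    have h1 := h.univ σ (by
      intro x hx
      have := hσ x (val_old x hx)
      rwa [al_old x hx] at this)
    have h2 : CPn (fun j => (fprod σ j (D'.fw j).length)⁻¹) N
        ((O₁.map (fun i => σ (.inl i))).prod * (O₂.map (fun i => σ (.inl i))).prod) := by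
      rw [← List.prod_append, ← List.map_append, ← hO]
      apply h1.congr
      intro j hj
      rw [fwj j hj]
    have h3 := CPn.succ _ _ h2
    have e : ((D'.O.map (fun i => σ (.inl i))).prod) =
        (O₁.map (fun i => σ (.inl i))).prod * (fprod σ N (D'.fw N).length)⁻¹ *
          (O₂.map (fun i => σ (.inl i))).prod := by
      show ((O₁ ++ ((List.range f.length).map (fun t => M + t) ++ O₂)).map
        (fun i => σ (.inl i))).prod = _
      rw [List.map_append, List.map_append, List.prod_append, List.prod_append, mul_assoc, fwN]
      congr 2
      unfold fprod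
      rw [← prod_rev_inv, List.map_map]
      congr 1
      apply List.map_congr_left
      intro t ht
      have ht' : t < f.length := List.mem_range.1 ht
      simp only [Function.comp]
      have := hσ (.inr (N, f.length - 1 - t)) ((vr _ _).2 (Or.inr ⟨rfl, by omega⟩))
      rw [al_newr] at this
      have e : M + (f.length - 1 - (f.length - 1 - t)) = M + t := by omega
      rw [e] at this
      exact this
    rw [e]
    exact h3

end Pool.Agent.MPcf54d7
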