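import Pool.Agent.Lib.MP_cf54d7_al.Pot

set_option autoImplicit false

namespace Pool.Agent.MPcf54d7

/-- value at code `c` of the potential encoded by the base 16 digits of `F` -/
def pv (F c : ℕ) : ℕ := F / 16 ^ c % 16

/-- all edges except the one at position `p` are 1-Lipschitz for the potential `F` -/
def chkIn (F p : ℕ) : ℕ → List (ℕ × ℕ × ℕ) → Bool
  | _, [] => true
  | k, e :: l => (Nat.beq k p || (Nat.ble (pv F e.2.1) (pv F e.1 + e.2.2) &&
      Nat.ble (pv F e.1) (pv F e.2.1 + e.2.2))) && chkIn F p (k + 1) l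

def chkOut (E : List (ℕ × ℕ × ℕ)) (K : ℕ) : ℕ → List (ℕ × ℕ × ℕ) → List ℕ → Bool
  | _, [], _ => true
  | _, _ :: _, [] => false
  | p, e :: l, F :: Fs => Nat.ble (2 * K + pv F e.2.1) (pv F e.1 + e.2.2) && chkIn F p 0 E &&
      chkOut E K (p + 1) l Fs

lemma chkIn_sound (F p : ℕ) (l : List (ℕ × ℕ × ℕ)) : ∀ k, chkIn F p k l = true →
    ∀ m (hm : m < l.length), k + m ≠ p →
      pv F l[m].2.1 ≤ pv F l[m].1 + l[m].2.2 ∧ pv F l[m].1 ≤ pv F l[m].2.1 + l[m].2.2 := by
  induction l with
  | nil => intro k _ m hm; simp at hm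
  | cons e l ih =>
    intro k h m hm hne
    rw [chkIn, Bool.and_eq_true] at h
    obtain ⟨h1, h2⟩ := h
    cases m with
    | zero =>
      rw [Bool.or_eq_true] at h1
      rcases h1 with h1 | h1
      · exact absurd (Nat.eq_of_beq_eq_true h1) hne
      · rw [Bool.and_eq_true] at h1
        exact ⟨Nat.le_of_ble_eq_true h1.1, Nat.le_of_ble_eq_true h1.2⟩
    | succ m =>
      exact ih (k + 1) h2 m (by simpa using hm) (by omega)

lemma chkOut_sound (E : List (ℕ × ℕ × ℕ)) (K : ℕ) (l : List (ℕ × ℕ × ℕ)) :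
    ∀ p Fs, chkOut E K p l Fs = true → ∀ m (hm : m < l.length),
      ∃ F, 2 * K + pv F l[m].2.1 ≤ pv F l[m].1 + l[m].2.2 ∧ chkIn F (p + m) 0 E = true := by
  induction l with
  | nil => intro p Fs _ m hm; simp at hm
  | cons e l ih =>
    intro p Fs h m hm
    cases Fs with
    | nil => simp [chkOut] at h
    | cons F Fs =>
      rw [chkOut, Bool.and_eq_true, Bool.and_eq_true] at h
      obtain ⟨⟨h1, h2⟩, h3⟩ := h
      cases m with
      | zero => exact ⟨F, Nat.le_of_ble_eq_true h1, h2⟩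
      | succ m =>
        obtain ⟨F', h4, h5⟩ := ih (p + 1) Fs h3 m (by simpa using hm)
        refine ⟨F', h4, ?_⟩
        have : p + (m + 1) = p + 1 + m := by omega
        rw [this]
        exact h5

/-- code of a letter -/
def cd (x : ℕ × Bool) : ℕ := 2 * x.1 + (if x.2 then 1 else 0)

variable {ι : Type*}

/-- list of the corners -/
def Pres.cl (P : Pres ℕ ι) (L : List ι) : List (ι × ℕ) :=
  L.flatMap (fun i => (List.range (P.ln i)).map (fun κ => (i, κ)))

/-- the coded edge of a corner -/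
def Pres.edge (P : Pres ℕ ι) (c : ι × ℕ) : ℕ × ℕ × ℕ :=
  (cd (P.ctail (c.1, c.2, true)), cd (P.chead (c.1, c.2, true)), P.th c.1 c.2)

theorem Pres.VC_of_chk (P : Pres ℕ ι) (L : List ι) (hL : ∀ i, P.ok i → i ∈ L)
    (E : List (ℕ × ℕ × ℕ)) (hE : (P.cl L).map P.edge = E) (K : ℕ) (pots : List ℕ)
    (h : chkOut E K 0 E pots = true) : P.VC K := by
  apply P.VC_of_pot K
  intro i κ hi hκ
  have hmem : ∀ i κ, P.ok i → κ < P.ln i → ∃ m, ∃ hm : m < (P.cl L).length,
      (P.cl L)[m] = (i, κ) := by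
    intro i κ hi hκ
    have : (i, κ) ∈ P.cl L := by
      rw [Pres.cl, List.mem_flatMap]
      exact ⟨i, hL i hi, List.mem_map.2 ⟨κ, List.mem_range.2 hκ, rfl⟩⟩
    exact List.getElem_of_mem this
  have hlen : E.length = (P.cl L).length := by rw [← hE, List.length_map]
  have hget : ∀ m (hm : m < (P.cl L).length), E[m]'(by omega) = P.edge (P.cl L)[m] := by
    intro m hm
    subst hE
    rw [List.getElem_map]
  obtain ⟨m, hm, hmi⟩ := hmem i κ hi hκ
  obtain ⟨F, h1, h2⟩ := chkOut_sound E K E 0 pots h m (by omega)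
  rw [hget m hm, hmi] at h1
  refine ⟨fun x => (pv F (cd x) : ℤ), ?_, ?_⟩
  · intro i' κ' hi' hκ' hne
    obtain ⟨m', hm', hmi'⟩ := hmem i' κ' hi' hκ'
    have h3 := chkIn_sound F (0 + m) E 0 h2 m' (by omega) (by
      intro hcon
      have : m' = m := by omega
      subst this
      rw [hmi] at hmi'
      exact hne hmi'.symm)
    rw [hget m' hm', hmi'] at h3
    simp only [Pres.edge] at h3
    constructor
    · have := h3.1
      push_cast [← Int.ofNat_le] at this ⊢
      linarith
    · have := h3.2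
      push_cast [← Int.ofNat_le] at this ⊢
      linarith
  · simp only [Pres.edge] at h1
    have := h1
    push_cast [← Int.ofNat_le] at this ⊢
    linarith

end Pool.Agent.MPcf54d7
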