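import Pool.Agent.Lib.MP_cf54d7_al.Fam

set_option autoImplicit false

namespace Pool.Agent.MPcf54d7

/-- collapse of generators at level `g` -/
def cg (g x : ℕ) : ℕ := if 2 * g + 2 ≤ x then x - 2 else x

/-- collapse of levels at level `g` -/
def ck (g k : ℕ) : ℕ := if k < g then k else k - 1

/-- collapse of letters at level `g` -/
def fl (g : ℕ) (x : ℕ × Bool) : ℕ × Bool := (cg g x.1, x.2)

/-- collapse of relator indices at level `g` -/
def fi (g : ℕ) : RI → RI
  | .SU k => .SU (ck g k)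
  | .SV k => .SV (ck g k)
  | .T => .T
  | .S0 => .S0
  | .LU => .LU
  | .LV => .LV
  | .TU => .TU
  | .TV => .TV

/-- collapse of positions -/
def fk : RI → ℕ → ℕ
  | .LU, κ => if κ ≤ 2 then κ else κ - 1
  | .LV, κ => if κ ≤ 5 then κ else κ - 1
  | .SU _, κ => κ
  | .SV _, κ => κ
  | .T, κ => κ
  | .S0, κ => κ
  | .TU, κ => κ
  | .TV, κ => κ

lemma fl_mk (g x : ℕ) (s : Bool) : fl g (x, s) = (cg g x, s) := rfl

lemma fl_s3 (g : ℕ) (a b c : ℕ × Bool) (κ : ℕ) :
    fl g (s3 a b c κ) = s3 (fl g a) (fl g b) (fl g c) κ := by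
  unfold s3; split_ifs <;> rfl

lemma fl_s4 (g : ℕ) (a b c d : ℕ × Bool) (κ : ℕ) :
    fl g (s4 a b c d κ) = s4 (fl g a) (fl g b) (fl g c) (fl g d) κ := by
  unfold s4; split_ifs <;> rfl

section
variable {m g : ℕ}

lemma cg_small (hg : 2 ≤ g) (x : ℕ) (hx : x ≤ 3) : cg g x = x := by
  unfold cg; split_ifs <;> omega

lemma cg_ug (hg : 2 ≤ g) (k : ℕ) (hk : 1 ≤ k) (hkg : k ≠ g) : cg g (ug k) = ug (ck g k) := by
  unfold cg ug ck; split_ifs <;> omega

lemma cg_ug' (hg : 2 ≤ g) (k : ℕ) (hk : 1 ≤ k) :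
    cg g (ug (k + 1)) = ug (ck g k + 1) := by
  unfold cg ug ck; split_ifs <;> omega

lemma cg_vg (k : ℕ) (hk : 1 ≤ k) (hkg : k ≠ g) : cg g (vg k) = vg (ck g k) := by
  unfold cg vg ck; split_ifs <;> omega

lemma cg_vg' (k : ℕ) (hk : 1 ≤ k) :
    cg g (vg (k + 1)) = vg (ck g k + 1) := by
  unfold cg vg ck; split_ifs <;> omega

lemma cg_top_u (hg : 2 ≤ g) (k : ℕ) (hkg : g + 1 ≤ k) : cg g (ug k) = ug (k - 1) := by
  unfold cg ug; split_ifs <;> omega

lemma cg_top_v (k : ℕ) (hkg : g + 1 ≤ k) : cg g (vg k) = vg (k - 1) := by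
  unfold cg vg; split_ifs <;> omega

lemma fok_col (hg : 2 ≤ g) (hg' : g + 2 ≤ m) (i : RI) (hok : fok (m + 1) i) (h1 : i ≠ .SU g)
    (h2 : i ≠ .SV g) : fok m (fi g i) := by
  cases i with
  | SU k =>
    have : k ≠ g := fun h => h1 (by rw [h])
    simp only [fi, fok, ck] at hok ⊢
    split_ifs <;> omega
  | SV k =>
    have : k ≠ g := fun h => h2 (by rw [h])
    simp only [fi, fok, ck] at hok ⊢
    split_ifs <;> omega
  | _ => simp only [fi, fok]

lemma fk_col (hm : 7 ≤ m) (i : RI) (κ : ℕ) (hκ : κ < fln (m + 1) i) :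
    fk i κ < fln m (fi g i) := by
  cases i <;> simp only [fk, fln, fi] at hκ ⊢ <;> first | omega | (split_ifs <;> omega)

lemma flt_col (hm : 7 ≤ m) (hg : 2 ≤ g) (hg' : g + 2 ≤ m) (i : RI) (κ : ℕ)
    (hok : fok (m + 1) i) (h1 : i ≠ .SU g) (h2 : i ≠ .SV g) :
    flt m (fi g i) (fk i κ) = fl g (flt (m + 1) i κ) := by
  have c0 := cg_small hg 0 (by norm_num)
  have c1 := cg_small hg 1 (by norm_num)
  have c2 := cg_small hg 2 (by norm_num)
  have c3 := cg_small hg 3 (by norm_num)
  have e1 : cg g (ug m) = ug (m - 1) := cg_top_u hg m (by omega)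
  have e2 : cg g (ug (m - 1)) = ug (m - 2) := by
    rw [cg_top_u hg (m - 1) (by omega)]; congr 1
  have e3 : cg g (vg m) = vg (m - 1) := cg_top_v m (by omega)
  have e4 : cg g (vg (m - 1)) = vg (m - 2) := by
    rw [cg_top_v (m - 1) (by omega)]; congr 1
  have e5 : m + 1 - 1 = m := by omega
  have e6 : m + 1 - 2 = m - 1 := by omega
  cases i with
  | SU k =>
    have hk : k ≠ g := fun h => h1 (by rw [h])
    simp only [fok] at hok
    simp only [fi, fk, flt, fl_s4, fl_mk, c1, cg_ug hg k hok.1 hk, cg_ug' hg k hok.1]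
  | SV k =>
    have hk : k ≠ g := fun h => h2 (by rw [h])
    simp only [fok] at hok
    simp only [fi, fk, flt, fl_s4, fl_mk, c2, cg_vg k hok.1 hk, cg_vg' k hok.1]
  | T => simp only [fi, fk, flt, fl_s3, fl_mk, c0, c1, c2]
  | S0 => simp only [fi, fk, flt, fl_s4, fl_mk, c0, c1, c2, c3]
  | TU => simp only [fi, fk, flt, fl_s4, fl_mk, c0, c1, e5, e1]
  | TV => simp only [fi, fk, flt, fl_s4, fl_mk, c0, c2, e5, e3]
  | LU =>
    simp only [fi, fk, flt, e5, e6]
    rcases Nat.eq_zero_or_pos κ with h | h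
    · subst h; simp only [Nat.zero_le, if_true, fl_mk, e1]
    · rcases Nat.lt_or_ge κ (m + 1) with h3 | h3
      · rw [if_neg (by split_ifs <;> omega), if_pos (by split_ifs <;> omega),
          if_neg (by omega), if_pos h3, fl_mk, c1]
      · rw [if_neg (show ¬ κ ≤ 2 by omega), if_neg (by omega), if_neg (by omega),
          if_neg (by omega : ¬ κ = 0), if_neg (by omega : ¬ κ < m + 1)]
        rcases Nat.lt_or_ge κ (m + 2) with h4 | h4
        · rw [if_pos (by omega), if_pos (by omega), fl_mk, e2]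
        · rw [if_neg (by omega), if_neg (by omega : ¬ κ = m + 1)]
          rcases Nat.lt_or_ge κ (m + 3) with h5 | h5
          · rw [if_pos (by omega), if_pos (by omega), fl_mk, c1]
          · rw [if_neg (by omega), if_neg (by omega), fl_mk, e2]
  | LV =>
    simp only [fi, fk, flt, e5, e6]
    rcases Nat.lt_or_ge 5 κ with h | h
    · rw [if_neg (by omega : ¬ κ ≤ 5), if_neg (by omega), if_neg (by omega), if_neg (by omega),
        if_neg (by omega), if_neg (by omega), if_neg (by omega), if_neg (by omega),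
        if_neg (by omega), fl_mk, c2]
    · rw [if_pos h]
      split_ifs <;> simp only [fl_mk, c2, e3, e4]

/-- predecessor of a position -/
def pr (L κ : ℕ) : ℕ := if κ = 0 then L - 1 else κ - 1

lemma flt_pr (hm : 7 ≤ m) (hg : 2 ≤ g) (hg' : g + 2 ≤ m) (i : RI) (κ : ℕ)
    (hok : fok (m + 1) i) (hκ : κ < fln (m + 1) i) (h1 : i ≠ .SU g) (h2 : i ≠ .SV g) :
    flt m (fi g i) (pr (fln m (fi g i)) (fk i κ)) = fl g (flt (m + 1) i (pr (fln (m + 1) i) κ)) := by
  rw [← flt_col hm hg hg' i _ hok h1 h2]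
  cases i with
  | LU =>
    simp only [fln] at hκ
    by_cases h : κ = 3
    · subst h
      have a1 : pr (fln m (fi g .LU)) (fk .LU 3) = 1 := rfl
      have a2 : fk .LU (pr (fln (m + 1) .LU) 3) = 2 := rfl
      rw [a1, a2]
      simp only [fi, flt]
      rw [if_neg (by omega), if_pos (by omega), if_neg (by omega), if_pos (by omega)]
    · have a1 : pr (fln m (fi g .LU)) (fk .LU κ) = fk .LU (pr (fln (m + 1) .LU) κ) := by
        simp only [fi, fln, fk, pr]
        by_cases h0 : κ = 0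
        · subst h0; simp
        · by_cases h3 : κ ≤ 2
          · rw [if_pos h3, if_neg h0, if_neg h0, if_pos (by omega)]
          · rw [if_neg h3, if_neg (by omega), if_neg h0, if_neg (by omega)]
      rw [a1]
  | LV =>
    simp only [fln] at hκ
    by_cases h : κ = 6
    · subst h
      have a1 : pr (fln m (fi g .LV)) (fk .LV 6) = 4 := rfl
      have a2 : fk .LV (pr (fln (m + 1) .LV) 6) = 5 := rfl
      rw [a1, a2]
      rfl
    · have a1 : pr (fln m (fi g .LV)) (fk .LV κ) = fk .LV (pr (fln (m + 1) .LV) κ) := by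
        simp only [fi, fln, fk, pr]
        by_cases h0 : κ = 0
        · subst h0
          rw [if_pos (Nat.zero_le 5), if_pos rfl, if_pos rfl, if_neg (by omega)]
          omega
        · by_cases h3 : κ ≤ 5
          · rw [if_pos h3, if_neg h0, if_neg h0, if_pos (by omega)]
          · rw [if_neg h3, if_neg (by omega), if_neg h0, if_neg (by omega)]
      rw [a1]
  | _ => rfl

lemma fth_col (hm : 7 ≤ m) (hg : 2 ≤ g) (i : RI) (κ : ℕ)
    (hok : fok (m + 1) i) (h1 : i ≠ .SU g) (h2 : i ≠ .SV g) :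
    fth m (fi g i) (fk i κ) = fth (m + 1) i κ := by
  cases i with
  | SU k =>
    have hk : k ≠ g := fun h => h1 (by rw [h])
    simp only [fok] at hok
    have : (ck g k = 1) ↔ (k = 1) := by unfold ck; split_ifs <;> omega
    simp only [fi, fk, fth, this]
  | SV k =>
    have hk : k ≠ g := fun h => h2 (by rw [h])
    simp only [fok] at hok
    have : (ck g k = 1) ↔ (k = 1) := by unfold ck; split_ifs <;> omega
    simp only [fi, fk, fth, this]
  | LU =>
    simp only [fi, fk, fth]
    by_cases h3 : κ ≤ 2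
    · rw [if_pos h3]
      by_cases h4 : κ ≤ 1
      · rw [if_pos h4, if_pos h4]
      · rw [if_neg h4, if_neg h4, if_pos (by omega), if_pos (by omega)]
    · rw [if_neg h3, if_neg (by omega), if_neg (by omega : ¬ κ ≤ 1)]
      by_cases h4 : κ < m + 1
      · rw [if_pos (by omega), if_pos h4]
      · rw [if_neg (by omega), if_neg h4]
  | LV =>
    simp only [fi, fk, fth]
    by_cases h3 : κ ≤ 5
    · rw [if_pos h3]
    · rw [if_neg h3, if_neg (by omega), if_neg (by omega), if_neg (by omega), if_neg (by omega),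
        if_neg (by omega), if_neg (by omega)]
  | _ => rfl

/-- if two corners are identified by the collapse, then both have weight `4` -/
lemma heavy_col (hm : 7 ≤ m) (i i' : RI) (κ κ' : ℕ)
    (h1 : i ≠ .SU g) (h2 : i ≠ .SV g) (h1' : i' ≠ .SU g) (h2' : i' ≠ .SV g)
    (hfi : fi g i' = fi g i) (hfk : fk i' κ' = fk i κ) (hne : ¬ (i' = i ∧ κ' = κ)) :
    fth (m + 1) i κ = 4 ∧ fth (m + 1) i' κ' = 4 := by
  have hii : i' = i := by
    cases i with
    | SU k =>
      have hk : k ≠ g := fun h => h1 (by rw [h])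
      cases i' with
      | SU k' =>
        have hk' : k' ≠ g := fun h => h1' (by rw [h])
        simp only [fi, ck, RI.SU.injEq] at hfi ⊢
        split_ifs at hfi <;> omega
      | _ => simp [fi] at hfi
    | SV k =>
      have hk : k ≠ g := fun h => h2 (by rw [h])
      cases i' with
      | SV k' =>
        have hk' : k' ≠ g := fun h => h2' (by rw [h])
        simp only [fi, ck, RI.SV.injEq] at hfi ⊢
        split_ifs at hfi <;> omega
      | _ => simp [fi] at hfi
    | _ => cases i' <;> first | rfl | simp [fi] at hfi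
  subst hii
  have hκ : κ' ≠ κ := fun h => hne ⟨rfl, h⟩
  cases i' with
  | LU =>
    simp only [fk] at hfk
    have : (κ = 2 ∧ κ' = 3) ∨ (κ = 3 ∧ κ' = 2) := by
      split_ifs at hfk <;> omega
    simp only [fth]
    rcases this with ⟨rfl, rfl⟩ | ⟨rfl, rfl⟩
    · rw [if_neg (by omega), if_pos (by omega), if_neg (by omega), if_pos (by omega)]
      exact ⟨rfl, rfl⟩
    · rw [if_neg (by omega), if_pos (by omega), if_neg (by omega), if_pos (by omega)]
      exact ⟨rfl, rfl⟩
  | LV =>
    simp only [fk] at hfk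
    have : (κ = 5 ∧ κ' = 6) ∨ (κ = 6 ∧ κ' = 5) := by
      split_ifs at hfk <;> omega
    rcases this with ⟨rfl, rfl⟩ | ⟨rfl, rfl⟩ <;> exact ⟨rfl, rfl⟩
  | _ => exact absurd hfk hκ

lemma ctail_col (hm : 7 ≤ m) (hg : 2 ≤ g) (hg' : g + 2 ≤ m) (i : RI) (κ : ℕ) (ε : Bool)
    (hok : fok (m + 1) i) (hκ : κ < fln (m + 1) i) (h1 : i ≠ .SU g) (h2 : i ≠ .SV g) :
    (fam m).ctail (fi g i, fk i κ, ε) = fl g ((fam (m + 1)).ctail (i, κ, ε)) := by
  have hk := fk_col (g := g) hm i κ hκ
  have e1 : (fk i κ + fln m (fi g i) - 1) % fln m (fi g i) = pr (fln m (fi g i)) (fk i κ) :=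
    mod_pred hk
  have e2 : (κ + fln (m + 1) i - 1) % fln (m + 1) i = pr (fln (m + 1) i) κ := mod_pred hκ
  cases ε
  · exact flt_col hm hg hg' i κ hok h1 h2
  · show li (flt m (fi g i) ((fk i κ + fln m (fi g i) - 1) % fln m (fi g i))) =
      fl g (li (flt (m + 1) i ((κ + fln (m + 1) i - 1) % fln (m + 1) i)))
    rw [e1, e2, flt_pr hm hg hg' i κ hok hκ h1 h2]
    rfl

lemma chead_col (hm : 7 ≤ m) (hg : 2 ≤ g) (hg' : g + 2 ≤ m) (i : RI) (κ : ℕ) (ε : Bool)
    (hok : fok (m + 1) i) (hκ : κ < fln (m + 1) i) (h1 : i ≠ .SU g) (h2 : i ≠ .SV g) :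
    (fam m).chead (fi g i, fk i κ, ε) = fl g ((fam (m + 1)).chead (i, κ, ε)) := by
  have h := ctail_col hm hg hg' i κ (!ε) hok hκ h1 h2
  cases ε
  · rw [Pres.chead_false, Pres.chead_false]; exact h
  · simp only [Bool.not_true] at h
    rw [Pres.ctail_false, Pres.ctail_false] at h
    exact h

end

/-- level of a relator index -/
def lev : RI → ℕ
  | .SU k => k
  | .SV k => k
  | _ => 0

theorem fam_VC_step (m : ℕ) (hm : 7 ≤ m) (ih : (fam m).VC 4) : (fam (m + 1)).VC 4 := by
  intro c q hq hper hcok hnode hred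
  by_contra hlt
  rw [not_le] at hlt
  have hmod : ∀ t, c (t % q) = c t := by
    intro t
    have hmul : ∀ k s, c (s + q * k) = c s := by
      intro k
      induction k with
      | zero => intro s; rfl
      | succ k ihk =>
        intro s
        have : s + q * (k + 1) = (s + q * k) + q := by ring
        rw [this, hper, ihk]
    conv_rhs => rw [← Nat.mod_add_div t q]
    rw [hmul]
  -- an unused level
  have hg : ∃ g, 2 ≤ g ∧ g + 2 ≤ m ∧ ∀ t, (c t).1 ≠ .SU g ∧ (c t).1 ≠ .SV g := by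
    by_contra hcon
    push Not at hcon
    have h1 : ∀ j, j < 4 → ∃ t, t < q ∧ lev (c t).1 = j + 2 ∧
        (fam (m + 1)).th (c t).1 (c t).2.1 = 2 := by
      intro j hj
      obtain ⟨t, ht⟩ := hcon (j + 2) (by omega) (by omega)
      refine ⟨t % q, Nat.mod_lt _ hq, ?_, ?_⟩
      · rw [hmod]
        by_cases h : (c t).1 = .SU (j + 2)
        · rw [h]; rfl
        · rw [ht h]; rfl
      · rw [hmod]
        by_cases h : (c t).1 = .SU (j + 2)
        · rw [h]; simp only [fam, fth]
          rw [if_neg (by omega)]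
        · rw [ht h]; simp only [fam, fth]
          rw [if_neg (by omega)]
    choose! τ hτ1 hτ2 hτ3 using h1
    have h2 : ∑ t ∈ (Finset.range 4).image τ, (fam (m + 1)).th (c t).1 (c t).2.1 = 8 := by
      rw [Finset.sum_image]
      · rw [Finset.sum_congr rfl (fun j hj => hτ3 j (Finset.mem_range.1 hj))]
        simp
      · intro a ha b hb hab
        simp only [Finset.coe_range, Set.mem_Iio] at ha hb
        have e1 := hτ2 a ha
        have e2 := hτ2 b hb
        have : τ a = τ b := hab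
        rw [this, e2] at e1
        omega
    have h3 : ∑ t ∈ (Finset.range 4).image τ, (fam (m + 1)).th (c t).1 (c t).2.1 ≤
        ∑ t ∈ Finset.range q, (fam (m + 1)).th (c t).1 (c t).2.1 := by
      apply Finset.sum_le_sum_of_subset
      intro t ht
      rw [Finset.mem_image] at ht
      obtain ⟨j, hj, rfl⟩ := ht
      exact Finset.mem_range.2 (hτ1 j (Finset.mem_range.1 hj))
    omega
  obtain ⟨g, hg2, hgm, hgt⟩ := hg
  have hmain := ih (fun t => (fi g (c t).1, fk (c t).1 (c t).2.1, (c t).2.2)) q hq ?_ ?_ ?_ ?_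
  · have e : ∑ t ∈ Finset.range q, (fam m).th (fi g (c t).1) (fk (c t).1 (c t).2.1) =
        ∑ t ∈ Finset.range q, (fam (m + 1)).th (c t).1 (c t).2.1 := by
      apply Finset.sum_congr rfl
      intro t _
      exact fth_col hm hg2 _ _ (hcok t).1 (hgt t).1 (hgt t).2
    have e2 : 2 * 4 ≤ ∑ t ∈ Finset.range q, (fam m).th (fi g (c t).1) (fk (c t).1 (c t).2.1) :=
      hmain
    omega
  · intro t
    simp only [hper]
  · intro t
    exact ⟨fok_col hg2 hgm _ (hcok t).1 (hgt t).1 (hgt t).2, fk_col hm _ _ (hcok t).2⟩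
  · intro t
    have a1 := chead_col hm hg2 hgm (c t).1 (c t).2.1 (c t).2.2 (hcok t).1 (hcok t).2
      (hgt t).1 (hgt t).2
    have a2 := ctail_col hm hg2 hgm (c (t + 1)).1 (c (t + 1)).2.1 (c (t + 1)).2.2
      (hcok (t + 1)).1 (hcok (t + 1)).2 (hgt (t + 1)).1 (hgt (t + 1)).2
    have a3 := hnode t
    simp only [Prod.mk.eta] at a1 a2
    rw [a1, a2, a3]
  · intro t hcon
    simp only [cflip, Prod.mk.injEq] at hcon
    obtain ⟨b1, b2, b3⟩ := hcon
    have hq1 : q ≠ 1 := by
      intro hq1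
      have : c (t + 1) = c t := by
        have := hper t
        rwa [hq1] at this
      rw [this] at b3
      cases h : (c t).2.2 <;> simp [h] at b3
    have hne : ¬ ((c (t + 1)).1 = (c t).1 ∧ (c (t + 1)).2.1 = (c t).2.1) := by
      rintro ⟨b4, b5⟩
      apply hred t
      rw [Prod.ext_iff, Prod.ext_iff]
      exact ⟨b4, b5, b3⟩
    have hh := heavy_col (g := g) hm (c t).1 (c (t + 1)).1 (c t).2.1 (c (t + 1)).2.1
      (hgt t).1 (hgt t).2 (hgt (t + 1)).1 (hgt (t + 1)).2 b1 b2 hne
    have hlt1 : t % q < q := Nat.mod_lt _ hq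
    have hlt2 : (t + 1) % q < q := Nat.mod_lt _ hq
    have hne2 : t % q ≠ (t + 1) % q := by
      intro h
      have : (t + 1) % q = (t % q + 1) % q := by
        rw [Nat.mod_add_mod]
      rw [this, mod_succ hlt1] at h
      split_ifs at h <;> omega
    have hsum : ∑ s ∈ ({t % q, (t + 1) % q} : Finset ℕ), (fam (m + 1)).th (c s).1 (c s).2.1 ≤
        ∑ s ∈ Finset.range q, (fam (m + 1)).th (c s).1 (c s).2.1 := by
      apply Finset.sum_le_sum_of_subset
      intro s hs
      rw [Finset.mem_insert, Finset.mem_singleton] at hs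
      rw [Finset.mem_range]
      rcases hs with rfl | rfl
      · exact hlt1
      · exact hlt2
    rw [Finset.sum_pair hne2, hmod, hmod] at hsum
    have c1 : (fam (m + 1)).th (c t).1 (c t).2.1 = 4 := hh.1
    have c2 : (fam (m + 1)).th (c (t + 1)).1 (c (t + 1)).2.1 = 4 := hh.2
    omega

theorem fam_VC (n : ℕ) (hn : 5 ≤ n) : (fam n).VC 4 := by
  rcases Nat.lt_or_ge n 7 with h | h
  · rcases Nat.lt_or_ge n 6 with h' | h'
    · have : n = 5 := by omega
      subst this; exact fam_VC_5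
    · have : n = 6 := by omega
      subst this; exact fam_VC_6
  · induction n, h using Nat.le_induction with
    | base => exact fam_VC_7
    | succ m hm ih => exact fam_VC_step m hm (ih (by omega))

end Pool.Agent.MPcf54d7
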