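import Pool.Agent.Lib.MP_cf54d7_al.Area

set_option autoImplicit false

namespace Pool.Agent.MPcf54d7

open FreeGroup

/-- darts: outer darts `inl i`, and the `k`-th dart of the `j`-th inner face `inr (j, k)` -/
abbrev Dart := ℕ ⊕ (ℕ × ℕ)

/-- inverse letter -/
def li {α : Type*} (x : α × Bool) : α × Bool := (x.1, !x.2)

@[simp] lemma li_li {α : Type*} (x : α × Bool) : li (li x) = x := by simp [li]

/-- `Path nu al l s t`: the list of outer darts `l` is an edge path from vertex `s` to `t`. -/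
def Path (nu : Dart → ℕ) (al : Dart → Dart) : List ℕ → ℕ → ℕ → Prop
  | [], s, t => s = t
  | i :: l, s, t => nu (Sum.inl i) = s ∧ Path nu al l (nu (al (Sum.inl i))) t

lemma path_append {nu : Dart → ℕ} {al : Dart → Dart} (l₁ l₂ : List ℕ) (s t : ℕ) :
    Path nu al (l₁ ++ l₂) s t ↔ ∃ m, Path nu al l₁ s m ∧ Path nu al l₂ m t := by
  induction l₁ generalizing s with
  | nil => simp [Path]
  | cons i l ih =>
    simp only [List.cons_append, Path, ih]
    constructor
    · rintro ⟨h1, m, h2, h3⟩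
      exact ⟨m, ⟨h1, h2⟩, h3⟩
    · rintro ⟨m, ⟨h1, h2⟩, h3⟩
      exact ⟨h1, m, h2, h3⟩

lemma path_map {nu nu' : Dart → ℕ} {al al' : Dart → Dart} (g : ℕ → ℕ) (l : List ℕ) (s t : ℕ)
    (h1 : ∀ i ∈ l, nu' (Sum.inl i) = g (nu (Sum.inl i)))
    (h2 : ∀ i ∈ l, nu' (al' (Sum.inl i)) = g (nu (al (Sum.inl i))))
    (h : Path nu al l s t) : Path nu' al' l (g s) (g t) := by
  induction l generalizing s with
  | nil => simp only [Path] at h ⊢; rw [h]
  | cons i l ih =>
    simp only [Path] at h ⊢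
    refine ⟨?_, ?_⟩
    · rw [h1 i (by simp), h.1]
    · rw [h2 i (by simp)]
      exact ih _ (fun j hj => h1 j (by simp [hj])) (fun j hj => h2 j (by simp [hj])) h.2

lemma path_head {nu : Dart → ℕ} {al : Dart → Dart} {l : List ℕ} {s t : ℕ}
    (h : Path nu al l s t) : (∃ i ∈ l, nu (Sum.inl i) = s) ∨ (l = [] ∧ s = t) := by
  cases l with
  | nil => right; exact ⟨rfl, h⟩
  | cons i l => left; exact ⟨i, by simp, h.1⟩

/-- combinatorial data of a diagram -/
structure Dat (α : Type*) where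
  fw : ℕ → List (α × Bool)
  O : List ℕ
  lo : ℕ → α × Bool
  al : Dart → Dart
  nu : Dart → ℕ
  s : ℕ

variable {α : Type*}

/-- the valid darts -/
def Dat.valid (D : Dat α) (N : ℕ) : Dart → Prop
  | .inl i => i ∈ D.O
  | .inr (j, k) => j < N ∧ k < (D.fw j).length

/-- the label of a dart -/
def Dat.lab (D : Dat α) : Dart → α × Bool
  | .inl i => D.lo i
  | .inr (j, k) => (D.fw j).getD k (D.lo 0)

/-- the word read around an inner face -/
def fprod {G : Type*} [Group G] (σ : Dart → G) (j len : ℕ) : G :=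
  ((List.range len).map (fun k => σ (.inr (j, k)))).prod

/-- `D` is a diagram over the set of words `RW` with boundary word `W` and `N` inner faces. -/
structure Good (RW : Set (List (α × Bool))) (W : List (α × Bool)) (N : ℕ) (D : Dat α) :
    Prop where
  hfw : ∀ j, j < N → D.fw j ∈ RW
  hlen : ∀ j, j < N → 0 < (D.fw j).length
  hO : D.O.Nodup
  hlo : D.O.map D.lo = W
  al_valid : ∀ x, D.valid N x → D.valid N (D.al x)
  al_al : ∀ x, D.valid N x → D.al (D.al x) = x
  al_ne : ∀ x, D.valid N x → D.al x ≠ x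
  al_lab : ∀ x, D.valid N x → D.lab (D.al x) = li (D.lab x)
  path : Path D.nu D.al D.O D.s D.s
  disc : ∀ j k, j < N → k < (D.fw j).length →
    D.nu (.inr (j, (k + 1) % (D.fw j).length)) = D.nu (D.al (.inr (j, k)))
  cnt : ∃ A : Finset ℕ, (∀ v ∈ A, v = D.s ∨ ∃ x, D.valid N x ∧ D.nu x = v) ∧
    D.O.length + ∑ j ∈ Finset.range N, (D.fw j).length + 2 ≤ 2 * A.card + 2 * N
  univ : ∀ σ : Dart → FreeGroup α, (∀ x, D.valid N x → σ (D.al x) = (σ x)⁻¹) →
    CPn (fun j => (fprod σ j (D.fw j).length)⁻¹) N ((D.O.map (fun i => σ (.inl i))).prod)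

lemma good_nil [Inhabited α] (RW : Set (List (α × Bool))) : ∃ D, Good RW ([] : List (α × Bool)) 0 D := by
  refine ⟨⟨fun _ => [], [], fun _ => default, id, fun _ => 0, 0⟩, ?_⟩
  constructor
  · intro j hj; omega
  · intro j hj; omega
  · simp
  · simp
  · rintro (i | ⟨j, k⟩) hx <;> simp [Dat.valid] at hx
  · rintro (i | ⟨j, k⟩) hx <;> simp [Dat.valid] at hx
  · rintro (i | ⟨j, k⟩) hx <;> simp [Dat.valid] at hx
  · rintro (i | ⟨j, k⟩) hx <;> simp [Dat.valid] at hx
  · simp [Path]
  · intro j k hj; omega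
  · exact ⟨{0}, by simp, by simp⟩
  · intro σ _
    simpa using CPn.zero

lemma exists_fresh (l : List ℕ) : ∃ M, ∀ i ∈ l, i < M := by
  induction l with
  | nil => exact ⟨0, by simp⟩
  | cons a l ih =>
    obtain ⟨M, hM⟩ := ih
    refine ⟨max M (a + 1), ?_⟩
    intro i hi
    simp only [List.mem_cons] at hi
    rcases hi with rfl | hi
    · exact lt_of_lt_of_le (Nat.lt_succ_self _) (le_max_right _ _)
    · exact lt_of_lt_of_le (hM i hi) (le_max_left _ _)

lemma exists_freshA (A : Finset ℕ) : ∃ M, ∀ i ∈ A, i < M := by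
  obtain ⟨M, hM⟩ := exists_fresh A.toList
  exact ⟨M, fun i hi => hM i (by simpa using hi)⟩

lemma prod_rev_inv {G : Type*} [Group G] (g : ℕ → G) (n : ℕ) :
    ((List.range n).map (fun t => (g (n - 1 - t))⁻¹)).prod = (((List.range n).map g).prod)⁻¹ := by
  rw [List.prod_inv_reverse]
  congr 1
  apply List.ext_getElem
  · simp
  · intro i h1 h2
    simp only [List.length_map, List.length_range] at h1
    simp only [List.getElem_map, List.getElem_range, List.getElem_reverse, List.length_map,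
      List.length_range]

lemma range_map_append {M : ℕ} {ln : ℕ} : ∀ i, i ∈ (List.range ln).map (fun t => M + t) ↔
    M ≤ i ∧ i < M + ln := by
  intro i
  simp only [List.mem_map, List.mem_range]
  constructor
  · rintro ⟨a, ha, rfl⟩
    omega
  · rintro ⟨h1, h2⟩
    exact ⟨i - M, by omega, by omega⟩

end Pool.Agent.MPcf54d7
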