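import Pool.Agent.Lib.MP_cf54d7_al.Dgm

set_option autoImplicit false

namespace Pool.Agent.MPcf54d7

open FreeGroup

variable {α : Type*}

/-- data of the diagram after folding the two outer darts `x`, `y` -/
def foldDat (D : Dat α) (O₁ O₂ : List ℕ) (x1 y1 : Dart) (g : ℕ → ℕ) : Dat α where
  fw := D.fw
  O := O₁ ++ O₂
  lo := D.lo
  al := fun z => if z = x1 then y1 else if z = y1 then x1 else D.al z
  nu := fun z => g (D.nu z)
  s := g D.s

theorem Good.fold {RW : Set (List (α × Bool))} {u v : List (α × Bool)} {N : ℕ} {D : Dat α}
    {a : α × Bool} (h : Good RW (u ++ (a :: li a :: v)) N D) :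
    ∃ D', Good RW (u ++ v) N D' := by
  obtain ⟨O₁, O₃, hO, hu, hv0⟩ := List.map_eq_append_iff.1 h.hlo
  obtain ⟨x, O₄, hO4, hxa, hv1⟩ := List.map_eq_cons_iff.1 hv0
  obtain ⟨y, O₂, hO5, hya, hv⟩ := List.map_eq_cons_iff.1 hv1
  subst hO5
  subst hO4
  obtain ⟨m, hp1, hp2⟩ := (path_append O₁ _ D.s D.s).1 (hO ▸ h.path)
  obtain ⟨hxm, hym, hp3⟩ := hp2
  obtain ⟨A, hA, hcnt⟩ := h.cnt
  have hn := h.hO
  rw [hO, List.nodup_append] at hn
  obtain ⟨n1, n2, n3⟩ := hn
  rw [List.nodup_cons, List.nodup_cons] at n2
  obtain ⟨n4, n5, n6⟩ := n2
  have hxy : x ≠ y := fun e => n4 (by simp [e])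
  have hx2 : x ∉ O₂ := fun e => n4 (by simp [e])
  have hx1 : x ∉ O₁ := fun e => n3 x e x (by simp) rfl
  have hy1 : y ∉ O₁ := fun e => n3 y e y (by simp) rfl
  have vx : D.valid N (.inl x) := show x ∈ D.O by rw [hO]; simp
  have vy : D.valid N (.inl y) := show y ∈ D.O by rw [hO]; simp
  set x1 := D.al (.inl x) with hx1d
  set y1 := D.al (.inl y) with hy1d
  have vx1 : D.valid N x1 := h.al_valid _ vx
  have vy1 : D.valid N y1 := h.al_valid _ vy
  have ax1 : D.al x1 = .inl x := h.al_al _ vx
  have ay1 : D.al y1 = .inl y := h.al_al _ vy
  have hx1y1 : x1 ≠ y1 := by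
    intro e
    rw [e, ay1] at ax1
    injection ax1 with e
    exact hxy e.symm
  set g : ℕ → ℕ := fun w => if w = D.nu y1 then m else w with hg
  have gm : g m = m := by simp only [hg]; split_ifs <;> rfl
  have gm' : g (D.nu y1) = m := by simp [hg]
  refine ⟨foldDat D O₁ O₂ x1 y1 g, ?_⟩
  set D' := foldDat D O₁ O₂ x1 y1 g with hD'
  have vl : ∀ i, D'.valid N (.inl i) ↔ (D.valid N (.inl i) ∧ i ≠ x ∧ i ≠ y) := by
    intro i
    simp only [hD', foldDat, Dat.valid, List.mem_append, List.mem_cons, hO]
    constructor
    · rintro (hi | hi)
      · exact ⟨Or.inl hi, fun e => hx1 (e ▸ hi), fun e => hy1 (e ▸ hi)⟩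
      · exact ⟨by simp [hi], fun e => hx2 (e ▸ hi), fun e => n5 (e ▸ hi)⟩
    · rintro ⟨h1, h2, h3⟩
      rcases h1 with h1 | h1 | h1 | h1
      · left; exact h1
      · exact absurd h1 h2
      · exact absurd h1 h3
      · right; exact h1
  have vr : ∀ j k, D'.valid N (.inr (j, k)) ↔ D.valid N (.inr (j, k)) := by
    intro j k
    simp only [hD', foldDat, Dat.valid]
  have vall : ∀ z, D'.valid N z ↔ (D.valid N z ∧ z ≠ .inl x ∧ z ≠ .inl y) := by
    rintro (i | ⟨j, k⟩)
    · rw [vl]
      simp
    · rw [vr]
      simp
  have alx1 : D'.al x1 = y1 := by simp [hD', foldDat]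
  have aly1 : D'.al y1 = x1 := by
    simp only [hD', foldDat]
    rw [if_neg (Ne.symm hx1y1)]
    simp
  have alo : ∀ z, z ≠ x1 → z ≠ y1 → D'.al z = D.al z := by
    intro z h1 h2
    simp only [hD', foldDat]
    rw [if_neg h1, if_neg h2]
  have nu' : ∀ z, D'.nu z = g (D.nu z) := fun z => rfl
  have lab' : ∀ z, D'.lab z = D.lab z := fun z => by
    rcases z with i | ⟨j, k⟩ <;> rfl
  have nuy : D.nu (.inl y) = D.nu x1 := hym
  have nual : ∀ z, D'.valid N z → D'.nu (D'.al z) = g (D.nu (D.al z)) := by
    intro z hz
    rw [nu']
    by_cases h1 : z = x1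
    · subst h1
      rw [alx1, ax1, hxm, gm, gm']
    · by_cases h2 : z = y1
      · subst h2
        rw [aly1, ay1, nuy]
      · rw [alo z h1 h2]
  have memO : ∀ i, i ∈ O₁ ∨ i ∈ O₂ → D'.valid N (.inl i) := by
    intro i hi
    show i ∈ O₁ ++ O₂
    exact List.mem_append.2 hi
  constructor
  · exact h.hfw
  · exact h.hlen
  · show (O₁ ++ O₂).Nodup
    rw [List.nodup_append]
    exact ⟨n1, n6, fun b hb c hc => n3 b hb c (by simp [hc])⟩
  · show (O₁ ++ O₂).map D.lo = _
    rw [List.map_append, hu, hv]
  · -- al_valid
    intro z hz
    rw [vall] at hz ⊢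
    obtain ⟨z1, z2, z3⟩ := hz
    by_cases h1 : z = x1
    · subst h1
      rw [alx1]
      refine ⟨vy1, ?_, h.al_ne _ vy⟩
      intro e
      apply z3
      rw [hx1d, ← e, ay1]
    · by_cases h2 : z = y1
      · subst h2
        rw [aly1]
        refine ⟨vx1, h.al_ne _ vx, ?_⟩
        intro e
        apply z2
        rw [hy1d, ← e, ax1]
      · rw [alo z h1 h2]
        refine ⟨h.al_valid z z1, ?_, ?_⟩
        · intro e
          apply h1
          rw [hx1d, ← e, h.al_al z z1]
        · intro e
          apply h2
          rw [hy1d, ← e, h.al_al z z1]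
  · -- al_al
    intro z hz
    rw [vall] at hz
    obtain ⟨z1, z2, z3⟩ := hz
    by_cases h1 : z = x1
    · subst h1
      rw [alx1, aly1]
    · by_cases h2 : z = y1
      · subst h2
        rw [aly1, alx1]
      · rw [alo z h1 h2, alo (D.al z), h.al_al z z1]
        · intro e
          apply z2
          rw [← h.al_al z z1, e, ax1]
        · intro e
          apply z3
          rw [← h.al_al z z1, e, ay1]
  · -- al_ne
    intro z hz
    rw [vall] at hz
    obtain ⟨z1, z2, z3⟩ := hz
    by_cases h1 : z = x1
    · subst h1
      rw [alx1]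
      exact Ne.symm hx1y1
    · by_cases h2 : z = y1
      · subst h2
        rw [aly1]
        exact hx1y1
      · rw [alo z h1 h2]
        exact h.al_ne z z1
  · -- al_lab
    intro z hz
    rw [vall] at hz
    obtain ⟨z1, z2, z3⟩ := hz
    have lx1 : D.lab x1 = li (D.lab (.inl x)) := h.al_lab _ vx
    have ly1 : D.lab y1 = li (D.lab (.inl y)) := h.al_lab _ vy
    have hla : D.lab (.inl x) = a := hxa
    have hlb : D.lab (.inl y) = li a := hya
    rw [lab', lab']
    by_cases h1 : z = x1
    · subst h1
      rw [alx1, lx1, ly1, hla, hlb]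
    · by_cases h2 : z = y1
      · subst h2
        rw [aly1, lx1, ly1, hla, hlb, li_li]
      · rw [alo z h1 h2]
        exact h.al_lab z z1
  · -- path
    show Path D'.nu D'.al (O₁ ++ O₂) (g D.s) (g D.s)
    rw [path_append]
    refine ⟨m, ?_, ?_⟩
    · have := path_map g O₁ D.s m (fun i _ => nu' (.inl i))
        (fun i hi => nual _ (memO i (Or.inl hi))) hp1
      rwa [gm] at this
    · have := path_map g O₂ _ D.s (fun i _ => nu' (.inl i))
        (fun i hi => nual _ (memO i (Or.inr hi))) hp3
      rwa [gm'] at this
  · -- disc
    intro j k hj hk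
    have hv1 : D'.valid N (.inr (j, k)) := ⟨hj, hk⟩
    rw [nual _ hv1, nu']
    congr 1
    exact h.disc j k hj hk
  · -- count
    have hlenO : D.O.length = D'.O.length + 2 := by
      show _ = (O₁ ++ O₂).length + 2
      rw [hO]
      simp only [List.length_append, List.length_cons]
      omega
    have hsum : ∑ j ∈ Finset.range N, (D'.fw j).length = ∑ j ∈ Finset.range N, (D.fw j).length :=
      rfl
    have hs : D'.s = g D.s := rfl
    -- `m` is still the name of something
    have hm_name : m = D'.s ∨ ∃ z, D'.valid N z ∧ D'.nu z = m := by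
      rcases path_head hp3 with ⟨i, hi, hin⟩ | ⟨_, hin⟩
      · right
        refine ⟨.inl i, memO i (Or.inr hi), ?_⟩
        rw [nu', hin, gm']
      · left
        rw [hs, ← hin, gm']
    by_cases hc : x1 = .inl y
    · -- circle case
      have hy1x : y1 = .inl x := by rw [hy1d, ← hc, ax1]
      have hmm : D.nu y1 = m := by rw [hy1x, hxm]
      have gid : ∀ w, g w = w := by
        intro w
        simp only [hg, hmm]
        split_ifs with hw
        · exact hw.symm
        · rfl
      refine ⟨A.erase (D.nu (.inl y)), ?_, ?_⟩
      · intro w hw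
        rw [Finset.mem_erase] at hw
        rcases hA w hw.2 with h1 | ⟨z, hz, hzw⟩
        · left; rw [hs, gid, h1]
        · by_cases e1 : z = .inl x
          · subst e1
            rw [hxm] at hzw
            subst hzw
            exact hm_name
          · by_cases e2 : z = .inl y
            · subst e2
              exact absurd hzw.symm hw.1
            · right
              exact ⟨z, (vall z).2 ⟨hz, e1, e2⟩, by rw [nu', gid, hzw]⟩
      · have := Finset.pred_card_le_card_erase (s := A) (a := D.nu (.inl y))
        rw [hsum]
        omega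
    · -- normal case
      refine ⟨A.image g, ?_, ?_⟩
      · intro w hw
        obtain ⟨w', hw', rfl⟩ := Finset.mem_image.1 hw
        rcases hA w' hw' with h1 | ⟨z, hz, hzw⟩
        · left; rw [hs, h1]
        · by_cases e1 : z = .inl x
          · subst e1
            rw [hxm] at hzw
            subst hzw
            rw [gm]
            exact hm_name
          · by_cases e2 : z = .inl y
            · subst e2
              right
              refine ⟨x1, (vall x1).2 ⟨vx1, h.al_ne _ vx, hc⟩, ?_⟩
              rw [nu', ← nuy, hzw]
            · right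
              exact ⟨z, (vall z).2 ⟨hz, e1, e2⟩, by rw [nu', hzw]⟩
      · have hsub : A.erase (D.nu y1) ⊆ A.image g := by
          intro w hw
          rw [Finset.mem_erase] at hw
          rw [Finset.mem_image]
          refine ⟨w, hw.2, ?_⟩
          simp only [hg]
          rw [if_neg hw.1]
        have h1 := Finset.card_le_card hsub
        have h2 := Finset.pred_card_le_card_erase (s := A) (a := D.nu y1)
        rw [hsum]
        omega
  · -- universality
    intro σ hσ
    by_cases hc : x1 = .inl y
    · -- circle case
      have hy1x : y1 = .inl x := by rw [hy1d, ← hc, ax1]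
      set τ : Dart → FreeGroup α := fun z => if z = .inl x ∨ z = .inl y then 1 else σ z with hτ
      have hτx : τ (.inl x) = 1 := by simp [hτ]
      have hτy : τ (.inl y) = 1 := by simp [hτ]
      have hτo : ∀ z, z ≠ .inl x → z ≠ .inl y → τ z = σ z := by
        intro z h1 h2
        simp only [hτ]
        rw [if_neg (by tauto)]
      have h1 := h.univ τ (by
        intro z hz
        by_cases e1 : z = .inl x
        · subst e1
          rw [← hx1d, hc, hτx, hτy, inv_one]
        · by_cases e2 : z = .inl y
          · subst e2
            rw [← hy1d, hy1x, hτx, hτy, inv_one]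
          · have e3 : z ≠ x1 := by rw [hc]; exact e2
            have e4 : z ≠ y1 := by rw [hy1x]; exact e1
            have hz' := (vall z).2 ⟨hz, e1, e2⟩
            have := hσ z hz'
            rw [alo z e3 e4] at this
            rw [hτo z e1 e2, hτo _ _ _, this]
            · intro e
              apply e3
              rw [hx1d, ← e, h.al_al z hz]
            · intro e
              apply e4
              rw [hy1d, ← e, h.al_al z hz])
      have e : (D.O.map (fun i => τ (.inl i))).prod = (D'.O.map (fun i => σ (.inl i))).prod := by
        show _ = ((O₁ ++ O₂).map (fun i => σ (.inl i))).prod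
        rw [hO]
        simp only [List.map_append, List.map_cons, List.prod_append, List.prod_cons, hτx, hτy,
          one_mul]
        congr 2
        · apply List.map_congr_left
          intro i hi
          apply hτo
          · intro e; injection e with e; exact hx1 (e ▸ hi)
          · intro e; injection e with e; exact hy1 (e ▸ hi)
        · apply List.map_congr_left
          intro i hi
          apply hτo
          · intro e; injection e with e; exact hx2 (e ▸ hi)
          · intro e; injection e with e; exact n5 (e ▸ hi)
      rw [← e]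
      apply h1.congr
      intro j hj
      rfl
    · set τ : Dart → FreeGroup α := fun z => if z = .inl x then (σ x1)⁻¹ else
        if z = .inl y then (σ y1)⁻¹ else σ z with hτ
      have hxy' : (Sum.inl y : Dart) ≠ .inl x := by
        intro e; injection e with e; exact hxy e.symm
      have hτx : τ (.inl x) = (σ x1)⁻¹ := by simp [hτ]
      have hτy : τ (.inl y) = (σ y1)⁻¹ := by
        simp only [hτ]
        rw [if_neg hxy']
        simp
      have hτo : ∀ z, z ≠ .inl x → z ≠ .inl y → τ z = σ z := by
        intro z h1 h2
        simp only [hτ]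
        rw [if_neg h1, if_neg h2]
      have hx1x : x1 ≠ .inl x := h.al_ne _ vx
      have hy1y : y1 ≠ .inl y := h.al_ne _ vy
      have hy1x : y1 ≠ .inl x := by
        intro e
        apply hc
        rw [hx1d, ← e, ay1]
      have vx1' : D'.valid N x1 := (vall x1).2 ⟨vx1, hx1x, hc⟩
      have hσ1 := hσ x1 vx1'
      rw [alx1] at hσ1
      have h1 := h.univ τ (by
        intro z hz
        by_cases e1 : z = .inl x
        · subst e1
          rw [← hx1d, hτx, hτo x1 hx1x hc, inv_inv]
        · by_cases e2 : z = .inl y
          · subst e2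
            rw [← hy1d, hτy, hτo y1 hy1x hy1y, inv_inv]
          · by_cases e3 : z = x1
            · subst e3
              rw [ax1, hτx, hτo x1 hx1x hc]
            · by_cases e4 : z = y1
              · subst e4
                rw [ay1, hτy, hτo y1 hy1x hy1y]
              · have hz' := (vall z).2 ⟨hz, e1, e2⟩
                have := hσ z hz'
                rw [alo z e3 e4] at this
                rw [hτo z e1 e2, hτo _ _ _, this]
                · intro e
                  apply e3
                  rw [hx1d, ← e, h.al_al z hz]
                · intro e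
                  apply e4
                  rw [hy1d, ← e, h.al_al z hz])
      have e : (D.O.map (fun i => τ (.inl i))).prod = (D'.O.map (fun i => σ (.inl i))).prod := by
        show _ = ((O₁ ++ O₂).map (fun i => σ (.inl i))).prod
        rw [hO]
        simp only [List.map_append, List.map_cons, List.prod_append, List.prod_cons, hτx, hτy,
          hσ1, inv_inv]
        have e1 : O₁.map (fun i => τ (.inl i)) = O₁.map (fun i => σ (.inl i)) := by
          apply List.map_congr_left
          intro i hi
          apply hτo
          · intro e; injection e with e; exact hx1 (e ▸ hi)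
          · intro e; injection e with e; exact hy1 (e ▸ hi)
        have e2 : O₂.map (fun i => τ (.inl i)) = O₂.map (fun i => σ (.inl i)) := by
          apply List.map_congr_left
          intro i hi
          apply hτo
          · intro e; injection e with e; exact hx2 (e ▸ hi)
          · intro e; injection e with e; exact n5 (e ▸ hi)
        rw [e1, e2]
        group
      rw [← e]
      apply h1.congr
      intro j hj
      rfl

end Pool.Agent.MPcf54d7
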