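import Pool.Agent.Lib.MP_cf54d7_al.Dgm

set_option autoImplicit false

namespace Pool.Agent.MPcf54d7

open FreeGroup

variable {α : Type*}

/-- data of the diagram after adding a spike labelled `a` -/
def spikeDat (D : Dat α) (a : α × Bool) (O₁ O₂ : List ℕ) (M K m : ℕ) : Dat α where
  fw := D.fw
  O := O₁ ++ (M :: (M + 1) :: O₂)
  lo := fun i => if i = M then a else if i = M + 1 then li a else D.lo i
  al := fun z => if z = .inl M then .inl (M + 1) else if z = .inl (M + 1) then .inl M else D.al z
  nu := fun z => if z = .inl M then m else if z = .inl (M + 1) then K else D.nu z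
  s := D.s

theorem Good.spike {RW : Set (List (α × Bool))} {u v : List (α × Bool)} {N : ℕ} {D : Dat α}
    (h : Good RW (u ++ v) N D) (a : α × Bool) :
    ∃ D', Good RW (u ++ (a :: li a :: v)) N D' := by
  obtain ⟨O₁, O₂, hO, hu, hv⟩ := List.map_eq_append_iff.1 h.hlo
  obtain ⟨m, hp1, hp2⟩ := (path_append O₁ O₂ D.s D.s).1 (hO ▸ h.path)
  obtain ⟨A, hA, hcnt⟩ := h.cnt
  obtain ⟨M, hM⟩ := exists_fresh D.O
  obtain ⟨K, hK⟩ := exists_freshA A
  refine ⟨spikeDat D a O₁ O₂ M K m, ?_⟩
  set D' := spikeDat D a O₁ O₂ M K m with hD'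
  have hM1 : ∀ i ∈ O₁, i < M := fun i hi => hM i (by rw [hO]; simp [hi])
  have hM2 : ∀ i ∈ O₂, i < M := fun i hi => hM i (by rw [hO]; simp [hi])
  have vl : ∀ i, D'.valid N (.inl i) ↔ (D.valid N (.inl i) ∨ i = M ∨ i = M + 1) := by
    intro i
    simp only [hD', spikeDat, Dat.valid, List.mem_append, List.mem_cons, hO]
    tauto
  have vr : ∀ j k, D'.valid N (.inr (j, k)) ↔ D.valid N (.inr (j, k)) := by
    intro j k
    simp only [hD', spikeDat, Dat.valid]
  have oldne : ∀ x, D.valid N x → x ≠ .inl M ∧ x ≠ .inl (M + 1) := by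
    rintro (i | ⟨j, k⟩) hx
    · have : i < M := hM i hx
      constructor
      · intro e; injection e with e; omega
      · intro e; injection e with e; omega
    · simp
  have al_old : ∀ x, D.valid N x → D'.al x = D.al x := by
    intro x hx
    obtain ⟨h1, h2⟩ := oldne x hx
    simp only [hD', spikeDat]
    rw [if_neg h1, if_neg h2]
  have nu_old : ∀ x, D.valid N x → D'.nu x = D.nu x := by
    intro x hx
    obtain ⟨h1, h2⟩ := oldne x hx
    simp only [hD', spikeDat]
    rw [if_neg h1, if_neg h2]
  have lo_old : ∀ i, i < M → D'.lo i = D.lo i := by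
    intro i hi
    simp only [hD', spikeDat]
    rw [if_neg (by omega), if_neg (by omega)]
  have lab_old : ∀ x, D.valid N x → D'.lab x = D.lab x := by
    rintro (i | ⟨j, k⟩) hx
    · simp only [Dat.lab]
      exact lo_old i (hM i hx)
    · have h2 := hx.2
      simp only [hD', spikeDat, Dat.lab]
      rw [List.getD_eq_getElem _ _ h2, List.getD_eq_getElem _ _ h2]
  have val_old : ∀ x, D.valid N x → D'.valid N x := by
    rintro (i | ⟨j, k⟩) hx
    · exact (vl i).2 (Or.inl hx)
    · exact (vr j k).2 hx
  have alM : D'.al (.inl M) = .inl (M + 1) := by simp [hD', spikeDat]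
  have alM1 : D'.al (.inl (M + 1)) = .inl M := by simp [hD', spikeDat]
  have nuM : D'.nu (.inl M) = m := by simp [hD', spikeDat]
  have nuM1 : D'.nu (.inl (M + 1)) = K := by simp [hD', spikeDat]
  have cases_valid : ∀ x, D'.valid N x → D.valid N x ∨ x = .inl M ∨ x = .inl (M + 1) := by
    rintro (i | ⟨j, k⟩) hx
    · rcases (vl i).1 hx with h1 | h1 | h1
      · left; exact h1
      · right; left; rw [h1]
      · right; right; rw [h1]
    · left; exact (vr j k).1 hx
  have vM : D'.valid N (.inl M) := (vl M).2 (by simp)
  have vM1 : D'.valid N (.inl (M + 1)) := (vl (M + 1)).2 (by simp)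
  constructor
  · exact h.hfw
  · exact h.hlen
  · have hn := h.hO
    rw [hO, List.nodup_append] at hn
    obtain ⟨n1, n2, n3⟩ := hn
    show (O₁ ++ (M :: (M + 1) :: O₂)).Nodup
    rw [List.nodup_append]
    refine ⟨n1, ?_, ?_⟩
    · rw [List.nodup_cons, List.nodup_cons]
      refine ⟨?_, ?_, n2⟩
      · intro hc
        rcases List.mem_cons.1 hc with hc | hc
        · omega
        · have := hM2 _ hc; omega
      · intro hc
        have := hM2 _ hc; omega
    · intro b hb c hc hbc
      subst hbc
      have := hM1 b hb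
      rcases List.mem_cons.1 hc with hc | hc
      · omega
      · rcases List.mem_cons.1 hc with hc | hc
        · omega
        · exact n3 b hb b hc rfl
  · show (O₁ ++ (M :: (M + 1) :: O₂)).map D'.lo = _
    rw [List.map_append, List.map_cons, List.map_cons]
    congr 1
    · rw [← hu]
      apply List.map_congr_left
      intro i hi
      exact lo_old i (hM1 i hi)
    · congr 1
      · simp [hD', spikeDat]
      · congr 1
        · simp [hD', spikeDat]
        · rw [← hv]
          apply List.map_congr_left
          intro i hi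
          exact lo_old i (hM2 i hi)
  · intro x hx
    rcases cases_valid x hx with h1 | rfl | rfl
    · rw [al_old x h1]; exact val_old _ (h.al_valid x h1)
    · rw [alM]; exact vM1
    · rw [alM1]; exact vM
  · intro x hx
    rcases cases_valid x hx with h1 | rfl | rfl
    · rw [al_old x h1, al_old _ (h.al_valid x h1)]; exact h.al_al x h1
    · rw [alM, alM1]
    · rw [alM1, alM]
  · intro x hx
    rcases cases_valid x hx with h1 | rfl | rfl
    · rw [al_old x h1]; exact h.al_ne x h1
    · rw [alM]; simp
    · rw [alM1]; simp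
  · intro x hx
    rcases cases_valid x hx with h1 | rfl | rfl
    · rw [al_old x h1, lab_old x h1, lab_old _ (h.al_valid x h1)]
      exact h.al_lab x h1
    · rw [alM]; simp [Dat.lab, hD', spikeDat]
    · rw [alM1]; simp [Dat.lab, hD', spikeDat]
  · show Path D'.nu D'.al (O₁ ++ (M :: (M + 1) :: O₂)) D.s D.s
    rw [path_append]
    refine ⟨m, ?_, ?_⟩
    · apply path_map id O₁ D.s m _ _ hp1
      · intro i hi
        exact nu_old _ (show i ∈ D.O by rw [hO]; simp [hi])
      · intro i hi
        have hv1 : D.valid N (.inl i) := (show i ∈ D.O by rw [hO]; simp [hi])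
        rw [al_old _ hv1, nu_old _ (h.al_valid _ hv1)]
        rfl
    · refine ⟨nuM, ?_⟩
      rw [alM, nuM1]
      refine ⟨nuM1, ?_⟩
      rw [alM1, nuM]
      apply path_map id O₂ m D.s _ _ hp2
      · intro i hi
        exact nu_old _ (show i ∈ D.O by rw [hO]; simp [hi])
      · intro i hi
        have hv1 : D.valid N (.inl i) := (show i ∈ D.O by rw [hO]; simp [hi])
        rw [al_old _ hv1, nu_old _ (h.al_valid _ hv1)]
        rfl
  · intro j k hj hk
    have hk' : k < (D.fw j).length := hk
    have hv1 : D.valid N (.inr (j, k)) := ⟨hj, hk'⟩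
    have hv2 : D.valid N (.inr (j, (k + 1) % (D.fw j).length)) :=
      ⟨hj, Nat.mod_lt _ (by omega)⟩
    have := h.disc j k hj hk'
    rw [al_old _ hv1, nu_old _ (h.al_valid _ hv1), ← this]
    exact nu_old _ hv2
  · refine ⟨insert K A, ?_, ?_⟩
    · intro w hw
      rcases Finset.mem_insert.1 hw with rfl | hw
      · right; exact ⟨_, vM1, nuM1⟩
      · rcases hA w hw with h1 | ⟨x, hx, hxv⟩
        · left; exact h1
        · right; exact ⟨x, val_old x hx, by rw [nu_old x hx, hxv]⟩
    · rw [Finset.card_insert_of_notMem (fun hc => by have := hK _ hc; omega)]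
      have e2 : D'.O.length = D.O.length + 2 := by
        show (O₁ ++ (M :: (M + 1) :: O₂)).length = _
        rw [hO]
        simp only [List.length_append, List.length_cons]
        omega
      rw [e2]
      have : ∑ j ∈ Finset.range N, (D'.fw j).length = ∑ j ∈ Finset.range N, (D.fw j).length := rfl
      rw [this]
      omega
  · intro σ hσ
    have h1 := h.univ σ (by
      intro x hx
      have := hσ x (val_old x hx)
      rwa [al_old x hx] at this)
    have e : (D'.O.map (fun i => σ (.inl i))).prod = (D.O.map (fun i => σ (.inl i))).prod := by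
      show ((O₁ ++ (M :: (M + 1) :: O₂)).map (fun i => σ (.inl i))).prod = _
      rw [hO]
      simp only [List.map_append, List.map_cons, List.prod_append, List.prod_cons]
      have := hσ (.inl M) vM
      rw [alM] at this
      rw [this]
      group
    rw [e]
    exact h1

end Pool.Agent.MPcf54d7
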