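import Pool.Agent.Lib.MP_cf54d7_al.Attach
import Pool.Agent.Lib.MP_cf54d7_al.Spike
import Pool.Agent.Lib.MP_cf54d7_al.Fold

set_option autoImplicit false

namespace Pool.Agent.MPcf54d7

open FreeGroup

variable {α : Type*}

lemma good_red {RW : Set (List (α × Bool))} {N : ℕ} {L₁ L₂ : List (α × Bool)}
    (h : FreeGroup.Red L₁ L₂) (hg : ∃ D, Good RW L₁ N D) : ∃ D, Good RW L₂ N D := by
  induction h with
  | refl => exact hg
  | tail _ hs ih =>
    obtain ⟨D, hD⟩ := ih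
    cases hs with
    | @not M₁ M₂ x b =>
      exact Good.fold (a := (x, b)) hD

lemma good_red_symm {RW : Set (List (α × Bool))} {N : ℕ} {L₁ L₂ : List (α × Bool)}
    (h : FreeGroup.Red L₁ L₂) (hg : ∃ D, Good RW L₂ N D) : ∃ D, Good RW L₁ N D := by
  induction h with
  | refl => exact hg
  | tail _ hs ih =>
    apply ih
    obtain ⟨D, hD⟩ := hg
    cases hs with
    | @not M₁ M₂ x b =>
      exact Good.spike hD (x, b)

lemma good_transport {RW : Set (List (α × Bool))} {N : ℕ} {L₁ L₂ : List (α × Bool)}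
    (h : FreeGroup.mk L₁ = FreeGroup.mk L₂) (hg : ∃ D, Good RW L₁ N D) :
    ∃ D, Good RW L₂ N D := by
  obtain ⟨L, h1, h2⟩ := FreeGroup.Red.exact.1 h
  exact good_red_symm h2 (good_red h1 hg)

theorem exists_good [Inhabited α] {RW : Set (List (α × Bool))} (hne : ∀ w ∈ RW, w ≠ [])
    (hinv : ∀ w ∈ RW, invRev w ∈ RW) {n : ℕ} {g : FreeGroup α}
    (h : Area {x | ∃ w ∈ RW, x = FreeGroup.mk w} n g) :
    ∀ W : List (α × Bool), FreeGroup.mk W = g → ∃ D, Good RW W n D := by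
  induction h with
  | zero =>
    intro W hW
    exact good_transport (by rw [hW, one_eq_mk]) (good_nil RW)
  | succ u v r hr _ ih =>
    intro W hW
    obtain ⟨w, hw, rfl⟩ := hr
    obtain ⟨Lu, rfl⟩ := Quot.exists_rep u
    obtain ⟨Lv, rfl⟩ := Quot.exists_rep v
    obtain ⟨D, hD⟩ := ih (Lu ++ Lv) (by rw [← FreeGroup.mul_mk]; rfl)
    obtain ⟨D', hD'⟩ := hD.attach (invRev w) (hinv w hw) (hne _ (hinv w hw))
    rw [invRev_invRev] at hD'
    refine good_transport ?_ ⟨D', hD'⟩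
    rw [hW, ← FreeGroup.mul_mk, ← FreeGroup.mul_mk, mul_assoc]
    rfl

end Pool.Agent.MPcf54d7
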