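import Pool.Agent.Lib.MP_cf54d7_al.Col

set_option autoImplicit false

namespace Pool.Agent.MPcf54d7

lemma fam_ln_pos (n : ℕ) (i : RI) : 0 < (fam n).ln i := by
  cases i <;> simp [fam, fln]

lemma fam_face (n : ℕ) (hn : 5 ≤ n) (i : RI) (_ : (fam n).ok i) :
    ∑ κ ∈ Finset.range ((fam n).ln i), (fam n).th i κ + 2 * 4 ≤ 4 * (fam n).ln i := by
  cases i with
  | T => show ∑ κ ∈ Finset.range 3, s3 2 1 1 κ + 2 * 4 ≤ 4 * 3; decide
  | S0 => show ∑ κ ∈ Finset.range 4, s4 3 3 1 1 κ + 2 * 4 ≤ 4 * 4; decide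
  | TU => show ∑ κ ∈ Finset.range 4, s4 4 0 3 1 κ + 2 * 4 ≤ 4 * 4; decide
  | TV => show ∑ κ ∈ Finset.range 4, s4 0 4 1 3 κ + 2 * 4 ≤ 4 * 4; decide
  | SU k =>
    show ∑ κ ∈ Finset.range 4, (if k = 1 then s4 3 1 3 1 κ else 2) + 2 * 4 ≤ 4 * 4
    by_cases h : k = 1
    · simp only [if_pos h]; decide
    · simp only [if_neg h]; decide
  | SV k =>
    show ∑ κ ∈ Finset.range 4, (if k = 1 then s4 1 3 1 3 κ else 2) + 2 * 4 ≤ 4 * 4
    by_cases h : k = 1
    · simp only [if_pos h]; decide
    · simp only [if_neg h]; decide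
  | LU =>
    show ∑ κ ∈ Finset.range (n + 3), (if κ ≤ 1 then 3 else if κ < n then 4 else 2) + 2 * 4 ≤
      4 * (n + 3)
    obtain ⟨r, rfl⟩ : ∃ r, n = r + 2 := ⟨n - 2, by omega⟩
    rw [Finset.sum_range_succ, Finset.sum_range_succ, Finset.sum_range_succ,
      Finset.sum_range_succ', Finset.sum_range_succ']
    have e : ∑ κ ∈ Finset.range r, (if κ + 1 + 1 ≤ 1 then 3 else if κ + 1 + 1 < r + 2 then 4 else 2)
        = ∑ κ ∈ Finset.range r, 4 := by
      apply Finset.sum_congr rfl
      intro κ hκ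
      rw [Finset.mem_range] at hκ
      rw [if_neg (by omega), if_pos (by omega)]
    rw [e, Finset.sum_const, Finset.card_range, smul_eq_mul]
    rw [if_pos (by omega), if_pos (by omega), if_neg (by omega), if_neg (by omega),
      if_neg (by omega), if_neg (by omega), if_neg (by omega), if_neg (by omega)]
    omega
  | LV =>
    show ∑ κ ∈ Finset.range (n + 3), (if κ = 0 then 3 else if κ = 1 then 1 else
      if κ ≤ 3 then 2 else 4) + 2 * 4 ≤ 4 * (n + 3)
    obtain ⟨r, rfl⟩ : ∃ r, n = r + 2 := ⟨n - 2, by omega⟩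
    have e0 : r + 2 + 3 = r + 1 + 1 + 1 + 1 + 1 := by omega
    rw [e0, Finset.sum_range_succ', Finset.sum_range_succ', Finset.sum_range_succ',
      Finset.sum_range_succ', Finset.sum_range_succ']
    have e : ∑ κ ∈ Finset.range r, (if κ + 1 + 1 + 1 + 1 + 1 = 0 then 3 else
        if κ + 1 + 1 + 1 + 1 + 1 = 1 then 1 else if κ + 1 + 1 + 1 + 1 + 1 ≤ 3 then 2 else 4)
        = ∑ κ ∈ Finset.range r, 4 := by
      apply Finset.sum_congr rfl
      intro κ hκ
      rw [if_neg (by omega), if_neg (by omega), if_neg (by omega)]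
    rw [e, Finset.sum_const, Finset.card_range, smul_eq_mul]
    simp
    omega

/-- the potential showing that powers of `b` are geodesic -/
def gG (n : ℕ) (x : ℕ × Bool) : ℤ :=
  if x.1 = 1 then (if x.2 then 0 else 4) else if x.1 = 0 then (if x.2 then 3 else 1) else
  if x.1 = 3 then (if x.2 then 2 else 3) else if x.1 = 2 * (n - 1) then (if x.2 then 1 else 3) else
  if x.1 = 2 * (n - 1) + 1 then (if x.2 then 2 else 3) else 2

lemma gG_ug (n k : ℕ) (hn : 5 ≤ n) (h1 : 1 ≤ k) (h2 : k + 2 ≤ n) (s : Bool) :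
    gG n (ug k, s) = if k = 1 then (if s then 2 else 3) else 2 := by
  unfold gG ug
  simp only
  by_cases h : k = 1
  · subst h; simp
  · simp only [if_neg h]
    rw [if_neg (by omega), if_neg (by omega), if_neg (by omega), if_neg (by omega),
      if_neg (by omega)]

lemma gG_vg (n k : ℕ) (hn : 5 ≤ n) (h1 : 1 ≤ k) (h2 : k + 2 ≤ n) (s : Bool) :
    gG n (vg k, s) = if k = 1 then (if s then 2 else 3) else 2 := by
  unfold gG vg
  simp only
  by_cases h : k = 1
  · subst h; simp
  · simp only [if_neg h]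
    rw [if_neg (by omega), if_neg (by omega), if_neg (by omega), if_neg (by omega),
      if_neg (by omega)]

lemma gG_uT (n : ℕ) (hn : 5 ≤ n) (s : Bool) : gG n (ug (n - 1), s) = if s then 1 else 3 := by
  unfold gG ug
  simp only
  rw [if_neg (by omega : ¬ n - 1 = 1), if_neg (by omega), if_neg (by omega), if_neg (by omega),
    if_pos rfl]

lemma gG_vT (n : ℕ) (hn : 5 ≤ n) (s : Bool) : gG n (vg (n - 1), s) = if s then 2 else 3 := by
  unfold gG vg
  simp only
  rw [if_neg (by omega), if_neg (by omega), if_neg (by omega), if_neg (by omega)]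
  simp

lemma gG_0 (n : ℕ) (s : Bool) : gG n (0, s) = if s then 3 else 1 := by simp [gG]
lemma gG_1 (n : ℕ) (s : Bool) : gG n (1, s) = if s then 0 else 4 := by simp [gG]
lemma gG_2 (n : ℕ) (hn : 5 ≤ n) (s : Bool) : gG n (2, s) = 2 := by
  unfold gG
  simp only
  rw [if_neg (by omega), if_neg (by omega), if_neg (by omega), if_neg (by omega),
    if_neg (by omega)]
lemma gG_3 (n : ℕ) (s : Bool) : gG n (3, s) = if s then 2 else 3 := by simp [gG]


lemma li_mk (x : ℕ) (s : Bool) : li (x, s) = (x, !s) := rfl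

lemma LU_0 (n : ℕ) : flt n .LU 0 = (ug (n - 1), false) := rfl
lemma LU_b (n κ : ℕ) (h : 1 ≤ κ) (h' : κ < n) : flt n .LU κ = (1, false) := by
  simp only [flt]; rw [if_neg (by omega), if_pos h']
lemma LU_n (n : ℕ) (h : 1 ≤ n) : flt n .LU n = (ug (n - 2), true) := by
  simp only [flt]; rw [if_neg (by omega), if_neg (by omega), if_pos trivial]
lemma LU_n1 (n : ℕ) : flt n .LU (n + 1) = (1, true) := by
  simp only [flt]; rw [if_neg (by omega), if_neg (by omega), if_neg (by omega), if_pos trivial]
lemma LU_n2 (n : ℕ) : flt n .LU (n + 2) = (ug (n - 2), false) := by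
  simp only [flt]; rw [if_neg (by omega), if_neg (by omega), if_neg (by omega),
    if_neg (by omega)]
lemma LV_0 (n : ℕ) : flt n .LV 0 = (vg (n - 1), false) := rfl
lemma LV_1 (n : ℕ) : flt n .LV 1 = (vg (n - 2), false) := rfl
lemma LV_2 (n : ℕ) : flt n .LV 2 = (2, true) := rfl
lemma LV_3 (n : ℕ) : flt n .LV 3 = (vg (n - 2), true) := rfl
lemma LV_c (n κ : ℕ) (h : 4 ≤ κ) : flt n .LV κ = (2, false) := by
  simp only [flt]; rw [if_neg (by omega), if_neg (by omega), if_neg (by omega),
    if_neg (by omega)]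

lemma gG_lip (n : ℕ) (hn : 5 ≤ n) (i : RI) (κ : ℕ) (hok : fok n i) (hκ : κ < fln n i) :
    gG n (flt n i κ) - gG n (li (flt n i (pr (fln n i) κ))) ≤ fth n i κ ∧
    gG n (li (flt n i (pr (fln n i) κ))) - gG n (flt n i κ) ≤ fth n i κ := by
  cases i with
  | T =>
    simp only [fln] at hκ
    interval_cases κ <;>
      simp [flt, fth, fln, pr, s3, li_mk, gG_0, gG_1, gG_2 n hn]
  | S0 =>
    simp only [fln] at hκ
    interval_cases κ <;>
      simp [flt, fth, fln, pr, s4, li_mk, gG_0, gG_1, gG_2 n hn, gG_3]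
  | TU =>
    simp only [fln] at hκ
    interval_cases κ <;>
      simp [flt, fth, fln, pr, s4, li_mk, gG_0, gG_1, gG_uT n hn]
  | TV =>
    simp only [fln] at hκ
    interval_cases κ <;>
      simp [flt, fth, fln, pr, s4, li_mk, gG_0, gG_2 n hn, gG_vT n hn]
  | SU k =>
    simp only [fln] at hκ
    simp only [fok] at hok
    have h1 := gG_ug n k hn hok.1 (by omega)
    have h2 := gG_ug n (k + 1) hn (by omega) (by omega)
    have h3 : ¬ (k + 1 = 1) := by omega
    simp only [if_neg h3] at h2
    by_cases hk : k = 1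
    · subst hk
      interval_cases κ <;>
        simp [flt, fth, fln, pr, s4, li_mk, h1, h2, gG_1]
    · interval_cases κ <;>
        simp [flt, fth, fln, pr, s4, li_mk, h1, h2, gG_1, hk]
  | SV k =>
    simp only [fln] at hκ
    simp only [fok] at hok
    have h1 := gG_vg n k hn hok.1 (by omega)
    have h2 := gG_vg n (k + 1) hn (by omega) (by omega)
    have h3 : ¬ (k + 1 = 1) := by omega
    simp only [if_neg h3] at h2
    by_cases hk : k = 1
    · subst hk
      interval_cases κ <;>
        simp [flt, fth, fln, pr, s4, li_mk, h1, h2, gG_2 n hn]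
    · interval_cases κ <;>
        simp [flt, fth, fln, pr, s4, li_mk, h1, h2, gG_2 n hn, hk]
  | LU =>
    simp only [fln] at hκ
    have h1 := gG_ug n (n - 2) hn (by omega) (by omega)
    have h3 : ¬ (n - 2 = 1) := by omega
    simp only [if_neg h3] at h1
    have h4 := gG_uT n hn
    have hp : ∀ κ, κ ≠ 0 → pr (fln n .LU) κ = κ - 1 := fun κ h => if_neg h
    rcases Nat.eq_zero_or_pos κ with h | h
    · subst h
      have e : pr (fln n .LU) 0 = n + 2 := rfl
      rw [e, LU_0, LU_n2, li_mk, h4, h1]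
      simp [fth]
    · rw [hp κ (by omega)]
      rcases Nat.lt_or_ge κ 2 with h5 | h5
      · have : κ = 1 := by omega
        subst this
        rw [LU_b n 1 (by omega) (by omega), Nat.sub_self, LU_0, li_mk, h4, gG_1]
        simp [fth]
      · rcases Nat.lt_or_ge κ n with h6 | h6
        · rw [LU_b n κ (by omega) h6, LU_b n (κ - 1) (by omega) (by omega), li_mk, gG_1, gG_1]
          simp only [fth]
          rw [if_neg (by omega : ¬ κ ≤ 1), if_pos h6]
          simp
        · have hw : fth n .LU κ = 2 := by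
            simp only [fth]
            rw [if_neg (by omega), if_neg (by omega)]
          rw [hw]
          rcases Nat.lt_or_ge κ (n + 1) with h7 | h7
          · have : κ = n := by omega
            subst this
            rw [LU_n κ (by omega), LU_b κ (κ - 1) (by omega) (by omega), li_mk, gG_1, h1]
            simp
          · rcases Nat.lt_or_ge κ (n + 2) with h8 | h8
            · have : κ = n + 1 := by omega
              subst this
              rw [LU_n1, Nat.add_sub_cancel, LU_n n (by omega), li_mk, gG_1, h1]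
              simp
            · have : κ = n + 2 := by omega
              subst this
              have e : n + 2 - 1 = n + 1 := by omega
              rw [LU_n2, e, LU_n1, li_mk, gG_1, h1]
              simp
  | LV =>
    simp only [fln] at hκ
    have h1 := gG_vg n (n - 2) hn (by omega) (by omega)
    have h3 : ¬ (n - 2 = 1) := by omega
    simp only [if_neg h3] at h1
    have h4 := gG_vT n hn
    have h2 := gG_2 n hn
    have hp : ∀ κ, κ ≠ 0 → pr (fln n .LV) κ = κ - 1 := fun κ h => if_neg h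
    rcases Nat.lt_or_ge κ 5 with h | h
    · interval_cases κ
      · have e : pr (fln n .LV) 0 = n + 2 := rfl
        rw [e, LV_0, LV_c n (n + 2) (by omega), li_mk, h4, h2]
        simp [fth]
      · rw [hp 1 (by omega), LV_1, Nat.sub_self, LV_0, li_mk, h4, h1]
        simp [fth]
      · rw [hp 2 (by omega), LV_2, show 2 - 1 = 1 from rfl, LV_1, li_mk, h2, h1]
        simp [fth]
      · rw [hp 3 (by omega), LV_3, show 3 - 1 = 2 from rfl, LV_2, li_mk, h2, h1]
        simp [fth]
      · rw [hp 4 (by omega), LV_c n 4 (by omega), show 4 - 1 = 3 from rfl, LV_3, li_mk, h2, h1]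
        simp [fth]
    · rw [hp κ (by omega), LV_c n κ (by omega), LV_c n (κ - 1) (by omega), li_mk, h2, h2]
      simp

lemma fam_G (n : ℕ) (hn : 5 ≤ n) (c : RI × ℕ × Bool) (hc : (fam n).cok c) :
    gG n ((fam n).chead c) - gG n ((fam n).ctail c) ≤ (fam n).th c.1 c.2.1 := by
  obtain ⟨i, κ, ε⟩ := c
  obtain ⟨h1, h2⟩ := hc
  have h3 := gG_lip n hn i κ h1 h2
  have e : (κ + fln n i - 1) % fln n i = pr (fln n i) κ := mod_pred h2
  cases ε
  · show gG n (li (flt n i ((κ + fln n i - 1) % fln n i))) - gG n (flt n i κ) ≤ fth n i κ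
    rw [e]; exact h3.2
  · show gG n (flt n i κ) - gG n (li (flt n i ((κ + fln n i - 1) % fln n i))) ≤ fth n i κ
    rw [e]; exact h3.1

end Pool.Agent.MPcf54d7
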