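import Pool.Agent.Lib.MP_cf54d7_al.Fin

set_option autoImplicit false

namespace Pool.Agent.MPcf54d7

open FreeGroup

section general

variable {α ι : Type*}

/-- the set of relators -/
def Pres.rels (P : Pres α ι) : Set (FreeGroup α) := {x | ∃ i, P.ok i ∧ x = FreeGroup.mk (P.rel i)}

/-- the generator `x` in the presented group -/
def Pres.gen (P : Pres α ι) (x : α) : PresentedGroup P.rels := PresentedGroup.of x

/-- value of a letter -/
def ev {G : Type*} [Group G] (f : α → G) (a : α × Bool) : G := if a.2 then f a.1 else (f a.1)⁻¹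

lemma hom_mk {G : Type*} [Group G] (φ : FreeGroup α →* G) (L : List (α × Bool)) :
    φ (FreeGroup.mk L) = (L.map (ev (fun x => φ (FreeGroup.of x)))).prod := by
  rw [mk_eq_prod, map_list_prod, List.map_map]
  congr 1
  apply List.map_congr_left
  rintro ⟨x, s⟩ _
  cases s
  · show φ (FreeGroup.mk [li (x, true)]) = (φ (FreeGroup.of x))⁻¹
    rw [mk_li, _root_.map_inv]
    rfl
  · rfl

lemma Pres.rel_one (P : Pres α ι) (i : ι) (hi : P.ok i) :
    ((P.rel i).map (ev P.gen)).prod = 1 := by
  have h : PresentedGroup.mk P.rels (FreeGroup.mk (P.rel i)) = 1 :=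
    PresentedGroup.one_of_mem ⟨i, hi, rfl⟩
  rw [hom_mk] at h
  exact h

lemma Pres.rel_one' (P : Pres α ι) (i : ι) (hi : P.ok i) :
    ((List.range (P.ln i)).map (fun κ => ev P.gen (P.lt i κ))).prod = 1 := by
  have h := P.rel_one i hi
  rw [Pres.rel, List.map_map] at h
  exact h

lemma mk_replicate (x : α) (k : ℕ) :
    FreeGroup.mk (List.replicate k (x, true)) = FreeGroup.of x ^ k := by
  induction k with
  | zero => simp [FreeGroup.one_eq_mk]
  | succ k ih =>
    rw [pow_succ', ← ih, List.replicate_succ]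
    show _ = FreeGroup.mk [(x, true)] * _
    rw [FreeGroup.mul_mk]
    rfl

/-- infinite order of a generator from non-membership -/
lemma Pres.gen_pow_ne_one (P : Pres α ι) (x : α) (k : ℕ)
    (h : FreeGroup.mk (List.replicate k (x, true)) ∉ Subgroup.normalClosure P.rels) :
    P.gen x ^ k ≠ 1 := by
  intro h1
  apply h
  rw [mk_replicate]
  have h2 : PresentedGroup.mk P.rels (FreeGroup.of x ^ k) = 1 := by
    rw [_root_.map_pow]; exact h1
  exact (QuotientGroup.eq_one_iff _).1 h2

end general

/-- Lipschitz potentials from the checker -/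
lemma Pres.G_of_chk {ι : Type*} (P : Pres ℕ ι) (L : List ι) (hL : ∀ i, P.ok i → i ∈ L)
    (E : List (ℕ × ℕ × ℕ)) (hE : (P.cl L).map P.edge = E) (F : ℕ)
    (h : chkIn F E.length 0 E = true) (c : ι × ℕ × Bool) (hc : P.cok c) :
    (pv F (cd (P.chead c)) : ℤ) - pv F (cd (P.ctail c)) ≤ P.th c.1 c.2.1 := by
  obtain ⟨i, κ, ε⟩ := c
  obtain ⟨hi, hκ⟩ := hc
  have hmem : (i, κ) ∈ P.cl L := by
    rw [Pres.cl, List.mem_flatMap]
    exact ⟨i, hL i hi, List.mem_map.2 ⟨κ, List.mem_range.2 hκ, rfl⟩⟩
  obtain ⟨m, hm, hmi⟩ := List.getElem_of_mem hmem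
  have hlen : E.length = (P.cl L).length := by rw [← hE, List.length_map]
  have hget : E[m]'(by omega) = P.edge (P.cl L)[m] := by
    subst hE
    rw [List.getElem_map]
  have h3 := chkIn_sound F E.length E 0 h m (by omega) (by omega)
  rw [hget, hmi] at h3
  simp only [Pres.edge] at h3
  cases ε
  · rw [P.chead_false, P.ctail_false]
    have := h3.2
    push_cast [← Int.ofNat_le] at this ⊢
    linarith
  · have := h3.1
    push_cast [← Int.ofNat_le] at this ⊢
    linarith

end Pool.Agent.MPcf54d7
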