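import Pool.Agent.Lib.MP_cf54d7_al.Rel

set_option autoImplicit false

namespace Pool.Agent.MPcf54d7

/-- the relators of the presentation for `n = 3`, on the generators `a, …, h` coded as `0, …, 7` -/
def r3L : List (List (ℕ × Bool)) :=
  [[(5, false), (0, false), (4, false)],
   [(4, false), (1, false), (3, false)],
   [(3, false), (1, false), (2, true)],
   [(2, false), (0, false), (1, true)],
   [(6, false), (5, false), (0, false), (5, true), (3, false)],
   [(6, false), (3, false), (6, true), (2, true), (3, true)],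
   [(7, false), (3, false), (5, false), (0, false), (7, true), (0, true), (5, true)],
   [(7, false), (5, false), (0, false), (2, false), (5, true), (2, true), (5, false), (2, true)]]

/-- the weights of the corners of the presentation for `n = 3` -/
def w3L : List (List ℕ) :=
  [[0, 2, 0],
   [0, 1, 1],
   [0, 1, 1],
   [1, 0, 1],
   [1, 1, 2, 0, 2],
   [1, 1, 1, 1, 2],
   [1, 1, 2, 2, 1, 1, 2],
   [1, 1, 2, 2, 2, 0, 2, 2]]

/-- the presentation for `n = 3` -/
def pr3 : Pres ℕ ℕ :=
  ⟨fun i => i < 8, fun i => (r3L.getD i []).length, fun i κ => (r3L.getD i []).getD κ (0, true),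
    fun i κ => (w3L.getD i []).getD κ 0⟩

def pr3E : List (ℕ × ℕ × ℕ) :=
  [(9, 10, 0), (11, 0, 2), (1, 8, 0), (7, 8, 0), (9, 2, 1), (3, 6, 1),
    (4, 6, 0), (7, 2, 1), (3, 5, 1), (2, 4, 1), (5, 0, 0), (1, 3, 1),
    (7, 12, 1), (13, 10, 1), (11, 0, 2), (1, 11, 0), (10, 6, 2), (6, 12, 1),
    (13, 6, 1), (7, 13, 1), (12, 5, 1), (4, 7, 2), (10, 14, 1), (15, 6, 1),
    (7, 10, 2), (11, 0, 2), (1, 15, 1), (14, 1, 1), (0, 11, 2), (4, 14, 1),
    (15, 10, 1), (11, 0, 2), (1, 4, 2), (5, 11, 2), (10, 5, 0), (4, 10, 2),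
    (11, 5, 2)]

def pr3P : List ℕ :=
  [1229799641659347744, 1229799366781440288, 3679795075780587842,
    1239336660028756738, 2459549447960469523, 1229801703212069154,
    1373916891288179490, 2459582304995057713, 1229799366781448480,
    1229801703212061474, 3689332386241458976, 2459582304995050033,
    2459019355041636913, 1238806566036181280, 1229799366781440288,
    3689294874531869506, 1229801703212060962, 2458984161576428049,
    1238808902466801954, 2450575105740317233, 1230362316734861600,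
    1229766509746852098, 2315434259884614163, 3535644712425754914,
    1229799366781440288, 1229799366781440288, 153739295781364273,
    1373881697822707970, 1229766509746852098, 2315431923453993489,
    3535642375995134240, 1229799366781440288, 1229801703212060962,
    1229766509746852098, 3688769436250149664, 1229799366781440288,
    1229799366781440288]

lemma pr3_mem (i : ℕ) (h : pr3.ok i) : i ∈ List.range 8 := List.mem_range.2 h

lemma pr3_edges : (pr3.cl (List.range 8)).map pr3.edge = pr3E := by decide +kernel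

lemma pr3_chk : chkOut pr3E 2 0 pr3E pr3P = true := by decide +kernel

theorem pr3_VC : pr3.VC 2 := Pres.VC_of_chk _ (List.range 8) pr3_mem _ pr3_edges _ _ pr3_chk

/-- the potential showing that powers of `e` are geodesic in the presentation for `n = 3` -/
def pr3F : ℕ := 1229799366781440288

lemma pr3F_chk : chkIn pr3F pr3E.length 0 pr3E = true := by decide +kernel

/-- the potential showing that powers of `b` are geodesic in the presentation for `n = 4` -/
def fam4F : ℕ := 3607984876959105825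

lemma fam4F_chk : chkIn fam4F famE4.length 0 famE4 = true := by decide +kernel

lemma pr3_face (i : ℕ) (hi : pr3.ok i) :
    ∑ κ ∈ Finset.range (pr3.ln i), pr3.th i κ + 2 * 2 ≤ 2 * pr3.ln i := by
  have h : i < 8 := hi
  interval_cases i <;> decide

lemma pr3_ln_pos (i : ℕ) (hi : pr3.ok i) : 0 < pr3.ln i := by
  have h : i < 8 := hi
  interval_cases i <;> decide

lemma fam4_face (i : RI) (hi : fam4.ok i) :
    ∑ κ ∈ Finset.range (fam4.ln i), fam4.th i κ + 2 * 3 ≤ 3 * fam4.ln i := by
  cases i with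
  | SU k =>
    show ∑ κ ∈ Finset.range 4, s4 2 1 2 1 κ + 2 * 3 ≤ 3 * 4
    decide
  | SV k =>
    show ∑ κ ∈ Finset.range 4, s4 1 2 1 2 κ + 2 * 3 ≤ 3 * 4
    decide
  | _ => decide

lemma fam4_ln_pos (i : RI) : 0 < fam4.ln i := by
  cases i <;> simp [fam4, fln]

theorem pr3_e (k : ℕ) (hk : 0 < k) : pr3.gen 4 ^ k ≠ 1 := by
  apply Pres.gen_pow_ne_one
  refine weight_test pr3 2 (by norm_num) pr3_ln_pos pr3_face pr3_VC _ ?_
    (fun x => (pv pr3F (cd x) : ℤ)) ?_ ?_
  · intro h
    have := congrArg List.length h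
    simp at this
    omega
  · intro c hc
    exact Pres.G_of_chk pr3 (List.range 8) pr3_mem pr3E pr3_edges pr3F pr3F_chk c hc
  · intro a ha b hb
    rw [List.eq_of_mem_replicate ha, List.eq_of_mem_replicate hb]
    have : ((2 : ℕ) : ℤ) ≤ ((pv pr3F 8 : ℕ) : ℤ) - ((pv pr3F 9 : ℕ) : ℤ) := by decide +kernel
    exact this

theorem fam4_b (k : ℕ) (hk : 0 < k) : fam4.gen 1 ^ k ≠ 1 := by
  have : Nonempty RI := ⟨RI.T⟩
  apply Pres.gen_pow_ne_one
  refine weight_test fam4 3 (by norm_num) (fun i _ => fam4_ln_pos i) fam4_face fam_VC_4 _ ?_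
    (fun x => (pv fam4F (cd x) : ℤ)) ?_ ?_
  · intro h
    have := congrArg List.length h
    simp at this
    omega
  · intro c hc
    exact Pres.G_of_chk fam4 (allR 4) (mem_allR 4) famE4 fam_edges_4 fam4F fam4F_chk c hc
  · intro a ha b hb
    rw [List.eq_of_mem_replicate ha, List.eq_of_mem_replicate hb]
    have : ((3 : ℕ) : ℤ) ≤ ((pv fam4F 2 : ℕ) : ℤ) - ((pv fam4F 3 : ℕ) : ℤ) := by decide +kernel
    exact this

theorem fam_b (n : ℕ) (hn : 5 ≤ n) (k : ℕ) (hk : 0 < k) : (fam n).gen 1 ^ k ≠ 1 := by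
  have : Nonempty RI := ⟨RI.T⟩
  apply Pres.gen_pow_ne_one
  refine weight_test (fam n) 4 (by norm_num) (fun i _ => fam_ln_pos n i) (fam_face n hn)
    (fam_VC n hn) _ ?_ (gG n) (fam_G n hn) ?_
  · intro h
    have := congrArg List.length h
    simp at this
    omega
  · intro a ha b hb
    rw [List.eq_of_mem_replicate ha, List.eq_of_mem_replicate hb, li_mk, gG_1, gG_1]
    simp

section rels

variable {G : Type*} [Group G]

lemma prod_range3 (f : ℕ → G) : ((List.range 3).map f).prod = f 0 * f 1 * f 2 := by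
  simp [List.range_succ, mul_assoc]

lemma prod_range4 (f : ℕ → G) : ((List.range 4).map f).prod = f 0 * f 1 * f 2 * f 3 := by
  simp [List.range_succ, mul_assoc]

lemma prod_range5 (f : ℕ → G) : ((List.range 5).map f).prod = f 0 * f 1 * f 2 * f 3 * f 4 := by
  simp [List.range_succ, mul_assoc]

lemma prod_range7 (f : ℕ → G) :
    ((List.range 7).map f).prod = f 0 * f 1 * f 2 * f 3 * f 4 * f 5 * f 6 := by
  simp [List.range_succ, mul_assoc]

lemma prod_range8 (f : ℕ → G) :
    ((List.range 8).map f).prod = f 0 * f 1 * f 2 * f 3 * f 4 * f 5 * f 6 * f 7 := by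
  simp [List.range_succ, mul_assoc]

lemma prod_const (f : ℕ → G) (n s : ℕ) (b : G) (hb : ∀ κ, κ < n → f (s + κ) = b) :
    ((List.range n).map (fun κ => f (s + κ))).prod = b ^ n := by
  induction n with
  | zero => simp
  | succ n ih =>
    rw [List.range_succ, List.map_append, List.prod_append, ih (fun κ h => hb κ (by omega)),
      pow_succ]
    simp [hb n (by omega)]

lemma prod_LU (f : ℕ → G) (n : ℕ) (b : G) (hb : ∀ κ, 1 ≤ κ → κ < n + 1 → f κ = b) :
    ((List.range (n + 1 + 3)).map f).prod = f 0 * b ^ n * f (n + 1) * f (n + 2) * f (n + 3) := by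
  rw [List.range_succ, List.range_succ, List.range_succ]
  simp only [List.map_append, List.prod_append, List.map_cons, List.map_nil, List.prod_cons,
    List.prod_nil, mul_one]
  have h1 : ((List.range (n + 1)).map f).prod = f 0 * b ^ n := by
    rw [Nat.add_comm n 1, List.range_add, List.map_append, List.prod_append, List.map_map]
    have h2 : ((List.range n).map (f ∘ fun x => 1 + x)).prod = b ^ n :=
      prod_const f n 1 b (fun κ h => hb _ (by omega) (by omega))
    rw [h2]
    simp
  rw [h1]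

lemma prod_LV (f : ℕ → G) (n : ℕ) (c : G) (hc : ∀ κ, 4 ≤ κ → f κ = c) :
    ((List.range (4 + n)).map f).prod = f 0 * f 1 * f 2 * f 3 * c ^ n := by
  rw [List.range_add, List.map_append, List.prod_append, List.map_map]
  have h2 : ((List.range n).map (f ∘ fun x => 4 + x)).prod = c ^ n :=
    prod_const f n 4 c (fun κ h => hc _ (by omega))
  rw [h2, prod_range4]

end rels

/-- the presentation of the family with arbitrary weights -/
def famW (n : ℕ) (th : RI → ℕ → ℕ) : Pres ℕ RI := ⟨fok n, fln n, flt n, th⟩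

theorem famW_rel (N : ℕ) (th : RI → ℕ → ℕ) :
    (cm ((famW (N + 4) th).gen 1))^[N + 4] ((famW (N + 4) th).gen 2)⁻¹ =
        ((famW (N + 4) th).gen 2)⁻¹ ∧
      (cm ((famW (N + 4) th).gen 2)⁻¹)^[N + 4] ((famW (N + 4) th).gen 1) =
        (famW (N + 4) th).gen 1 := by
  set P := famW (N + 4) th with hP
  have hT : (P.gen 2)⁻¹ * (P.gen 0)⁻¹ * (P.gen 1)⁻¹ = 1 := by
    have h := P.rel_one' RI.T trivial
    rw [show P.ln RI.T = 3 from rfl, prod_range3] at h
    exact h
  have hS : (P.gen 3)⁻¹ * (P.gen 1)⁻¹ * (P.gen 0)⁻¹ * (P.gen 2)⁻¹ = 1 := by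
    have h := P.rel_one' RI.S0 trivial
    rw [show P.ln RI.S0 = 4 from rfl, prod_range4] at h
    exact h
  constructor
  · apply family_x (P.gen 0) (P.gen 1) (P.gen 2) (P.gen 3) (fun k => P.gen (ug k)) N hT hS rfl
    · intro k h1 h2
      have h := P.rel_one' (RI.SU k) ⟨h1, by omega⟩
      rw [show P.ln (RI.SU k) = 4 from rfl, prod_range4] at h
      exact h
    · have h := P.rel_one' RI.LU trivial
      rw [show P.ln RI.LU = N + 3 + 1 + 3 from rfl] at h
      rw [prod_LU _ (N + 3) (P.gen 1)⁻¹ (by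
        intro κ h1 h2
        show ev P.gen (flt (N + 4) .LU κ) = _
        rw [LU_b (N + 4) κ h1 (by omega)]
        rfl)] at h
      have e0 : ev P.gen (P.lt RI.LU 0) = (P.gen (ug (N + 3)))⁻¹ := rfl
      have e1 : ev P.gen (P.lt RI.LU (N + 3 + 1)) = P.gen (ug (N + 2)) := by
        show ev P.gen (flt (N + 4) .LU (N + 4)) = _
        rw [LU_n (N + 4) (by omega)]
        rfl
      have e2 : ev P.gen (P.lt RI.LU (N + 3 + 2)) = P.gen 1 := by
        show ev P.gen (flt (N + 4) .LU (N + 4 + 1)) = _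
        rw [LU_n1]
        rfl
      have e3 : ev P.gen (P.lt RI.LU (N + 3 + 3)) = (P.gen (ug (N + 2)))⁻¹ := by
        show ev P.gen (flt (N + 4) .LU (N + 4 + 2)) = _
        rw [LU_n2]
        rfl
      rw [e0, e1, e2, e3] at h
      exact h
    · have h := P.rel_one' RI.TU trivial
      rw [show P.ln RI.TU = 4 from rfl, prod_range4] at h
      exact h
  · apply family_y (P.gen 0) (P.gen 1) (P.gen 2) (P.gen 3) (fun k => P.gen (vg k)) N hT hS rfl
    · intro k h1 h2
      have h := P.rel_one' (RI.SV k) ⟨h1, by omega⟩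
      rw [show P.ln (RI.SV k) = 4 from rfl, prod_range4] at h
      exact h
    · have h := P.rel_one' RI.LV trivial
      rw [show P.ln RI.LV = 4 + (N + 3) by
        show N + 4 + 3 = 4 + (N + 3)
        omega] at h
      rw [prod_LV _ (N + 3) (P.gen 2)⁻¹ (by
        intro κ h1
        show ev P.gen (flt (N + 4) .LV κ) = _
        rw [LV_c (N + 4) κ h1]
        rfl)] at h
      exact h
    · have h := P.rel_one' RI.TV trivial
      rw [show P.ln RI.TV = 4 from rfl, prod_range4] at h
      exact h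

theorem pr3_rel :
    (cm (pr3.gen 4)⁻¹)^[3] (pr3.gen 3)⁻¹ = (pr3.gen 3)⁻¹ ∧
      (cm (pr3.gen 3)⁻¹)^[3] (pr3.gen 4)⁻¹ = (pr3.gen 4)⁻¹ := by
  have ok : ∀ i, i < 8 → pr3.ok i := fun i h => h
  have r0 := pr3.rel_one' 0 (ok 0 (by norm_num))
  have r1 := pr3.rel_one' 1 (ok 1 (by norm_num))
  have r2 := pr3.rel_one' 2 (ok 2 (by norm_num))
  have r3 := pr3.rel_one' 3 (ok 3 (by norm_num))
  have r4 := pr3.rel_one' 4 (ok 4 (by norm_num))
  have r5 := pr3.rel_one' 5 (ok 5 (by norm_num))
  have r6 := pr3.rel_one' 6 (ok 6 (by norm_num))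
  have r7 := pr3.rel_one' 7 (ok 7 (by norm_num))
  rw [show pr3.ln 0 = 3 from rfl, prod_range3] at r0
  rw [show pr3.ln 1 = 3 from rfl, prod_range3] at r1
  rw [show pr3.ln 2 = 3 from rfl, prod_range3] at r2
  rw [show pr3.ln 3 = 3 from rfl, prod_range3] at r3
  rw [show pr3.ln 4 = 5 from rfl, prod_range5] at r4
  rw [show pr3.ln 5 = 5 from rfl, prod_range5] at r5
  rw [show pr3.ln 6 = 7 from rfl, prod_range7] at r6
  rw [show pr3.ln 7 = 8 from rfl, prod_range8] at r7
  exact p3_xy (pr3.gen 0) (pr3.gen 1) (pr3.gen 2) (pr3.gen 3) (pr3.gen 4) (pr3.gen 5)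
    (pr3.gen 6) (pr3.gen 7) r0 r1 r2 r3 r4 r5 r6 r7

theorem main (n : ℕ) (hn : 2 < n) :
    Infinite (PresentedGroup
        ({(FreeGroup.of (0 : Fin 2))⁻¹ *
            Nat.iterate (fun w : FreeGroup (Fin 2) =>
              w⁻¹ * (FreeGroup.of (1 : Fin 2))⁻¹ * w * FreeGroup.of (1 : Fin 2)) n
              (FreeGroup.of (0 : Fin 2)),
          (FreeGroup.of (1 : Fin 2))⁻¹ *
            Nat.iterate (fun w : FreeGroup (Fin 2) =>
              w⁻¹ * (FreeGroup.of (0 : Fin 2))⁻¹ * w * FreeGroup.of (0 : Fin 2)) n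
              (FreeGroup.of (1 : Fin 2))} : Set (FreeGroup (Fin 2)))) := by
  rcases Nat.lt_or_ge n 4 with h | h
  · have : n = 3 := by omega
    subst this
    refine infinite_of_elements 3 (pr3.gen 3)⁻¹ (pr3.gen 4)⁻¹ pr3_rel.1 pr3_rel.2 ?_
    intro k hk h1
    rw [inv_pow, inv_eq_one] at h1
    exact pr3_e k hk h1
  · rcases Nat.lt_or_ge n 5 with h' | h'
    · have : n = 4 := by omega
      subst this
      have hr := famW_rel 0 fth4
      exact infinite_of_elements 4 (fam4.gen 2)⁻¹ (fam4.gen 1) hr.1 hr.2 (fun k hk => fam4_b k hk)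
    · obtain ⟨N, rfl⟩ : ∃ N, n = N + 4 := ⟨n - 4, by omega⟩
      have hr := famW_rel N (fth (N + 4))
      exact infinite_of_elements (N + 4) ((fam (N + 4)).gen 2)⁻¹ ((fam (N + 4)).gen 1) hr.1 hr.2
        (fun k hk => fam_b (N + 4) h' k hk)

end Pool.Agent.MPcf54d7
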