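import Pool.Agent.Lib.MP_cf54d7_al.Test

set_option autoImplicit false

namespace Pool.Agent.MPcf54d7

open FreeGroup

variable {α ι : Type*}

/-- the condition on closed reduced walks in the link -/
def Pres.VC (P : Pres α ι) (K : ℕ) : Prop :=
  ∀ (c : ℕ → ι × ℕ × Bool) (q : ℕ), 0 < q → (∀ t, c (t + q) = c t) →
      (∀ t, P.cok (c t)) → (∀ t, P.chead (c t) = P.ctail (c (t + 1))) →
      (∀ t, c (t + 1) ≠ cflip (c t)) →
      2 * K ≤ ∑ t ∈ Finset.range q, P.th (c t).1 (c t).2.1

lemma Pres.ctail_false (P : Pres α ι) (i : ι) (k : ℕ) :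
    P.ctail (i, k, false) = P.chead (i, k, true) := by simp [Pres.ctail, Pres.chead]

lemma Pres.chead_false (P : Pres α ι) (i : ι) (k : ℕ) :
    P.chead (i, k, false) = P.ctail (i, k, true) := by simp [Pres.ctail, Pres.chead]

lemma sum_shift_periodic (w : ℕ → ℕ) (q : ℕ) (hper : ∀ t, w (t + q) = w t) (s : ℕ) :
    ∑ t ∈ Finset.range q, w (s + t) = ∑ t ∈ Finset.range q, w t := by
  induction s with
  | zero => simp
  | succ s ih =>
    rw [← ih]
    have e1 := Finset.sum_range_succ (fun t => w (s + t)) q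
    have e2 := Finset.sum_range_succ' (fun t => w (s + t)) q
    have e3 : w (s + q) = w (s + 0) := by rw [hper]; rfl
    have e4 : ∑ t ∈ Finset.range q, w (s + 1 + t) = ∑ t ∈ Finset.range q, w (s + (t + 1)) := by
      apply Finset.sum_congr rfl
      intro t _
      congr 1
      omega
    omega

theorem Pres.VC_of_pot (P : Pres α ι) (K : ℕ)
    (hpot : ∀ i κ, P.ok i → κ < P.ln i → ∃ f : α × Bool → ℤ,
      (∀ i' κ', P.ok i' → κ' < P.ln i' → (i', κ') ≠ (i, κ) →
        f (P.chead (i', κ', true)) - f (P.ctail (i', κ', true)) ≤ P.th i' κ' ∧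
        f (P.ctail (i', κ', true)) - f (P.chead (i', κ', true)) ≤ P.th i' κ') ∧
      2 * (K : ℤ) - P.th i κ ≤ f (P.ctail (i, κ, true)) - f (P.chead (i, κ, true))) :
    P.VC K := by
  classical
  intro c q hq hper hcok hnode hred
  have hpot' : ∀ e, P.cok e → ∃ f : α × Bool → ℤ,
      (∀ c, P.cok c → (c.1, c.2.1) ≠ (e.1, e.2.1) →
        f (P.chead c) - f (P.ctail c) ≤ P.th c.1 c.2.1) ∧
      2 * (K : ℤ) - P.th e.1 e.2.1 ≤ f (P.ctail e) - f (P.chead e) := by
    rintro ⟨i, κ, ε⟩ ⟨h1, h2⟩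
    obtain ⟨f, hf1, hf2⟩ := hpot i κ h1 h2
    cases ε
    · refine ⟨fun x => - f x, ?_, ?_⟩
      · rintro ⟨i', κ', ε'⟩ ⟨h3, h4⟩ hne
        obtain ⟨h5, h6⟩ := hf1 i' κ' h3 h4 hne
        cases ε'
        · rw [P.chead_false, P.ctail_false]; linarith
        · linarith
      · rw [P.chead_false, P.ctail_false]; linarith
    · refine ⟨f, ?_, hf2⟩
      rintro ⟨i', κ', ε'⟩ ⟨h3, h4⟩ hne
      obtain ⟨h5, h6⟩ := hf1 i' κ' h3 h4 hne
      cases ε'
      · rw [P.chead_false, P.ctail_false]; linarith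
      · linarith
  -- minimal closed window
  have hex : ∃ m, ∃ s, P.ctail (c s) = P.ctail (c (s + (m + 1))) := by
    refine ⟨q - 1, 0, ?_⟩
    have : 0 + (q - 1 + 1) = 0 + q := by omega
    rw [this, hper]
  obtain ⟨m, ⟨s, hs⟩, hmin⟩ : ∃ m, (∃ s, P.ctail (c s) = P.ctail (c (s + (m + 1)))) ∧
      ∀ m' < m, ¬ ∃ s, P.ctail (c s) = P.ctail (c (s + (m' + 1))) :=
    ⟨Nat.find hex, Nat.find_spec hex, fun m' hm' => Nat.find_min hex hm'⟩
  have hmq : m + 1 ≤ q := by
    by_contra hcon
    apply hmin (q - 1) (by omega)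
    refine ⟨0, ?_⟩
    have : 0 + (q - 1 + 1) = 0 + q := by omega
    rw [this, hper]
  obtain ⟨f, hf1, hf2⟩ := hpot' (c s) (hcok s)
  -- the first corner is used only once in the window
  have honce : ∀ r, r < m → ((c (s + 1 + r)).1, (c (s + 1 + r)).2.1) ≠ ((c s).1, (c s).2.1) := by
    intro r hr heq
    rw [Prod.mk.injEq] at heq
    obtain ⟨h1, h2⟩ := heq
    by_cases hε : (c (s + 1 + r)).2.2 = (c s).2.2
    · have h3 : c (s + 1 + r) = c s := by
        rw [Prod.ext_iff, Prod.ext_iff]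
        exact ⟨h1, h2, hε⟩
      apply hmin r hr
      refine ⟨s, ?_⟩
      have : s + (r + 1) = s + 1 + r := by omega
      rw [this, h3]
    · have h3 : c (s + 1 + r) = cflip (c s) := by
        rw [Prod.ext_iff, Prod.ext_iff]
        refine ⟨h1, h2, ?_⟩
        show (c (s + 1 + r)).2.2 = !(c s).2.2
        cases h5 : (c (s + 1 + r)).2.2 <;> cases h6 : (c s).2.2 <;> simp_all
      cases r with
      | zero => exact hred s h3
      | succ r =>
        apply hmin r (by omega)
        refine ⟨s + 1, ?_⟩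
        have e1 : s + 1 + (r + 1) = s + 1 + (r + 1) := rfl
        rw [← hnode s]
        have e2 : P.ctail (c (s + 1 + (r + 1))) = P.chead (c s) := by
          rw [h3]
          obtain ⟨i, κ, ε⟩ := c s
          cases ε
          · exact (P.chead_false i κ).symm
          · exact P.ctail_false i κ
        rw [e2]
  have hwalk : ∀ r, r ≤ m → f (P.ctail (c (s + 1 + r))) - f (P.ctail (c (s + 1))) ≤
      ((∑ t ∈ Finset.range r, P.th (c (s + 1 + t)).1 (c (s + 1 + t)).2.1 : ℕ) : ℤ) := by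
    intro r
    induction r with
    | zero => intro _; simp
    | succ r ih =>
      intro hr
      have h1 := ih (by omega)
      have h2 := hf1 _ (hcok (s + 1 + r)) (honce r (by omega))
      rw [hnode (s + 1 + r)] at h2
      rw [Finset.sum_range_succ]
      push_cast at h1 ⊢
      have e : s + 1 + (r + 1) = s + 1 + r + 1 := by omega
      rw [e]
      linarith
  have hw := hwalk m le_rfl
  have e1 : s + 1 + m = s + (m + 1) := by omega
  rw [e1, ← hs, ← hnode s] at hw
  have hfin : 2 * K ≤ ∑ t ∈ Finset.range (m + 1), P.th (c (s + t)).1 (c (s + t)).2.1 := by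
    rw [Finset.sum_range_succ']
    have e2 : ∑ t ∈ Finset.range m, P.th (c (s + (t + 1))).1 (c (s + (t + 1))).2.1 =
        ∑ t ∈ Finset.range m, P.th (c (s + 1 + t)).1 (c (s + 1 + t)).2.1 := by
      apply Finset.sum_congr rfl
      intro t _
      have : s + (t + 1) = s + 1 + t := by omega
      rw [this]
    rw [e2]
    have h7 : (2 * K : ℤ) ≤
        ((∑ t ∈ Finset.range m, P.th (c (s + 1 + t)).1 (c (s + 1 + t)).2.1 : ℕ) : ℤ) +
          P.th (c s).1 (c s).2.1 := by
      linarith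
    have h8 : c (s + 0) = c s := rfl
    rw [h8]
    exact_mod_cast h7
  have hshift := sum_shift_periodic (fun t => P.th (c t).1 (c t).2.1) q
    (fun t => by simp only [hper]) s
  rw [← hshift]
  refine le_trans hfin ?_
  apply Finset.sum_le_sum_of_subset
  intro r hr
  rw [Finset.mem_range] at hr ⊢
  omega

end Pool.Agent.MPcf54d7
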