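import Pool.Agent.Lib.MP_cf54d7_al.Grp

set_option autoImplicit false

namespace Pool.Agent.MPcf54d7

/-- the commutator `[w, a]` as a function of `w` -/
def cm {G : Type*} [Group G] (a w : G) : G := w⁻¹ * a⁻¹ * w * a

section family

variable {G : Type*} [Group G]

theorem family_x (A B C I : G) (U : ℕ → G) (N : ℕ) (hT : C⁻¹ * A⁻¹ * B⁻¹ = 1)
    (hS : I⁻¹ * B⁻¹ * A⁻¹ * C⁻¹ = 1) (hU1 : U 1 = I)
    (hU : ∀ k, 1 ≤ k → k ≤ N + 1 → (U (k + 1))⁻¹ * U k * B * (U k)⁻¹ = 1)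
    (hLU : (U (N + 3))⁻¹ * (B⁻¹) ^ (N + 3) * U (N + 2) * B * (U (N + 2))⁻¹ = 1)
    (hTU : A * U (N + 3) * B * (U (N + 3))⁻¹ = 1) : (cm B)^[N + 4] C⁻¹ = C⁻¹ := by
  have hA : A = B⁻¹ * C⁻¹ := by
    calc A = B⁻¹ * (C⁻¹ * A⁻¹ * B⁻¹)⁻¹ * C⁻¹ := by group
      _ = B⁻¹ * C⁻¹ := by rw [hT]; group
  have hI : I = B⁻¹ * A⁻¹ * C⁻¹ := by
    calc I = B⁻¹ * A⁻¹ * C⁻¹ * (I⁻¹ * B⁻¹ * A⁻¹ * C⁻¹)⁻¹ := by group
      _ = B⁻¹ * A⁻¹ * C⁻¹ := by rw [hS]; group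
  have hUs : ∀ k, 1 ≤ k → k ≤ N + 1 → U (k + 1) = U k * B * (U k)⁻¹ := by
    intro k h1 h2
    have h := hU k h1 h2
    calc U (k + 1) = U k * B * (U k)⁻¹ * ((U (k + 1))⁻¹ * U k * B * (U k)⁻¹)⁻¹ := by group
      _ = U k * B * (U k)⁻¹ := by rw [h]; group
  have hL : U (N + 2) * B * (U (N + 2))⁻¹ = B ^ (N + 3) * U (N + 3) := by
    calc U (N + 2) * B * (U (N + 2))⁻¹ = B ^ (N + 3) * U (N + 3) *
          ((U (N + 3))⁻¹ * (B⁻¹) ^ (N + 3) * U (N + 2) * B * (U (N + 2))⁻¹) := by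
            rw [inv_pow]; group
      _ = _ := by rw [hLU, mul_one]
  have hA2 : A = U (N + 3) * B⁻¹ * (U (N + 3))⁻¹ := by
    calc A = (A * U (N + 3) * B * (U (N + 3))⁻¹) * (U (N + 3) * B⁻¹ * (U (N + 3))⁻¹) := by group
      _ = _ := by rw [hTU, one_mul]
  have hstep : ∀ j, j ≤ N → (cm B)^[j + 2] C⁻¹ = (B ^ j)⁻¹ * (U (j + 2))⁻¹ * B ^ (j + 1) := by
    intro j
    induction j with
    | zero =>
      intro _
      have h2 := hUs 1 le_rfl (by omega)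
      show cm B (cm B C⁻¹) = _
      have e : cm B C⁻¹ = I⁻¹ := by
        rw [hI, hA]; unfold cm; group
      rw [e]
      have h3 : U (0 + 2) = I * B * I⁻¹ := by
        rw [← hU1]; exact h2
      rw [h3]
      unfold cm
      group
    | succ j ih =>
      intro hj
      have h1 := ih (by omega)
      have h2 : U (j + 1 + 2) = U (j + 2) * B * (U (j + 2))⁻¹ := hUs (j + 2) (by omega) (by omega)
      have h3 : j + 1 + 2 = (j + 2) + 1 := by omega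
      rw [h2, h3, Function.iterate_succ_apply', h1]
      unfold cm
      group
  have h2 := hstep N le_rfl
  have h3 : (cm B)^[N + 3] C⁻¹ = (B ^ (N + 1))⁻¹ * (U (N + 3))⁻¹ * B⁻¹ := by
    rw [Function.iterate_succ_apply', h2]
    calc cm B ((B ^ N)⁻¹ * (U (N + 2))⁻¹ * B ^ (N + 1))
        = (B ^ (N + 1))⁻¹ * (U (N + 2) * B * (U (N + 2))⁻¹)⁻¹ * B ^ (N + 2) := by
          unfold cm; group
      _ = _ := by rw [hL]; group
  rw [Function.iterate_succ_apply', h3]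
  calc cm B ((B ^ (N + 1))⁻¹ * (U (N + 3))⁻¹ * B⁻¹)
      = B * (U (N + 3) * B⁻¹ * (U (N + 3))⁻¹) := by unfold cm; group
    _ = B * A := by rw [← hA2]
    _ = C⁻¹ := by rw [hA]; group

theorem family_y (A B C I : G) (V : ℕ → G) (N : ℕ) (hT : C⁻¹ * A⁻¹ * B⁻¹ = 1)
    (hS : I⁻¹ * B⁻¹ * A⁻¹ * C⁻¹ = 1) (hV1 : V 1 = I)
    (hV : ∀ k, 1 ≤ k → k ≤ N + 1 → (V (k + 1))⁻¹ * (V k)⁻¹ * C * V k = 1)
    (hLV : (V (N + 3))⁻¹ * (V (N + 2))⁻¹ * C * V (N + 2) * (C⁻¹) ^ (N + 3) = 1)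
    (hTV : A * (V (N + 3))⁻¹ * C * V (N + 3) = 1) : (cm C⁻¹)^[N + 4] B = B := by
  have hA : A = B⁻¹ * C⁻¹ := by
    calc A = B⁻¹ * (C⁻¹ * A⁻¹ * B⁻¹)⁻¹ * C⁻¹ := by group
      _ = B⁻¹ * C⁻¹ := by rw [hT]; group
  have hI : I = B⁻¹ * A⁻¹ * C⁻¹ := by
    calc I = B⁻¹ * A⁻¹ * C⁻¹ * (I⁻¹ * B⁻¹ * A⁻¹ * C⁻¹)⁻¹ := by group
      _ = B⁻¹ * A⁻¹ * C⁻¹ := by rw [hS]; group
  have hVs : ∀ k, 1 ≤ k → k ≤ N + 1 → V (k + 1) = (V k)⁻¹ * C * V k := by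
    intro k h1 h2
    have h := hV k h1 h2
    calc V (k + 1) = (V k)⁻¹ * C * V k * ((V (k + 1))⁻¹ * (V k)⁻¹ * C * V k)⁻¹ := by group
      _ = (V k)⁻¹ * C * V k := by rw [h]; group
  have hL : (V (N + 2))⁻¹ * C * V (N + 2) = V (N + 3) * C ^ (N + 3) := by
    calc (V (N + 2))⁻¹ * C * V (N + 2) = V (N + 3) *
          ((V (N + 3))⁻¹ * (V (N + 2))⁻¹ * C * V (N + 2) * (C⁻¹) ^ (N + 3)) * C ^ (N + 3) := by
            rw [inv_pow]; group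
      _ = _ := by rw [hLV, mul_one]
  have hA2 : A⁻¹ = (V (N + 3))⁻¹ * C * V (N + 3) := by
    calc A⁻¹ = A⁻¹ * (A * (V (N + 3))⁻¹ * C * V (N + 3)) := by rw [hTV, mul_one]
      _ = _ := by group
  have hstep : ∀ j, j ≤ N → (cm C⁻¹)^[j + 2] B = C ^ j * V (j + 2) * (C ^ (j + 1))⁻¹ := by
    intro j
    induction j with
    | zero =>
      intro _
      have h2 := hVs 1 le_rfl (by omega)
      show cm C⁻¹ (cm C⁻¹ B) = _
      have e : cm C⁻¹ B = I := by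
        rw [hI, hA]; unfold cm; group
      rw [e]
      have h3 : V (0 + 2) = I⁻¹ * C * I := by
        rw [← hV1]; exact h2
      rw [h3]
      unfold cm
      group
    | succ j ih =>
      intro hj
      have h1 := ih (by omega)
      have h2 : V (j + 1 + 2) = (V (j + 2))⁻¹ * C * V (j + 2) :=
        hVs (j + 2) (by omega) (by omega)
      have h3 : j + 1 + 2 = (j + 2) + 1 := by omega
      rw [h2, h3, Function.iterate_succ_apply', h1]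
      unfold cm
      group
  have h2 := hstep N le_rfl
  have h3 : (cm C⁻¹)^[N + 3] B = C ^ (N + 1) * V (N + 3) * C := by
    rw [Function.iterate_succ_apply', h2]
    calc cm C⁻¹ (C ^ N * V (N + 2) * (C ^ (N + 1))⁻¹)
        = C ^ (N + 1) * ((V (N + 2))⁻¹ * C * V (N + 2)) * (C ^ (N + 2))⁻¹ := by
          unfold cm; group
      _ = _ := by rw [hL]; group
  rw [Function.iterate_succ_apply', h3]
  calc cm C⁻¹ (C ^ (N + 1) * V (N + 3) * C)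
      = C⁻¹ * ((V (N + 3))⁻¹ * C * V (N + 3)) := by unfold cm; group
    _ = C⁻¹ * A⁻¹ := by rw [← hA2]
    _ = B := by rw [hA]; group

end family

section p3

variable {G : Type*} [Group G]

theorem p3_xy (A B C D E F P H : G) (r1 : F⁻¹ * A⁻¹ * E⁻¹ = 1) (r2 : E⁻¹ * B⁻¹ * D⁻¹ = 1)
    (r3 : D⁻¹ * B⁻¹ * C = 1) (r4 : C⁻¹ * A⁻¹ * B = 1) (r5 : P⁻¹ * F⁻¹ * A⁻¹ * F * D⁻¹ = 1)
    (r6 : P⁻¹ * D⁻¹ * P * C * D = 1) (r7 : H⁻¹ * D⁻¹ * F⁻¹ * A⁻¹ * H * A * F = 1)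
    (r8 : H⁻¹ * F⁻¹ * A⁻¹ * C⁻¹ * F * C * F⁻¹ * C = 1) :
    (cm E⁻¹)^[3] D⁻¹ = D⁻¹ ∧ (cm D⁻¹)^[3] E⁻¹ = E⁻¹ := by
  have hB : B = D⁻¹ * E⁻¹ := by
    calc B = D⁻¹ * (E⁻¹ * B⁻¹ * D⁻¹)⁻¹ * E⁻¹ := by group
      _ = D⁻¹ * E⁻¹ := by rw [r2]; group
  have hC : C = B * D := by
    calc C = B * D * (D⁻¹ * B⁻¹ * C) := by group
      _ = B * D := by rw [r3, mul_one]
  have hA : A = B * C⁻¹ := by
    calc A = B * (C⁻¹ * A⁻¹ * B)⁻¹ * C⁻¹ := by group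
      _ = B * C⁻¹ := by rw [r4]; group
  have hF : F = A⁻¹ * E⁻¹ := by
    calc F = A⁻¹ * E⁻¹ * (F⁻¹ * A⁻¹ * E⁻¹)⁻¹ := by group
      _ = A⁻¹ * E⁻¹ := by rw [r1]; group
  have hP : P = F⁻¹ * A⁻¹ * F * D⁻¹ := by
    calc P = F⁻¹ * A⁻¹ * F * D⁻¹ * (P⁻¹ * F⁻¹ * A⁻¹ * F * D⁻¹)⁻¹ := by group
      _ = _ := by rw [r5]; group
  have hH : H = F⁻¹ * A⁻¹ * C⁻¹ * F * C * F⁻¹ * C := by
    calc H = F⁻¹ * A⁻¹ * C⁻¹ * F * C * F⁻¹ * C *
          (H⁻¹ * F⁻¹ * A⁻¹ * C⁻¹ * F * C * F⁻¹ * C)⁻¹ := by group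
      _ = _ := by rw [r8]; group
  have hK : P⁻¹ * D * P = C * D := by
    calc P⁻¹ * D * P = P⁻¹ * D * P * (P⁻¹ * D⁻¹ * P * C * D) := by rw [r6, mul_one]
      _ = C * D := by group
  have hAF : A * F = E⁻¹ := by rw [hF]; group
  have hM : H * E * H⁻¹ = D⁻¹ * E := by
    have h1 : H⁻¹ * D⁻¹ * (A * F)⁻¹ * H * (A * F) = 1 := by
      rw [← r7]; group
    rw [hAF] at h1
    calc H * E * H⁻¹ = H * (H⁻¹ * D⁻¹ * E⁻¹⁻¹ * H * E⁻¹) * E * H⁻¹ := by rw [h1, mul_one]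
      _ = D⁻¹ * E := by group
  constructor
  · show cm E⁻¹ (cm E⁻¹ (cm E⁻¹ D⁻¹)) = D⁻¹
    have e1 : cm E⁻¹ (cm E⁻¹ (cm E⁻¹ D⁻¹)) = H * E * H⁻¹ * E⁻¹ := by
      rw [hH, hF, hA, hC, hB]; unfold cm
      simp only [mul_inv_rev, inv_inv, mul_assoc, mul_inv_cancel_left, inv_mul_cancel_left,
        mul_inv_cancel, inv_mul_cancel, mul_one, one_mul]
    rw [e1, hM]; group
  · show cm D⁻¹ (cm D⁻¹ (cm D⁻¹ E⁻¹)) = E⁻¹
    have e2 : cm D⁻¹ (cm D⁻¹ (cm D⁻¹ E⁻¹)) = D * (P⁻¹ * D * P) * D⁻¹ * D⁻¹ := by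
      rw [hP, hF, hA, hC, hB]; unfold cm
      simp only [mul_inv_rev, inv_inv, mul_assoc, mul_inv_cancel_left, inv_mul_cancel_left,
        mul_inv_cancel, inv_mul_cancel, mul_one, one_mul]
    rw [e2, hK, hC, hB]; group

end p3

section final

lemma hom_iter {G : Type*} [Group G] (φ : FreeGroup (Fin 2) →* G) (a b : FreeGroup (Fin 2))
    (n : ℕ) : φ ((fun w : FreeGroup (Fin 2) => w⁻¹ * a⁻¹ * w * a)^[n] b) =
      (cm (φ a))^[n] (φ b) := by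
  induction n with
  | zero => rfl
  | succ n ih =>
    rw [Function.iterate_succ_apply', Function.iterate_succ_apply', ← ih]
    simp only [cm, _root_.map_mul, _root_.map_inv]

theorem infinite_of_elements {G : Type*} [Group G] (n : ℕ) (X Y : G)
    (hx : (cm Y)^[n] X = X) (hy : (cm X)^[n] Y = Y) (hord : ∀ k, 0 < k → Y ^ k ≠ 1) :
    Infinite (PresentedGroup
        ({(FreeGroup.of (0 : Fin 2))⁻¹ *
            Nat.iterate (fun w : FreeGroup (Fin 2) =>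
              w⁻¹ * (FreeGroup.of (1 : Fin 2))⁻¹ * w * FreeGroup.of (1 : Fin 2)) n
              (FreeGroup.of (0 : Fin 2)),
          (FreeGroup.of (1 : Fin 2))⁻¹ *
            Nat.iterate (fun w : FreeGroup (Fin 2) =>
              w⁻¹ * (FreeGroup.of (0 : Fin 2))⁻¹ * w * FreeGroup.of (0 : Fin 2)) n
              (FreeGroup.of (1 : Fin 2))} : Set (FreeGroup (Fin 2)))) := by
  let f : Fin 2 → G := ![X, Y]
  have f0 : FreeGroup.lift f (FreeGroup.of 0) = X := by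
    rw [FreeGroup.lift_apply_of]; rfl
  have f1 : FreeGroup.lift f (FreeGroup.of 1) = Y := by
    rw [FreeGroup.lift_apply_of]; rfl
  have hrel : ∀ r ∈ ({(FreeGroup.of (0 : Fin 2))⁻¹ *
            Nat.iterate (fun w : FreeGroup (Fin 2) =>
              w⁻¹ * (FreeGroup.of (1 : Fin 2))⁻¹ * w * FreeGroup.of (1 : Fin 2)) n
              (FreeGroup.of (0 : Fin 2)),
          (FreeGroup.of (1 : Fin 2))⁻¹ *
            Nat.iterate (fun w : FreeGroup (Fin 2) =>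
              w⁻¹ * (FreeGroup.of (0 : Fin 2))⁻¹ * w * FreeGroup.of (0 : Fin 2)) n
              (FreeGroup.of (1 : Fin 2))} : Set (FreeGroup (Fin 2))),
      FreeGroup.lift f r = 1 := by
    intro r hr
    rcases hr with rfl | hr
    · rw [_root_.map_mul, _root_.map_inv, hom_iter, f0, f1, hx, inv_mul_cancel]
    · rw [Set.mem_singleton_iff] at hr
      subst hr
      rw [_root_.map_mul, _root_.map_inv, hom_iter, f0, f1, hy, inv_mul_cancel]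
  by_contra hinf
  rw [not_infinite_iff_finite] at hinf
  have hfin := isOfFinOrder_of_finite (PresentedGroup.of (1 : Fin 2) : PresentedGroup
        ({(FreeGroup.of (0 : Fin 2))⁻¹ *
            Nat.iterate (fun w : FreeGroup (Fin 2) =>
              w⁻¹ * (FreeGroup.of (1 : Fin 2))⁻¹ * w * FreeGroup.of (1 : Fin 2)) n
              (FreeGroup.of (0 : Fin 2)),
          (FreeGroup.of (1 : Fin 2))⁻¹ *
            Nat.iterate (fun w : FreeGroup (Fin 2) =>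
              w⁻¹ * (FreeGroup.of (0 : Fin 2))⁻¹ * w * FreeGroup.of (0 : Fin 2)) n
              (FreeGroup.of (1 : Fin 2))} : Set (FreeGroup (Fin 2))))
  obtain ⟨k, hk, hk1⟩ := isOfFinOrder_iff_pow_eq_one.1 hfin
  apply hord k hk
  have h2 := congrArg (PresentedGroup.toGroup hrel) hk1
  rw [_root_.map_pow, PresentedGroup.toGroup.of, _root_.map_one] at h2
  exact h2

end final

end Pool.Agent.MPcf54d7
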