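import Pool.Agent.Lib.MP_cf54d7_al.Exist

set_option autoImplicit false

namespace Pool.Agent.MPcf54d7

open FreeGroup

lemma mod_succ {k L : ℕ} (h : k < L) : (k + 1) % L = if k + 1 = L then 0 else k + 1 := by
  split_ifs with h1
  · rw [h1, Nat.mod_self]
  · exact Nat.mod_eq_of_lt (by omega)

lemma mod_pred {k L : ℕ} (h : k < L) : (k + L - 1) % L = if k = 0 then L - 1 else k - 1 := by
  split_ifs with h1
  · subst h1
    rw [Nat.zero_add]
    exact Nat.mod_eq_of_lt (by omega)
  · have : k + L - 1 = (k - 1) + L := by omega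
    rw [this, Nat.add_mod_right]
    exact Nat.mod_eq_of_lt (by omega)

lemma mod_neg {k L : ℕ} (h : k < L) : (L - k) % L = if k = 0 then 0 else L - k := by
  split_ifs with h1
  · subst h1
    simp
  · exact Nat.mod_eq_of_lt (by omega)

section path
variable {nu : Dart → ℕ} {al : Dart → Dart}

lemma path_getElem_zero {l : List ℕ} {s t : ℕ} (h : Path nu al l s t) (h0 : 0 < l.length) :
    nu (.inl l[0]) = s := by
  cases l with
  | nil => simp at h0
  | cons i l => exact h.1

lemma path_getElem_succ {l : List ℕ} {s t : ℕ} (h : Path nu al l s t) (m : ℕ)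
    (hm : m + 1 < l.length) : nu (.inl l[m + 1]) = nu (al (.inl l[m])) := by
  induction l generalizing s m with
  | nil => simp at hm
  | cons i l ih =>
    cases m with
    | zero =>
      simp only [List.getElem_cons_succ, List.getElem_cons_zero]
      exact path_getElem_zero h.2 (by simpa using hm)
    | succ m =>
      simp only [List.getElem_cons_succ]
      exact ih h.2 m (by simpa using hm)

lemma path_getElem_last {l : List ℕ} {s t : ℕ} (h : Path nu al l s t) (m : ℕ)
    (hm : m + 1 = l.length) : nu (al (.inl (l[m]'(by omega)))) = t := by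
  induction l generalizing s m with
  | nil => simp at hm
  | cons i l ih =>
    cases m with
    | zero =>
      simp only [List.getElem_cons_zero]
      have : l = [] := by
        simp only [List.length_cons] at hm
        exact List.length_eq_zero_iff.1 (by omega)
      subst this
      exact h.2
    | succ m =>
      simp only [List.getElem_cons_succ]
      exact ih h.2 m (by simpa using hm)

lemma path_cyc {l : List ℕ} {s : ℕ} (h : Path nu al l s s) (m : ℕ) (hm : m < l.length) :
    nu (.inl (l[(m + 1) % l.length]'(Nat.mod_lt _ (by omega)))) = nu (al (.inl l[m])) := by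
  by_cases h1 : m + 1 = l.length
  · have h2 : (m + 1) % l.length = 0 := by rw [h1, Nat.mod_self]
    simp only [h2]
    rw [path_getElem_zero h (by omega), path_getElem_last h m h1]
  · have h2 : (m + 1) % l.length = m + 1 := Nat.mod_eq_of_lt (by omega)
    simp only [h2]
    exact path_getElem_succ h m (by omega)

end path

variable {α : Type*}

/-- the next dart along a face -/
def Dat.nx (D : Dat α) : Dart → Dart
  | .inl i => .inl (D.O.formPerm i)
  | .inr (j, k) => .inr (j, (k + 1) % (D.fw j).length)

section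
variable {D : Dat α} {RW : Set (List (α × Bool))} {W : List (α × Bool)} {N : ℕ}

lemma Dat.nx_valid (D : Dat α) (N : ℕ) (x : Dart) (hx : D.valid N x) : D.valid N (D.nx x) := by
  rcases x with i | ⟨j, k⟩
  · exact List.formPerm_apply_mem_of_mem hx
  · exact ⟨hx.1, Nat.mod_lt _ (lt_of_le_of_lt (Nat.zero_le _) hx.2)⟩

lemma Dat.nx_inj (D : Dat α) (N : ℕ) (x y : Dart) (hx : D.valid N x) (hy : D.valid N y)
    (h : D.nx x = D.nx y) : x = y := by
  rcases x with i | ⟨j, k⟩ <;> rcases y with i' | ⟨j', k'⟩
  · simp only [Dat.nx, Sum.inl.injEq] at h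
    rw [(D.O.formPerm).injective h]
  · simp [Dat.nx] at h
  · simp [Dat.nx] at h
  · simp only [Dat.nx, Sum.inr.injEq, Prod.mk.injEq] at h
    obtain ⟨h1, h2⟩ := h
    subst h1
    rw [mod_succ hx.2, mod_succ hy.2] at h2
    have hx2 := hx.2
    have hy2 := hy.2
    have : k = k' := by
      split_ifs at h2 <;> omega
    rw [this]

lemma Good.nu_nx (hD : Good RW W N D) (x : Dart) (hx : D.valid N x) :
    D.nu (D.nx x) = D.nu (D.al x) := by
  rcases x with i | ⟨j, k⟩
  · obtain ⟨m, hm, rfl⟩ := List.getElem_of_mem (show i ∈ D.O from hx)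
    show D.nu (.inl (D.O.formPerm D.O[m])) = _
    rw [List.formPerm_apply_getElem _ hD.hO m hm]
    exact path_cyc hD.path m hm
  · exact hD.disc j k hx.1 hx.2

/-- the valid darts as a finite set -/
def Dat.darts (D : Dat α) (N : ℕ) : Finset Dart :=
  D.O.toFinset.disjSum ((Finset.range N).biUnion
    (fun j => (Finset.range (D.fw j).length).image (fun k => (j, k))))

lemma Dat.mem_darts (D : Dat α) (N : ℕ) (x : Dart) : x ∈ D.darts N ↔ D.valid N x := by
  rcases x with i | ⟨j, k⟩
  · simp [Dat.darts, Dat.valid]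
  · simp only [Dat.darts, Dat.valid, Finset.inr_mem_disjSum, Finset.mem_biUnion,
      Finset.mem_image, Finset.mem_range, Prod.mk.injEq]
    constructor
    · rintro ⟨a, ha, b, hb, rfl, rfl⟩
      exact ⟨ha, hb⟩
    · rintro ⟨h1, h2⟩
      exact ⟨j, h1, k, h2, rfl, rfl⟩

lemma Dat.sum_darts (D : Dat α) (N : ℕ) (hO : D.O.Nodup) (K : ℕ) (w : ℕ → ℕ → ℕ) :
    ∑ x ∈ D.darts N, Sum.elim (fun _ => K) (fun p => w p.1 p.2) x =
      K * D.O.length + ∑ j ∈ Finset.range N, ∑ k ∈ Finset.range (D.fw j).length, w j k := by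
  rw [Dat.darts, Finset.sum_disjSum]
  congr 1
  · simp only [Sum.elim_inl, Finset.sum_const, smul_eq_mul]
    rw [List.toFinset_card_of_nodup hO, mul_comm]
  · simp only [Sum.elim_inr]
    rw [Finset.sum_finset_product (s := Finset.range N)
      (t := fun j => Finset.range (D.fw j).length)]
    intro p
    simp only [Finset.mem_biUnion, Finset.mem_image, Finset.mem_range]
    constructor
    · rintro ⟨a, ha, b, hb, rfl⟩
      exact ⟨ha, hb⟩
    · rintro ⟨h1, h2⟩
      exact ⟨p.1, h1, p.2, h2, rfl⟩

/-- the rotation around vertices -/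
def Good.rot (hD : Good RW W N D) (x : {x // D.valid N x}) : {x // D.valid N x} :=
  ⟨D.nx (D.al x.1), D.nx_valid N _ (hD.al_valid _ x.2)⟩

lemma Good.rot_inj (hD : Good RW W N D) : Function.Injective hD.rot := by
  intro x y h
  have h1 : D.nx (D.al x.1) = D.nx (D.al y.1) := congrArg Subtype.val h
  have h2 := D.nx_inj N _ _ (hD.al_valid _ x.2) (hD.al_valid _ y.2) h1
  apply Subtype.ext
  rw [← hD.al_al _ x.2, ← hD.al_al _ y.2, h2]

lemma Good.nu_rot (hD : Good RW W N D) (x : {x // D.valid N x}) :
    D.nu (hD.rot x).1 = D.nu x.1 := by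
  show D.nu (D.nx (D.al x.1)) = _
  rw [hD.nu_nx _ (hD.al_valid _ x.2), hD.al_al _ x.2]

lemma Good.nu_rot_iter (hD : Good RW W N D) (x : {x // D.valid N x}) (t : ℕ) :
    D.nu (hD.rot^[t] x).1 = D.nu x.1 := by
  induction t with
  | zero => rfl
  | succ t ih => rw [Function.iterate_succ_apply', hD.nu_rot, ih]

lemma Good.finite_valid (D : Dat α) (N : ℕ) : Finite {x // D.valid N x} := by
  have : {x | D.valid N x} = (D.darts N : Set Dart) := by
    ext x
    simp [D.mem_darts N x]
  have h2 : Set.Finite {x | D.valid N x} := by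
    rw [this]; exact Finset.finite_toSet _
  exact h2.to_subtype

/-- a rotation orbit has some period `q`, all of whose darts are distinct -/
lemma Good.exists_period (hD : Good RW W N D) (x : {x // D.valid N x}) (w : Dart → ℕ) :
    ∃ q, 0 < q ∧ hD.rot^[q] x = x ∧
      ∑ t ∈ Finset.range q, w (hD.rot^[t] x).1 ≤
        ∑ y ∈ (D.darts N).filter (fun y => D.nu y = D.nu x.1), w y := by
  have := Good.finite_valid D N
  have hp := Function.Injective.mem_periodicPts hD.rot_inj x
  refine ⟨Function.minimalPeriod hD.rot x, Function.minimalPeriod_pos_of_mem_periodicPts hp,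
    Function.iterate_minimalPeriod, ?_⟩
  have hinj := Function.iterate_injOn_Iio_minimalPeriod (f := hD.rot) (x := x)
  rw [← Finset.sum_image (s := Finset.range (Function.minimalPeriod hD.rot x))
    (g := fun t => (hD.rot^[t] x).1) (f := w)]
  · apply Finset.sum_le_sum_of_subset
    intro y hy
    simp only [Finset.mem_image, Finset.mem_range] at hy
    obtain ⟨t, _, rfl⟩ := hy
    rw [Finset.mem_filter]
    exact ⟨(D.mem_darts N _).2 (hD.rot^[t] x).2, hD.nu_rot_iter x t⟩
  · intro a ha b hb hab
    simp only [Finset.coe_range] at ha hb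
    exact hinj ha hb (Subtype.ext hab)

end

end Pool.Agent.MPcf54d7
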