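import Pool.Agent.Lib.MP_cf54d7_al.Rot

set_option autoImplicit false

namespace Pool.Agent.MPcf54d7

open FreeGroup

/-- a presentation with indexed relators and weights on the corners -/
structure Pres (α ι : Type*) where
  ok : ι → Prop
  ln : ι → ℕ
  lt : ι → ℕ → α × Bool
  th : ι → ℕ → ℕ

namespace Pres

variable {α ι : Type*} (P : Pres α ι)

/-- the relator with index `i` -/
def rel (i : ι) : List (α × Bool) := (List.range (P.ln i)).map (P.lt i)

/-- start node of a corner -/
def ctail (c : ι × ℕ × Bool) : α × Bool :=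
  if c.2.2 then li (P.lt c.1 ((c.2.1 + P.ln c.1 - 1) % P.ln c.1)) else P.lt c.1 c.2.1

/-- end node of a corner -/
def chead (c : ι × ℕ × Bool) : α × Bool :=
  if c.2.2 then P.lt c.1 c.2.1 else li (P.lt c.1 ((c.2.1 + P.ln c.1 - 1) % P.ln c.1))

/-- valid corner -/
def cok (c : ι × ℕ × Bool) : Prop := P.ok c.1 ∧ c.2.1 < P.ln c.1

/-- the words of the relators and of their inverses -/
def RW : Set (List (α × Bool)) := {w | ∃ i, P.ok i ∧ (w = P.rel i ∨ w = invRev (P.rel i))}

end Pres

/-- the reversed corner -/
def cflip {ι : Type*} (c : ι × ℕ × Bool) : ι × ℕ × Bool := (c.1, c.2.1, !c.2.2)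

section types

variable {α ι : Type*} (P : Pres α ι)

/-- signed relator word -/
def Pres.sw (P : Pres α ι) (p : ι × Bool) : List (α × Bool) :=
  if p.2 then P.rel p.1 else invRev (P.rel p.1)

lemma Pres.sw_length (p : ι × Bool) : (P.sw p).length = P.ln p.1 := by
  unfold Pres.sw
  split_ifs <;> simp [Pres.rel, invRev_length]

/-- the corner preceding the `k`th letter of the signed relator -/
def Pres.cid (P : Pres α ι) (p : ι × Bool) (k : ℕ) : ι × ℕ × Bool :=
  (p.1, if p.2 then k else (P.ln p.1 - k) % P.ln p.1, p.2)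

lemma Pres.cid_lt (p : ι × Bool) (k : ℕ) (hk : k < P.ln p.1) : (P.cid p k).2.1 < P.ln p.1 := by
  unfold Pres.cid
  show (if p.2 then k else (P.ln p.1 - k) % P.ln p.1) < P.ln p.1
  split_ifs
  · exact hk
  · exact Nat.mod_lt _ (by omega)

lemma rel_getElem (i : ι) (k : ℕ) (hk : k < (P.rel i).length) : (P.rel i)[k] = P.lt i k := by
  simp [Pres.rel]

lemma invRev_getElem {L : List (α × Bool)} (k : ℕ) (hk : k < (invRev L).length) :
    (invRev L)[k] = li (L[L.length - 1 - k]'(by rw [invRev_length] at hk; omega)) := by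
  simp [invRev, li]

lemma Pres.sw_head (p : ι × Bool) (k : ℕ) (hk : k < P.ln p.1) (d : α × Bool) :
    (P.sw p).getD k d = P.chead (P.cid p k) := by
  obtain ⟨i, ε⟩ := p
  have hk' : k < (P.sw (i, ε)).length := by rw [P.sw_length]; exact hk
  rw [List.getD_eq_getElem _ _ hk']
  cases ε
  · simp only [Pres.sw, Pres.cid, Pres.chead]
    simp only [Bool.false_eq_true, if_false]
    rw [invRev_getElem]
    have hl : (P.rel i).length = P.ln i := by simp [Pres.rel]
    simp only at hk
    rw [rel_getElem]
    congr 2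
    rw [mod_neg hk]
    split_ifs with h0
    · subst h0
      rw [mod_pred (show 0 < P.ln i by omega)]
      simp [hl]
    · rw [mod_pred (show P.ln i - k < P.ln i by omega)]
      rw [if_neg (by omega), hl]
      omega
  · simp only [Pres.sw, Pres.cid, Pres.chead]
    simp only [if_true]
    rw [rel_getElem]

lemma Pres.sw_tail (p : ι × Bool) (k : ℕ) (hk : k < P.ln p.1) (d : α × Bool) :
    li ((P.sw p).getD k d) = P.ctail (P.cid p ((k + 1) % P.ln p.1)) := by
  obtain ⟨i, ε⟩ := p
  have hk' : k < (P.sw (i, ε)).length := by rw [P.sw_length]; exact hk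
  rw [List.getD_eq_getElem _ _ hk']
  simp only at hk
  have hm : (k + 1) % P.ln i < P.ln i := Nat.mod_lt _ (by omega)
  cases ε
  · simp only [Pres.sw, Pres.cid, Pres.ctail]
    simp only [Bool.false_eq_true, if_false]
    rw [invRev_getElem]
    have hl : (P.rel i).length = P.ln i := by simp [Pres.rel]
    rw [rel_getElem, li_li]
    congr 1
    rw [mod_neg hm, mod_succ hk]
    by_cases h1 : k + 1 = P.ln i
    · simp [h1]; omega
    · simp only [h1, if_false]
      rw [if_neg (by omega)]
      omega
  · simp only [Pres.sw, Pres.cid, Pres.ctail]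
    simp only [if_true]
    rw [rel_getElem]
    congr 2
    rw [mod_pred hm, mod_succ hk]
    by_cases h1 : k + 1 = P.ln i
    · simp [h1]; omega
    · simp only [h1, if_false]
      rw [if_neg (by omega)]
      omega

lemma Pres.sum_cid (p : ι × Bool) (hL : 0 < P.ln p.1) :
    ∑ k ∈ Finset.range (P.ln p.1), P.th p.1 (P.cid p k).2.1 =
      ∑ κ ∈ Finset.range (P.ln p.1), P.th p.1 κ := by
  obtain ⟨i, ε⟩ := p
  simp only at hL ⊢
  cases ε
  · simp only [Pres.cid, Bool.false_eq_true, if_false]
    obtain ⟨L, hL'⟩ : ∃ L, P.ln i = L + 1 := ⟨P.ln i - 1, by omega⟩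
    rw [hL', Finset.sum_range_succ', Finset.sum_range_succ' (f := fun κ => P.th i κ)]
    congr 1
    · rw [← Finset.sum_range_reflect]
      apply Finset.sum_congr rfl
      intro k hk
      rw [Finset.mem_range] at hk
      congr 1
      have : L + 1 - (L - 1 - k + 1) = k + 1 := by omega
      rw [this, Nat.mod_eq_of_lt (by omega)]
    · simp
  · simp only [Pres.cid, if_true]

end types

section reduced

variable {α ι : Type*}

lemma prod_map_range_update {G : Type*} [Group G] (g : ℕ → G) (L k : ℕ) (hk : k < L) (s : G) :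
    ((List.range L).map (fun m => if m = k then s else g m)).prod =
      ((List.range k).map g).prod * s *
        ((List.range (L - 1 - k)).map (fun m => g (k + 1 + m))).prod := by
  have hL : L = k + (1 + (L - 1 - k)) := by omega
  conv_lhs => rw [hL]
  rw [List.range_add, List.map_append, List.prod_append, List.range_add, List.map_append,
    List.map_append, List.prod_append, mul_assoc]
  congr 1
  · congr 1
    apply List.map_congr_left
    intro m hm
    rw [List.mem_range] at hm
    rw [if_neg (by omega)]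
  · congr 1
    · simp
    · congr 1
      rw [List.map_map, List.map_map]
      apply List.map_congr_left
      intro m hm
      simp only [Function.comp]
      rw [if_neg (by omega)]
      congr 1
      omega

lemma mk_eq_prod (l : List (α × Bool)) :
    FreeGroup.mk l = (l.map (fun a => FreeGroup.mk [a])).prod := by
  induction l with
  | nil => simp [FreeGroup.one_eq_mk]
  | cons a l ih => rw [List.map_cons, List.prod_cons, ← ih, FreeGroup.mul_mk]; rfl

lemma mk_eq_prod_getD (w : List (α × Bool)) (d : α × Bool) :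
    FreeGroup.mk w = ((List.range w.length).map (fun k => FreeGroup.mk [w.getD k d])).prod := by
  have h1 : w = (List.range w.length).map (fun k => w.getD k d) := by
    apply List.ext_getElem
    · simp
    · intro i h1 h2
      rw [List.getElem_map, List.getElem_range, List.getD_eq_getElem _ _ h1]
  rw [mk_eq_prod w]
  conv_lhs => rw [h1]
  rw [List.map_map]
  rfl

lemma mk_li (a : α × Bool) : FreeGroup.mk [li a] = (FreeGroup.mk [a])⁻¹ := by
  rw [FreeGroup.inv_mk]
  simp [invRev, li]

lemma Pres.RW_inv (P : Pres α ι) (w : List (α × Bool)) (hw : w ∈ P.RW) : invRev w ∈ P.RW := by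
  obtain ⟨i, hi, h | h⟩ := hw
  · exact ⟨i, hi, Or.inr (by rw [h])⟩
  · exact ⟨i, hi, Or.inl (by rw [h, invRev_invRev])⟩

/-- the group elements of the relators and their inverses -/
def Pres.RG (P : Pres α ι) : Set (FreeGroup α) := {x | ∃ w ∈ P.RW, x = FreeGroup.mk w}

lemma Pres.RG_inv (P : Pres α ι) (x : FreeGroup α) (hx : x ∈ P.RG) : x⁻¹ ∈ P.RG := by
  obtain ⟨w, hw, rfl⟩ := hx
  exact ⟨invRev w, P.RW_inv w hw, by rw [FreeGroup.inv_mk]⟩

lemma CPn.area2 {G : Type*} [Group G] {R : Set G} {f : ℕ → G} {n : ℕ} {g : G} (h : CPn f n g)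
    (hf : ∀ j, j < n → f j ∈ R ∨ f j = 1) (j j' : ℕ) (hj : j < n) (hj' : j' < n) (hne : j ≠ j')
    (h1 : f j = 1) (h2 : f j' = 1) : ∃ m, m + 2 ≤ n ∧ Area R m g := by
  classical
  obtain ⟨m, hm, ha⟩ := h.area hf
  refine ⟨m, ?_, ha⟩
  refine le_trans (Nat.add_le_add_left ?_ m) hm
  rw [← Finset.card_pair hne]
  apply Finset.card_le_card
  intro x hx
  rw [Finset.mem_insert, Finset.mem_singleton] at hx
  rcases hx with rfl | rfl
  · exact Finset.mem_filter.2 ⟨Finset.mem_range.2 hj, h1⟩
  · exact Finset.mem_filter.2 ⟨Finset.mem_range.2 hj', h2⟩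

/-- if the corner after the edge is the mirror image of the corner before it, the two faces
carry inverse words read from the edge -/
lemma mirror_index {L k k' : ℕ} {e e' : Bool} (hk : k < L) (hk' : k' < L) (he : e' = !e)
    (h2 : (if e' = true then (k' + 1) % L else (L - (k' + 1) % L) % L) =
      if e = true then k else (L - k) % L) : k' = L - 1 - k := by
  subst he
  have hm : (k' + 1) % L < L := Nat.mod_lt _ (by omega)
  cases e
  · simp only [Bool.not_false, if_true, Bool.false_eq_true, if_false] at h2
    rw [mod_succ hk', mod_neg hk] at h2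
    split_ifs at h2 <;> omega
  · simp only [Bool.not_true, if_true, Bool.false_eq_true, if_false] at h2
    rw [mod_neg hm, mod_succ hk'] at h2
    by_cases h3 : k' + 1 = L
    · simp only [h3, if_true] at h2
      omega
    · simp only [h3, if_false] at h2
      rw [if_neg (by omega)] at h2
      omega

theorem reduced_aux {P : Pres α ι} {D : Dat α} {W : List (α × Bool)} {N : ℕ}
    (hD : Good P.RW W N D) (hmin : ∀ m < N, ¬ Area P.RG m (FreeGroup.mk W))
    (ty : ℕ → ι × Bool) (hty : ∀ j < N, P.ok (ty j).1 ∧ D.fw j = P.sw (ty j))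
    (j k j' k' : ℕ) (hv : D.valid N (.inr (j, k))) (hal : D.al (.inr (j, k)) = .inr (j', k'))
    (h : P.cid (ty j') ((k' + 1) % P.ln (ty j').1) = cflip (P.cid (ty j) k)) : False := by
  classical
  have hv' : D.valid N (.inr (j', k')) := by
    rw [← hal]; exact hD.al_valid _ hv
  have hal' : D.al (.inr (j', k')) = .inr (j, k) := by
    rw [← hal]; exact hD.al_al _ hv
  have hv0 := hv
  have hv0' := hv'
  obtain ⟨hj, hk⟩ := hv
  obtain ⟨hj', hk'⟩ := hv'
  have hw := (hty j hj).2
  have hw' := (hty j' hj').2
  have hLj : (D.fw j).length = P.ln (ty j).1 := by rw [hw, P.sw_length]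
  have hLj' : (D.fw j').length = P.ln (ty j').1 := by rw [hw', P.sw_length]
  rw [hLj] at hk
  rw [hLj'] at hk'
  simp only [Pres.cid, cflip, Prod.mk.injEq] at h
  obtain ⟨h1, h2, h3⟩ := h
  rw [h1] at h2 hk' hLj'
  have hkk := mirror_index hk hk' h3 h2
  set L := P.ln (ty j).1 with hL
  have hne : j ≠ j' := by
    rintro rfl
    cases hh : (ty j).2 <;> simp [hh] at h3
  have hinv : D.fw j' = invRev (D.fw j) := by
    rw [hw', hw]
    unfold Pres.sw
    rw [h3, h1]
    cases (ty j).2
    · simp only [Bool.not_false, if_true, Bool.false_eq_true, if_false, invRev_invRev]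
    · simp only [Bool.not_true, if_true, Bool.false_eq_true, if_false]
  -- the modified labelling
  let g : ℕ → FreeGroup α := fun m => FreeGroup.mk [D.lab (.inr (j, m))]
  let g' : ℕ → FreeGroup α := fun m => FreeGroup.mk [D.lab (.inr (j', m))]
  have hg' : ∀ m, m < L → g' m = (g (L - 1 - m))⁻¹ := by
    intro m hm
    show FreeGroup.mk [(D.fw j').getD m (D.lo 0)] =
      (FreeGroup.mk [(D.fw j).getD (L - 1 - m) (D.lo 0)])⁻¹
    rw [← mk_li]
    congr 2
    rw [hinv, List.getD_eq_getElem _ _ (by rw [invRev_length, hLj]; exact hm),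
      List.getD_eq_getElem _ _ (by omega), invRev_getElem]
    congr 2
    rw [hLj]
  let A : FreeGroup α := ((List.range k).map g).prod
  let B : FreeGroup α := ((List.range (L - 1 - k)).map (fun m => g (k + 1 + m))).prod
  let s : FreeGroup α := A⁻¹ * B⁻¹
  let σ : Dart → FreeGroup α := fun x =>
    if x = .inr (j, k) then s else if x = .inr (j', k') then s⁻¹ else FreeGroup.mk [D.lab x]
  have hjk : (Sum.inr (j', k') : Dart) ≠ .inr (j, k) := by
    intro hh
    simp only [Sum.inr.injEq, Prod.mk.injEq] at hh
    exact hne hh.1.symm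
  have hσ : ∀ x, D.valid N x → σ (D.al x) = (σ x)⁻¹ := by
    intro x hx
    by_cases hx1 : x = .inr (j, k)
    · subst hx1
      rw [hal]
      simp only [σ, if_true, if_neg hjk]
    · by_cases hx2 : x = .inr (j', k')
      · subst hx2
        rw [hal']
        simp only [σ, if_true, if_neg hjk, inv_inv]
      · have ha1 : D.al x ≠ .inr (j, k) := by
          intro hh
          apply hx2
          rw [← hD.al_al x hx, hh, hal]
        have ha2 : D.al x ≠ .inr (j', k') := by
          intro hh
          apply hx1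
          rw [← hD.al_al x hx, hh, hal']
        simp only [σ, if_neg hx1, if_neg hx2, if_neg ha1, if_neg ha2]
        rw [hD.al_lab x hx, mk_li]
  have hf1 : fprod σ j (D.fw j).length = 1 := by
    rw [hLj]
    have e : (List.range L).map (fun m => σ (.inr (j, m))) =
        (List.range L).map (fun m => if m = k then s else g m) := by
      apply List.map_congr_left
      intro m _
      by_cases hm : m = k
      · subst hm
        simp only [σ, if_true]
      · have e1 : (Sum.inr (j, m) : Dart) ≠ .inr (j, k) := by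
          intro hh
          simp only [Sum.inr.injEq, Prod.mk.injEq] at hh
          exact hm hh.2
        have e2 : (Sum.inr (j, m) : Dart) ≠ .inr (j', k') := by
          intro hh
          simp only [Sum.inr.injEq, Prod.mk.injEq] at hh
          exact hne hh.1
        simp only [σ, if_neg e1, if_neg e2, if_neg hm, g]
    rw [fprod, e, prod_map_range_update g L k hk s]
    show A * (A⁻¹ * B⁻¹) * B = 1
    group
  have hf2 : fprod σ j' (D.fw j').length = 1 := by
    rw [hLj']
    have e : (List.range L).map (fun m => σ (.inr (j', m))) =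
        (List.range L).map (fun m => if m = k' then s⁻¹ else g' m) := by
      apply List.map_congr_left
      intro m _
      by_cases hm : m = k'
      · subst hm
        simp only [σ, if_true, if_neg hjk]
      · have e1 : (Sum.inr (j', m) : Dart) ≠ .inr (j, k) := by
          intro hh
          simp only [Sum.inr.injEq, Prod.mk.injEq] at hh
          exact hne hh.1.symm
        have e2 : (Sum.inr (j', m) : Dart) ≠ .inr (j', k') := by
          intro hh
          simp only [Sum.inr.injEq, Prod.mk.injEq] at hh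
          exact hm hh.2
        simp only [σ, if_neg e1, if_neg e2, if_neg hm, g']
    rw [fprod, e, prod_map_range_update g' L k' hk' s⁻¹]
    have eA : ((List.range k').map g').prod = B⁻¹ := by
      show _ = (((List.range (L - 1 - k)).map (fun m => g (k + 1 + m))).prod)⁻¹
      rw [← prod_rev_inv, hkk]
      congr 1
      apply List.map_congr_left
      intro m hm
      rw [List.mem_range] at hm
      rw [hg' m (by omega)]
      congr 2
      omega
    have eB : ((List.range (L - 1 - k')).map (fun m => g' (k' + 1 + m))).prod = A⁻¹ := by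
      show _ = (((List.range k).map g).prod)⁻¹
      rw [← prod_rev_inv]
      have : L - 1 - k' = k := by omega
      rw [this]
      congr 1
      apply List.map_congr_left
      intro m hm
      rw [List.mem_range] at hm
      rw [hg' _ (by omega)]
      congr 2
      omega
    rw [eA, eB]
    show B⁻¹ * (A⁻¹ * B⁻¹)⁻¹ * A⁻¹ = 1
    group
  have hf3 : ∀ j'', j'' < N → (fprod σ j'' (D.fw j'').length)⁻¹ ∈ P.RG ∨
      (fprod σ j'' (D.fw j'').length)⁻¹ = 1 := by
    intro m hm
    by_cases h4 : m = j
    · subst h4; right; rw [hf1, inv_one]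
    · by_cases h5 : m = j'
      · subst h5; right; rw [hf2, inv_one]
      · left
        apply P.RG_inv
        refine ⟨D.fw m, hD.hfw m hm, ?_⟩
        rw [mk_eq_prod_getD _ (D.lo 0), fprod]
        congr 1
        apply List.map_congr_left
        intro t _
        have e1 : (Sum.inr (m, t) : Dart) ≠ .inr (j, k) := by
          intro hh
          simp only [Sum.inr.injEq, Prod.mk.injEq] at hh
          exact h4 hh.1
        have e2 : (Sum.inr (m, t) : Dart) ≠ .inr (j', k') := by
          intro hh
          simp only [Sum.inr.injEq, Prod.mk.injEq] at hh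
          exact h5 hh.1
        simp only [σ, if_neg e1, if_neg e2]
        rfl
  have hout : (D.O.map (fun i => σ (.inl i))).prod = FreeGroup.mk W := by
    rw [mk_eq_prod, ← hD.hlo, List.map_map]
    congr 1
  have hcp := hD.univ σ hσ
  rw [hout] at hcp
  obtain ⟨m, hm, ha⟩ := hcp.area2 hf3 j j' hj hj' hne (by rw [hf1, inv_one])
    (by rw [hf2, inv_one])
  exact hmin m (by omega) ha

end reduced


section main

variable {α ι : Type*}

theorem no_diagram {P : Pres α ι} {D : Dat α} {W : List (α × Bool)} {N : ℕ} (K : ℕ) (hK : 0 < K)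
    (hface : ∀ i, P.ok i → ∑ κ ∈ Finset.range (P.ln i), P.th i κ + 2 * K ≤ K * P.ln i)
    (hV : ∀ (c : ℕ → ι × ℕ × Bool) (q : ℕ), 0 < q → (∀ t, c (t + q) = c t) →
      (∀ t, P.cok (c t)) → (∀ t, P.chead (c t) = P.ctail (c (t + 1))) →
      (∀ t, c (t + 1) ≠ cflip (c t)) →
      2 * K ≤ ∑ t ∈ Finset.range q, P.th (c t).1 (c t).2.1)
    (hW : W ≠ []) (G : α × Bool → ℤ)
    (hG : ∀ c, P.cok c → G (P.chead c) - G (P.ctail c) ≤ P.th c.1 c.2.1)
    (hGW : ∀ a ∈ W, ∀ b ∈ W, (K : ℤ) ≤ G (li a) - G b)
    (hD : Good P.RW W N D) (hmin : ∀ m < N, ¬ Area P.RG m (FreeGroup.mk W))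
    (ty : ℕ → ι × Bool) (hty : ∀ j < N, P.ok (ty j).1 ∧ D.fw j = P.sw (ty j)) : False := by
  classical
  have hLj : ∀ j < N, (D.fw j).length = P.ln (ty j).1 := by
    intro j hj
    rw [(hty j hj).2, P.sw_length]
  let cc : Dart → ι × ℕ × Bool := Sum.elim (fun _ => P.cid (ty 0) 0) (fun p => P.cid (ty p.1) p.2)
  let w : ℕ → ℕ → ℕ := fun j k => P.th (P.cid (ty j) k).1 (P.cid (ty j) k).2.1
  let wt : Dart → ℕ := Sum.elim (fun _ => K) (fun p => w p.1 p.2)
  -- steps of the rotation which end on an inner dart
  have hstep : ∀ (x : {x // D.valid N x}) (j k : ℕ), (hD.rot x).1 = .inr (j, k) →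
      j < N ∧ k < (D.fw j).length ∧ P.cok (P.cid (ty j) k) ∧
      D.lab x.1 = P.ctail (P.cid (ty j) k) ∧
      D.lab (hD.rot x).1 = P.chead (P.cid (ty j) k) ∧
      ∃ k', k' < (D.fw j).length ∧ D.al x.1 = .inr (j, k') ∧ k = (k' + 1) % (D.fw j).length := by
    intro x j k h
    have hv := (hD.rot x).2
    rw [h] at hv
    obtain ⟨hj, hk⟩ := hv
    have hx : D.nx (D.al x.1) = .inr (j, k) := h
    have hva := hD.al_valid _ x.2
    rcases hax : D.al x.1 with i | ⟨j', k'⟩
    · rw [hax] at hx; simp [Dat.nx] at hx
    · rw [hax] at hx hva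
      simp only [Dat.nx, Sum.inr.injEq, Prod.mk.injEq] at hx
      obtain ⟨rfl, h2⟩ := hx
      have hL := hLj j' hj
      have hk'' : k' < P.ln (ty j').1 := by rw [← hL]; exact hva.2
      refine ⟨hj, hk, ⟨(hty j' hj).1, P.cid_lt _ _ (by rw [← hL]; exact hk)⟩, ?_, ?_,
        k', hva.2, rfl, h2.symm⟩
      · have e1 : D.lab x.1 = li (D.lab (D.al x.1)) := by
          rw [hD.al_lab _ x.2, li_li]
        rw [e1, hax]
        show li ((D.fw j').getD k' (D.lo 0)) = _
        rw [(hty j' hj).2, P.sw_tail _ _ hk'', ← hL, h2]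
      · rw [h]
        show (D.fw j').getD k (D.lo 0) = _
        rw [(hty j' hj).2, P.sw_head _ _ (by rw [← hL]; exact hk)]
  have hO0 : D.O ≠ [] := by
    intro h
    apply hW
    rw [← hD.hlo, h]; rfl
  obtain ⟨A, hA1, hA2⟩ := hD.cnt
  have hloW : ∀ i ∈ D.O, D.lo i ∈ W := by
    intro i hi
    rw [← hD.hlo]
    exact List.mem_map_of_mem hi
  have key : ∀ v ∈ A, 2 * K ≤ ∑ y ∈ (D.darts N).filter (fun y => D.nu y = v), wt y := by
    intro v hv
    by_cases hb : ∃ i ∈ D.O, D.nu (.inl i) = v
    · obtain ⟨i, hi, hiv⟩ := hb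
      let x : {x // D.valid N x} := ⟨.inl i, hi⟩
      obtain ⟨q, hq0, hq, hsum⟩ := hD.exists_period x wt
      have hvx : D.nu x.1 = v := hiv
      rw [hvx] at hsum
      refine le_trans ?_ hsum
      -- first return to an outer dart
      have hex : ∃ m, ∃ i', (hD.rot^[m + 1] x).1 = .inl i' := by
        refine ⟨q - 1, i, ?_⟩
        have : q - 1 + 1 = q := by omega
        rw [this, hq]
      obtain ⟨m, ⟨i', hm⟩, hmm⟩ : ∃ m, (∃ i', (hD.rot^[m + 1] x).1 = .inl i') ∧
          ∀ m' < m, ¬ ∃ i', (hD.rot^[m' + 1] x).1 = .inl i' :=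
        ⟨Nat.find hex, Nat.find_spec hex, fun m' hm' => Nat.find_min hex hm'⟩
      have hmq : m + 1 ≤ q := by
        by_contra hcon
        apply hmm (q - 1) (by omega)
        refine ⟨i, ?_⟩
        have : q - 1 + 1 = q := by omega
        rw [this, hq]
      have hwalk : ∀ s, s ≤ m → G (D.lab (hD.rot^[s] x).1) - G (D.lab x.1) ≤
          ((∑ r ∈ Finset.range s, wt (hD.rot^[r + 1] x).1 : ℕ) : ℤ) := by
        intro s
        induction s with
        | zero => intro _; simp
        | succ s ih =>
          intro hs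
          have h1 := ih (by omega)
          rw [Finset.sum_range_succ]
          push_cast
          push_cast at h1
          have h2 : ∃ j k, (hD.rot^[s + 1] x).1 = .inr (j, k) := by
            rcases h3 : (hD.rot^[s + 1] x).1 with i'' | ⟨j, k⟩
            · exact absurd ⟨i'', h3⟩ (hmm s (by omega))
            · exact ⟨j, k, rfl⟩
          obtain ⟨j, k, h2⟩ := h2
          have h4 := hstep (hD.rot^[s] x) j k (by
            rw [Function.iterate_succ_apply'] at h2; exact h2)
          obtain ⟨_, _, hcok, hl1, hl2, _⟩ := h4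
          rw [← Function.iterate_succ_apply' (f := hD.rot)] at hl2
          have h5 := hG _ hcok
          have h6 : wt (hD.rot^[s + 1] x).1 =
              P.th (P.cid (ty j) k).1 (P.cid (ty j) k).2.1 := by
            rw [h2]; rfl
          rw [h6, hl2]
          rw [hl1] at h1
          linarith
      have hw1 := hwalk m le_rfl
      -- the last dart before the return
      have hlast : ∃ i'' ∈ D.O, D.al (hD.rot^[m] x).1 = .inl i'' := by
        rw [Function.iterate_succ_apply'] at hm
        have hm' : D.nx (D.al (hD.rot^[m] x).1) = .inl i' := hm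
        have hva := hD.al_valid _ (hD.rot^[m] x).2
        rcases hax : D.al (hD.rot^[m] x).1 with i'' | ⟨j', k'⟩
        · rw [hax] at hva
          exact ⟨i'', hva, rfl⟩
        · rw [hax] at hm'
          simp [Dat.nx] at hm'
      obtain ⟨i'', hi'', hal⟩ := hlast
      have hlab : D.lab (hD.rot^[m] x).1 = li (D.lo i'') := by
        have e1 : D.lab (hD.rot^[m] x).1 = li (D.lab (D.al (hD.rot^[m] x).1)) := by
          rw [hD.al_lab _ (hD.rot^[m] x).2, li_li]
        rw [e1, hal]; rfl
      rw [hlab] at hw1
      have hg2 := hGW _ (hloW i'' hi'') _ (hloW i hi)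
      have hlx : D.lab x.1 = D.lo i := rfl
      rw [hlx] at hw1
      have hw2 : K ≤ ∑ r ∈ Finset.range m, wt (hD.rot^[r + 1] x).1 := by
        have : (K : ℤ) ≤ ((∑ r ∈ Finset.range m, wt (hD.rot^[r + 1] x).1 : ℕ) : ℤ) := by
          linarith
        exact_mod_cast this
      calc 2 * K = K + K := by ring
        _ ≤ ∑ r ∈ Finset.range m, wt (hD.rot^[r + 1] x).1 + wt (hD.rot^[0] x).1 :=
            Nat.add_le_add hw2 (le_of_eq rfl)
        _ = ∑ r ∈ Finset.range (m + 1), wt (hD.rot^[r] x).1 := by
            rw [Finset.sum_range_succ']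
        _ ≤ _ := by
            apply Finset.sum_le_sum_of_subset
            intro r hr
            rw [Finset.mem_range] at hr ⊢
            omega
    · -- interior vertex
      have hxv : ∃ x, D.valid N x ∧ D.nu x = v := by
        rcases hA1 v hv with h | h
        · exfalso
          apply hb
          have h0 : 0 < D.O.length := List.length_pos_of_ne_nil hO0
          exact ⟨D.O[0], List.getElem_mem _, by rw [path_getElem_zero hD.path h0, h]⟩
        · exact h
      obtain ⟨x', hx', hxv⟩ := hxv
      let x : {x // D.valid N x} := ⟨x', hx'⟩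
      obtain ⟨q, hq0, hq, hsum⟩ := hD.exists_period x wt
      have hvx : D.nu x.1 = v := hxv
      rw [hvx] at hsum
      refine le_trans ?_ hsum
      have hinn : ∀ t, ∃ j k, (hD.rot^[t] x).1 = .inr (j, k) := by
        intro t
        rcases h3 : (hD.rot^[t] x).1 with i | ⟨j, k⟩
        · exfalso
          apply hb
          have h4 := (hD.rot^[t] x).2
          rw [h3] at h4
          refine ⟨i, h4, ?_⟩
          rw [← h3, hD.nu_rot_iter x t, hvx]
        · exact ⟨j, k, rfl⟩
      have hper : ∀ t, hD.rot^[t + q] x = hD.rot^[t] x := by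
        intro t
        rw [Function.iterate_add_apply, hq]
      have hmain := hV (fun t => cc (hD.rot^[t + 1] x).1) q hq0 ?_ ?_ ?_ ?_
      · calc 2 * K ≤ ∑ t ∈ Finset.range q, wt (hD.rot^[t + 1] x).1 := by
              refine le_trans hmain (le_of_eq ?_)
              apply Finset.sum_congr rfl
              intro t _
              obtain ⟨j, k, h⟩ := hinn (t + 1)
              rw [h]
              rfl
          _ = ∑ t ∈ Finset.range q, wt (hD.rot^[t] x).1 := by
              have e1 := Finset.sum_range_succ (fun t => wt (hD.rot^[t] x).1) q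
              have e2 := Finset.sum_range_succ' (fun t => wt (hD.rot^[t] x).1) q
              have e3 : wt (hD.rot^[q] x).1 = wt (hD.rot^[0] x).1 := by rw [hq]; rfl
              omega
      · intro t
        show cc (hD.rot^[t + q + 1] x).1 = cc (hD.rot^[t + 1] x).1
        have : t + q + 1 = (t + 1) + q := by omega
        rw [this, hper]
      · intro t
        obtain ⟨j, k, h⟩ := hinn (t + 1)
        show P.cok (cc (hD.rot^[t + 1] x).1)
        have h4 := hstep (hD.rot^[t] x) j k (by
          rw [Function.iterate_succ_apply'] at h; exact h)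
        rw [h]
        exact h4.2.2.1
      · intro t
        obtain ⟨j, k, h⟩ := hinn (t + 1)
        obtain ⟨j', k', h'⟩ := hinn (t + 2)
        have h4 := hstep (hD.rot^[t] x) j k (by
          rw [Function.iterate_succ_apply'] at h; exact h)
        have h5 := hstep (hD.rot^[t + 1] x) j' k' (by
          rw [Function.iterate_succ_apply'] at h'; exact h')
        show P.chead (cc (hD.rot^[t + 1] x).1) = P.ctail (cc (hD.rot^[t + 1 + 1] x).1)
        have e1 := h4.2.2.2.2.1
        rw [← Function.iterate_succ_apply' (f := hD.rot)] at e1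
        have e2 := h5.2.2.2.1
        rw [h, h']
        show P.chead (P.cid (ty j) k) = P.ctail (P.cid (ty j') k')
        rw [← e1, ← e2]
      · intro t
        obtain ⟨j, k, h⟩ := hinn (t + 1)
        obtain ⟨j', k', h'⟩ := hinn (t + 2)
        have h4 := hstep (hD.rot^[t] x) j k (by
          rw [Function.iterate_succ_apply'] at h; exact h)
        have h5 := hstep (hD.rot^[t + 1] x) j' k' (by
          rw [Function.iterate_succ_apply'] at h'; exact h')
        obtain ⟨hj', hk', _, _, _, k'', hk'', hal, hkk⟩ := h5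
        show cc (hD.rot^[t + 1 + 1] x).1 ≠ cflip (cc (hD.rot^[t + 1] x).1)
        rw [h, h']
        show P.cid (ty j') k' ≠ cflip (P.cid (ty j) k)
        intro hcon
        rw [h] at hal
        refine reduced_aux hD hmin ty hty j k j' k'' ?_ hal ?_
        · exact ⟨h4.1, h4.2.1⟩
        · rw [← hLj j' hj', ← hkk, hcon]
  -- summing up
  have h1 : 2 * K * A.card ≤ ∑ y ∈ D.darts N, wt y := by
    calc 2 * K * A.card = ∑ _v ∈ A, 2 * K := by
          rw [Finset.sum_const, smul_eq_mul, mul_comm]
      _ ≤ ∑ v ∈ A, ∑ y ∈ (D.darts N).filter (fun y => D.nu y = v), wt y :=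
          Finset.sum_le_sum key
      _ ≤ ∑ y ∈ D.darts N, wt y := by
          have e := Finset.sum_fiberwise_of_maps_to
            (s := (D.darts N).filter (fun y => D.nu y ∈ A)) (t := A) (g := D.nu) (f := wt)
            (by intro x hx; exact (Finset.mem_filter.1 hx).2)
          have e2 : ∑ v ∈ A, ∑ y ∈ (D.darts N).filter (fun y => D.nu y = v), wt y =
              ∑ v ∈ A, ∑ y ∈ ((D.darts N).filter (fun y => D.nu y ∈ A)).filter
                (fun y => D.nu y = v), wt y := by
            apply Finset.sum_congr rfl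
            intro v hv
            apply Finset.sum_congr _ (fun _ _ => rfl)
            ext y
            simp only [Finset.mem_filter]
            constructor
            · rintro ⟨h1, rfl⟩
              exact ⟨⟨h1, hv⟩, rfl⟩
            · rintro ⟨⟨h1, _⟩, h2⟩
              exact ⟨h1, h2⟩
          rw [e2, e]
          apply Finset.sum_le_sum_of_subset
          exact Finset.filter_subset _ _
  have h2 := D.sum_darts N hD.hO K w
  have h3 : ∑ j ∈ Finset.range N, ∑ k ∈ Finset.range (D.fw j).length, w j k + 2 * K * N ≤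
      K * ∑ j ∈ Finset.range N, (D.fw j).length := by
    have e : 2 * K * N = ∑ _j ∈ Finset.range N, 2 * K := by
      rw [Finset.sum_const, smul_eq_mul, Finset.card_range, mul_comm]
    rw [e, ← Finset.sum_add_distrib, Finset.mul_sum]
    apply Finset.sum_le_sum
    intro j hj
    rw [Finset.mem_range] at hj
    have hl := hD.hlen j hj
    rw [hLj j hj] at hl ⊢
    have e3 : ∑ k ∈ Finset.range (P.ln (ty j).1), w j k =
        ∑ κ ∈ Finset.range (P.ln (ty j).1), P.th (ty j).1 κ := P.sum_cid (ty j) hl
    rw [e3]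
    exact hface _ (hty j hj).1
  have h4 : ∑ y ∈ D.darts N, wt y = K * D.O.length +
      ∑ j ∈ Finset.range N, ∑ k ∈ Finset.range (D.fw j).length, w j k := h2
  have h5 : K * (D.O.length + ∑ j ∈ Finset.range N, (D.fw j).length + 2) ≤
      K * (2 * A.card + 2 * N) := Nat.mul_le_mul_left K hA2
  nlinarith

theorem weight_test [Inhabited α] [Nonempty ι] (P : Pres α ι) (K : ℕ) (hK : 0 < K)
    (hln : ∀ i, P.ok i → 0 < P.ln i)
    (hface : ∀ i, P.ok i → ∑ κ ∈ Finset.range (P.ln i), P.th i κ + 2 * K ≤ K * P.ln i)
    (hV : ∀ (c : ℕ → ι × ℕ × Bool) (q : ℕ), 0 < q → (∀ t, c (t + q) = c t) →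
      (∀ t, P.cok (c t)) → (∀ t, P.chead (c t) = P.ctail (c (t + 1))) →
      (∀ t, c (t + 1) ≠ cflip (c t)) →
      2 * K ≤ ∑ t ∈ Finset.range q, P.th (c t).1 (c t).2.1)
    (W : List (α × Bool)) (hW : W ≠ []) (G : α × Bool → ℤ)
    (hG : ∀ c, P.cok c → G (P.chead c) - G (P.ctail c) ≤ P.th c.1 c.2.1)
    (hGW : ∀ a ∈ W, ∀ b ∈ W, (K : ℤ) ≤ G (li a) - G b) :
    FreeGroup.mk W ∉ Subgroup.normalClosure {x | ∃ i, P.ok i ∧ x = FreeGroup.mk (P.rel i)} := by
  classical
  intro hmem
  have h1 : FreeGroup.mk W ∈ Subgroup.normalClosure P.RG := by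
    refine Subgroup.normalClosure_mono ?_ hmem
    rintro x ⟨i, hi, rfl⟩
    exact ⟨P.rel i, ⟨i, hi, Or.inl rfl⟩, rfl⟩
  have hex := exists_area P.RG_inv h1
  have hne : ∀ w ∈ P.RW, w ≠ [] := by
    rintro w ⟨i, hi, h⟩ rfl
    have hl : (P.rel i).length = P.ln i := by simp [Pres.rel]
    have hp := hln i hi
    rcases h with h | h
    · rw [← h] at hl
      simp at hl
      omega
    · have h2 : (P.rel i).length = 0 := by rw [← invRev_length, ← h]; rfl
      omega
  obtain ⟨D, hD⟩ := exists_good hne P.RW_inv (Nat.find_spec hex) W rfl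
  have hty : ∀ j, j < Nat.find hex → ∃ p : ι × Bool, P.ok p.1 ∧ D.fw j = P.sw p := by
    intro j hj
    obtain ⟨i, hi, h | h⟩ := hD.hfw j hj
    · exact ⟨(i, true), hi, by rw [h]; simp [Pres.sw]⟩
    · exact ⟨(i, false), hi, by rw [h]; simp [Pres.sw]⟩
  choose! ty hty' using hty
  exact no_diagram K hK hface hV hW G hG hGW hD (fun m hm => Nat.find_min hex hm) ty hty'

end main

end Pool.Agent.MPcf54d7
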